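import Mathlib
import Pool.Agent.Helper31.Spectra

set_option autoImplicit false

/-!
# TX: intersections of spectra
-/

namespace Pool.Agent.Helper72.TX

open FirstOrder FirstOrder.Language Pool.Agent.Helper31.Spectra

theorem isSpectrum_inter {S T : Set ℕ} (hS : IsSpectrum S) (hT : IsSpectrum T) :
    IsSpectrum (S ∩ T) := by
  obtain ⟨L, φ, hL, rfl⟩ := hS
  obtain ⟨L', ψ, hL', rfl⟩ := hT
  refine ⟨L.sum L', (LHom.sumInl.onSentence φ) ⊓ (LHom.sumInr.onSentence ψ),
    finVoc_sum hL hL', ?_⟩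
  ext n
  constructor
  · rintro ⟨hn, M, sM, hM, hr⟩
    let s1 : L.Structure M := (LHom.sumInl : L →ᴸ L.sum L').reduct M
    let s2 : L'.Structure M := (LHom.sumInr : L' →ᴸ L.sum L').reduct M
    obtain ⟨h1, h2⟩ := Formula.realize_inf.1 hr
    refine ⟨⟨hn, M, s1, hM, ?_⟩, ⟨hn, M, s2, hM, ?_⟩⟩
    · exact (LHom.realize_onSentence M (LHom.sumInl : L →ᴸ L.sum L') φ).1 h1
    · exact (LHom.realize_onSentence M (LHom.sumInr : L' →ᴸ L.sum L') ψ).1 h2
  · rintro ⟨⟨hn, M, sM, hM, hr⟩, ⟨-, M', sM', hM', hr'⟩⟩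
    have hfin : Finite M := Nat.finite_of_card_ne_zero (by omega)
    have hfin' : Finite M' := Nat.finite_of_card_ne_zero (by omega)
    obtain ⟨e⟩ : Nonempty (M' ≃ M) := Finite.card_eq.1 (hM'.trans hM.symm)
    let s2 : L'.Structure M := e.inducedStructure
    refine ⟨hn, M, inferInstance, hM, Formula.realize_inf.2 ⟨?_, ?_⟩⟩
    · exact (LHom.realize_onSentence M (LHom.sumInl : L →ᴸ L.sum L') φ).2 hr
    · refine (LHom.realize_onSentence M (LHom.sumInr : L' →ᴸ L.sum L') ψ).2 ?_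
      exact (StrongHomClass.realize_sentence e.inducedStructureEquiv ψ).1 hr'

end Pool.Agent.Helper72.TX
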