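import Mathlib
import Pool.Agent.Helper72.TX.Defs

set_option autoImplicit false

/-!
# TW-1: capped local types

All proofs are inductions on the level `g` with the number `m` of points generalised. `d`, `d'` are
pseudo-metrics (`PM`). For `g + 1` an equality of types gives: the atomic types agree (`lt_aty`), and for each `x` in `S.D`
with `d x (a i) ≤ 3 ^ g` there is `x'` in `S'.D` with `d' x' (a' i') ≤ 3 ^ g` for some `i'` and
`lt S d g (m+1) (snoc a x) = lt S' d' g (m+1) (snoc a' x')` (lemma `lt_ext`); moreover the types of level `g` contain the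
distances up to the cap `3 ^ g + 1`, so that also `d' x' (a' i) = d x (a i)` for the same `i`.
-/

namespace Pool.Agent.Helper72.TX

open FirstOrder FirstOrder.Language

variable {L : FirstOrder.Language.{0, 0}} {X X' : Type} {S : Str L X} {S' : Str L X'}
  {d : X → X → ℕ} {d' : X' → X' → ℕ}

/-- Types determine atomic types. -/
theorem lt_aty {g m : ℕ} {a : Fin m → X} {a' : Fin m → X'}
    (h : lt S d g m a = lt S' d' g m a') : aty S d g a = aty S' d' g a' := by
  cases g with
  | zero => exact h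
  | succ g => exact congrArg Prod.fst h

private lemma aty_iff {g m : ℕ} {a : Fin m → X} {a' : Fin m → X'} :
    aty S d g a = aty S' d' g a' ↔
      (∀ (s : Σ n, L.Relations n) (v : Fin s.1 → Fin m),
        S.rel s.1 s.2 (fun i => a (v i)) ↔ S'.rel s.1 s.2 (fun i => a' (v i))) ∧
      (∀ i j, a i = a j ↔ a' i = a' j) ∧
      ∀ i j, min (d (a i) (a j)) (3 ^ g + 1) = min (d' (a' i) (a' j)) (3 ^ g + 1) := by
  unfold aty
  constructor
  · intro h
    have h1 := congrArg Prod.fst h
    have h2 := congrArg (fun t => t.2.1) h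
    have h3 := congrArg (fun t => t.2.2) h
    dsimp only at h1 h2 h3
    refine ⟨fun s v => iff_of_eq (congrFun (congrFun h1 s) v), fun i j =>
      iff_of_eq (congrFun (congrFun h2 i) j), fun i j => ?_⟩
    exact congrArg Fin.val (congrFun (congrFun h3 i) j)
  · rintro ⟨h1, h2, h3⟩
    refine Prod.ext ?_ (Prod.ext ?_ ?_)
    · funext s v
      exact propext (h1 s v)
    · funext i j
      exact propext (h2 i j)
    · funext i j
      exact Fin.ext (h3 i j)

/-- Atomic types determine small distances. -/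
theorem aty_dist {g m : ℕ} {a : Fin m → X} {a' : Fin m → X'}
    (h : aty S d g a = aty S' d' g a') {i j : Fin m} (hd : d (a i) (a j) ≤ 3 ^ g) :
    d' (a' i) (a' j) = d (a i) (a j) := by
  have h3 := (aty_iff.1 h).2.2 i j
  omega

theorem aty_dist' {g m : ℕ} {a : Fin m → X} {a' : Fin m → X'}
    (h : aty S d g a = aty S' d' g a') {i j : Fin m} {c : ℕ} (hc : c ≤ 3 ^ g)
    (hd : c < d (a i) (a j)) : c < d' (a' i) (a' j) := by
  have h3 := (aty_iff.1 h).2.2 i j
  omega

/-- Extension by a near point. -/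
theorem lt_ext {g m : ℕ} {a : Fin m → X} {a' : Fin m → X'}
    (h : lt S d (g + 1) m a = lt S' d' (g + 1) m a') {x : X} (hx : S.D x) {i : Fin m}
    (hi : d x (a i) ≤ 3 ^ g) :
    ∃ x', S'.D x' ∧ d' x' (a' i) = d x (a i) ∧
      lt S d g (m + 1) (Fin.snoc (α := fun _ => X) a x) =
        lt S' d' g (m + 1) (Fin.snoc (α := fun _ => X') a' x') := by
  have h2 : {t | ∃ x, S.D x ∧ (∃ i, d x (a i) ≤ 3 ^ g) ∧
      lt S d g (m + 1) (Fin.snoc (α := fun _ => X) a x) = t} =
      {t | ∃ x, S'.D x ∧ (∃ i, d' x (a' i) ≤ 3 ^ g) ∧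
      lt S' d' g (m + 1) (Fin.snoc (α := fun _ => X') a' x) = t} := congrArg Prod.snd h
  have h3 : lt S d g (m + 1) (Fin.snoc (α := fun _ => X) a x) ∈
      {t | ∃ x, S.D x ∧ (∃ i, d x (a i) ≤ 3 ^ g) ∧
      lt S d g (m + 1) (Fin.snoc (α := fun _ => X) a x) = t} := ⟨x, hx, ⟨i, hi⟩, rfl⟩
  rw [h2] at h3
  obtain ⟨x', hx', -, h4⟩ := h3
  refine ⟨x', hx', ?_, h4.symm⟩
  have h5 := lt_aty h4.symm
  have h6 := aty_dist h5 (i := Fin.last m) (j := Fin.castSucc i)
  rw [Fin.snoc_last, Fin.snoc_castSucc, Fin.snoc_last, Fin.snoc_castSucc] at h6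
  exact h6 hi

private lemma aty_mono {g g' m : ℕ} (hg : g ≤ g') {a : Fin m → X} {a' : Fin m → X'}
    (h : aty S d g' a = aty S' d' g' a') : aty S d g a = aty S' d' g a' := by
  rw [aty_iff] at h ⊢
  refine ⟨h.1, h.2.1, fun i j => ?_⟩
  have h1 := h.2.2 i j
  have h2 : 3 ^ g ≤ 3 ^ g' := Nat.pow_le_pow_right (by norm_num) hg
  omega

/-- Extensionality for types of positive level. -/
private lemma lt_succ_ext {g m : ℕ} {a : Fin m → X} {a' : Fin m → X'}
    (h : aty S d (g + 1) a = aty S' d' (g + 1) a')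
    (h1 : ∀ x, S.D x → ∀ i, d x (a i) ≤ 3 ^ g → ∃ x', S'.D x' ∧ (∃ i, d' x' (a' i) ≤ 3 ^ g) ∧
      lt S d g (m + 1) (Fin.snoc (α := fun _ => X) a x) =
        lt S' d' g (m + 1) (Fin.snoc (α := fun _ => X') a' x'))
    (h2 : ∀ x', S'.D x' → ∀ i, d' x' (a' i) ≤ 3 ^ g → ∃ x, S.D x ∧ (∃ i, d x (a i) ≤ 3 ^ g) ∧
      lt S' d' g (m + 1) (Fin.snoc (α := fun _ => X') a' x') =
        lt S d g (m + 1) (Fin.snoc (α := fun _ => X) a x)) :
    lt S d (g + 1) m a = lt S' d' (g + 1) m a' := by
  refine Prod.ext h ?_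
  apply Set.ext
  intro t
  constructor
  · rintro ⟨x, hx, ⟨i, hi⟩, rfl⟩
    obtain ⟨x', hx', hi', h3⟩ := h1 x hx i hi
    exact ⟨x', hx', hi', h3.symm⟩
  · rintro ⟨x, hx, ⟨i, hi⟩, rfl⟩
    obtain ⟨x', hx', hi', h3⟩ := h2 x hx i hi
    exact ⟨x', hx', hi', h3.symm⟩

private lemma lt_down {g : ℕ} : ∀ {X X' : Type} {S : Str L X} {S' : Str L X'}
    {d : X → X → ℕ} {d' : X' → X' → ℕ} {m : ℕ} {a : Fin m → X} {a' : Fin m → X'}
    (_ : lt S d (g + 1) m a = lt S' d' (g + 1) m a'), lt S d g m a = lt S' d' g m a' := by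
  induction g with
  | zero =>
    intro X X' S S' d d' m a a' h
    exact aty_mono (Nat.zero_le 1) (lt_aty h)
  | succ g ih =>
    intro X X' S S' d d' m a a' h
    have h3 : 3 ^ g ≤ 3 ^ (g + 1) := Nat.pow_le_pow_right (by norm_num) (Nat.le_succ g)
    refine lt_succ_ext (aty_mono (Nat.le_succ _) (lt_aty h)) ?_ ?_
    · intro x hx i hi
      obtain ⟨x', hx', h1, h2⟩ := lt_ext h hx (hi.trans h3)
      exact ⟨x', hx', ⟨i, by rw [h1]; exact hi⟩, ih h2⟩
    · intro x hx i hi
      obtain ⟨x', hx', h1, h2⟩ := lt_ext h.symm hx (hi.trans h3)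
      exact ⟨x', hx', ⟨i, by rw [h1]; exact hi⟩, ih h2⟩

/-- Types of higher levels determine types of lower levels. -/
theorem lt_mono {g g' m : ℕ} (hg : g ≤ g') {a : Fin m → X} {a' : Fin m → X'}
    (h : lt S d g' m a = lt S' d' g' m a') : lt S d g m a = lt S' d' g m a' := by
  induction g', hg using Nat.le_induction with
  | base => exact h
  | succ g' _ ih => exact ih (lt_down h)

/-- The index function `snoc (castSucc ∘ u) last`. -/
private def up {m k : ℕ} (u : Fin k → Fin m) : Fin (k + 1) → Fin (m + 1) :=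
  Fin.snoc (α := fun _ => Fin (m + 1)) (fun i => (u i).castSucc) (Fin.last m)

private lemma snoc_up {m k : ℕ} (u : Fin k → Fin m) (a : Fin m → X) (x : X) :
    (fun i => (Fin.snoc (α := fun _ => X) a x : Fin (m + 1) → X) (up u i)) =
      Fin.snoc (α := fun _ => X) (fun i => a (u i)) x := by
  funext i
  refine Fin.lastCases ?_ (fun i => ?_) i
  · simp [up]
  · simp [up]

private lemma snoc_cast {m k : ℕ} (u : Fin k → Fin m) (a : Fin m → X) (x : X) :
    (fun i => (Fin.snoc (α := fun _ => X) a x : Fin (m + 1) → X) ((u i).castSucc)) =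
      (fun i => a (u i)) := by
  funext i
  simp

private lemma aty_comp {g m k : ℕ} {a : Fin m → X} {a' : Fin m → X'}
    (h : aty S d g a = aty S' d' g a') (u : Fin k → Fin m) :
    aty S d g (fun i => a (u i)) = aty S' d' g (fun i => a' (u i)) := by
  rw [aty_iff] at h ⊢
  exact ⟨fun s v => h.1 s (fun i => u (v i)), fun i j => h.2.1 _ _, fun i j => h.2.2 _ _⟩

private lemma lt_comp_aux {g : ℕ} : ∀ {X X' : Type} {S : Str L X} {S' : Str L X'}
    {d : X → X → ℕ} {d' : X' → X' → ℕ} {m k : ℕ} {a : Fin m → X} {a' : Fin m → X'}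
    (_ : lt S d g m a = lt S' d' g m a') (u : Fin k → Fin m),
    lt S d g k (fun i => a (u i)) = lt S' d' g k (fun i => a' (u i)) := by
  induction g with
  | zero =>
    intro X X' S S' d d' m k a a' h u
    exact aty_comp (lt_aty h) u
  | succ g ih =>
    intro X X' S S' d d' m k a a' h u
    refine lt_succ_ext (aty_comp (lt_aty h) u) ?_ ?_
    · intro x hx i hi
      obtain ⟨x', hx', h1, h2⟩ := lt_ext h hx hi
      refine ⟨x', hx', ⟨i, by rw [h1]; exact hi⟩, ?_⟩
      have h3 := ih h2 (up u)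
      rwa [snoc_up, snoc_up] at h3
    · intro x hx i hi
      obtain ⟨x', hx', h1, h2⟩ := lt_ext h.symm hx hi
      refine ⟨x', hx', ⟨i, by rw [h1]; exact hi⟩, ?_⟩
      have h3 := ih h2 (up u)
      rwa [snoc_up, snoc_up] at h3

/-- Types of sub-tuples. -/
theorem lt_comp {g m k : ℕ} {a : Fin m → X} {a' : Fin m → X'}
    (h : lt S d g m a = lt S' d' g m a') (u : Fin k → Fin m) :
    lt S d g k (fun i => a (u i)) = lt S' d' g k (fun i => a' (u i)) := lt_comp_aux h u

private lemma rel_union (hS : S.Local d) {g m k l : ℕ} {a : Fin m → X} {a' : Fin m → X'}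
    (u : Fin k → Fin m) (v : Fin l → Fin m)
    (huv : ∀ i, (∃ j, u j = i) ∨ ∃ j, v j = i)
    (hfar : ∀ i j, 3 ^ g < d (a (u i)) (a (v j)))
    (hu : aty S d g (fun i => a (u i)) = aty S' d' g (fun i => a' (u i)))
    (hv : aty S d g (fun i => a (v i)) = aty S' d' g (fun i => a' (v i)))
    (s : Σ n, L.Relations n) (w : Fin s.1 → Fin m) (h : S.rel s.1 s.2 (fun i => a (w i))) :
    S'.rel s.1 s.2 (fun i => a' (w i)) := by
  have h3 : 1 ≤ 3 ^ g := Nat.one_le_pow _ _ (by norm_num)
  by_cases hall : ∀ i, ∃ j, u j = w i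
  · choose f hf using hall
    have h1 := ((aty_iff.1 hu).1 s f).1
    simp only [hf] at h1
    exact h1 h
  · push Not at hall
    obtain ⟨i0, hi0⟩ := hall
    obtain ⟨j0, hj0⟩ : ∃ j, v j = w i0 := (huv (w i0)).resolve_left fun ⟨j, hj⟩ => hi0 j hj
    have hall : ∀ i, ∃ j, v j = w i := by
      intro i
      refine (huv (w i)).resolve_left ?_
      rintro ⟨j, hj⟩
      have h1 := hS s.1 s.2 _ h i i0
      have h2 := hfar j j0
      rw [hj, hj0] at h2
      omega
    choose f hf using hall
    have h1 := ((aty_iff.1 hv).1 s f).1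
    simp only [hf] at h1
    exact h1 h

private lemma aty_union (hd : PM d) (hd' : PM d') (hS : S.Local d) (hS' : S'.Local d')
    {g m k l : ℕ} {a : Fin m → X} {a' : Fin m → X'} (u : Fin k → Fin m) (v : Fin l → Fin m)
    (huv : ∀ i, (∃ j, u j = i) ∨ ∃ j, v j = i)
    (hfar : ∀ i j, 3 ^ g < d (a (u i)) (a (v j)))
    (hfar' : ∀ i j, 3 ^ g < d' (a' (u i)) (a' (v j)))
    (hu : aty S d g (fun i => a (u i)) = aty S' d' g (fun i => a' (u i)))
    (hv : aty S d g (fun i => a (v i)) = aty S' d' g (fun i => a' (v i))) :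
    aty S d g a = aty S' d' g a' := by
  rw [aty_iff]
  refine ⟨fun s w => ⟨rel_union hS u v huv hfar hu hv s w,
    rel_union hS' u v huv hfar' hu.symm hv.symm s w⟩, fun i j => ?_, fun i j => ?_⟩
  · rcases huv i with ⟨i1, rfl⟩ | ⟨i1, rfl⟩ <;> rcases huv j with ⟨j1, rfl⟩ | ⟨j1, rfl⟩
    · exact (aty_iff.1 hu).2.1 i1 j1
    · constructor
      · intro h
        have h1 := hfar i1 j1
        rw [h, hd.zero] at h1
        exact absurd h1 (Nat.not_lt_zero _)
      · intro h
        have h1 := hfar' i1 j1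
        rw [h, hd'.zero] at h1
        exact absurd h1 (Nat.not_lt_zero _)
    · constructor
      · intro h
        have h1 := hfar j1 i1
        rw [h, hd.zero] at h1
        exact absurd h1 (Nat.not_lt_zero _)
      · intro h
        have h1 := hfar' j1 i1
        rw [h, hd'.zero] at h1
        exact absurd h1 (Nat.not_lt_zero _)
    · exact (aty_iff.1 hv).2.1 i1 j1
  · rcases huv i with ⟨i1, rfl⟩ | ⟨i1, rfl⟩ <;> rcases huv j with ⟨j1, rfl⟩ | ⟨j1, rfl⟩
    · exact (aty_iff.1 hu).2.2 i1 j1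
    · have h1 := hfar i1 j1
      have h2 := hfar' i1 j1
      omega
    · have h1 := hfar j1 i1
      have h2 := hfar' j1 i1
      rw [hd.symm] at h1
      rw [hd'.symm] at h2
      omega
    · exact (aty_iff.1 hv).2.2 i1 j1

private lemma lt_union_aux {g : ℕ} : ∀ {X X' : Type} {S : Str L X} {S' : Str L X'}
    {d : X → X → ℕ} {d' : X' → X' → ℕ} (_ : PM d) (_ : PM d') (_ : S.Local d)
    (_ : S'.Local d') {m k l : ℕ} {a : Fin m → X} {a' : Fin m → X'} (u : Fin k → Fin m)
    (v : Fin l → Fin m) (_ : ∀ i, (∃ j, u j = i) ∨ ∃ j, v j = i)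
    (_ : ∀ i j, 3 ^ g < d (a (u i)) (a (v j)))
    (_ : ∀ i j, 3 ^ g < d' (a' (u i)) (a' (v j)))
    (_ : lt S d g k (fun i => a (u i)) = lt S' d' g k (fun i => a' (u i)))
    (_ : lt S d g l (fun i => a (v i)) = lt S' d' g l (fun i => a' (v i))),
    lt S d g m a = lt S' d' g m a' := by
  induction g with
  | zero =>
    intro X X' S S' d d' hd hd' hS hS' m k l a a' u v huv hfar hfar' hu hv
    exact aty_union hd hd' hS hS' u v huv hfar hfar' (lt_aty hu) (lt_aty hv)
  | succ g ih =>
    -- extension by a point near the first part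
    have key : ∀ {X X' : Type} {S : Str L X} {S' : Str L X'}
        {d : X → X → ℕ} {d' : X' → X' → ℕ} (_ : PM d) (_ : PM d') (_ : S.Local d)
        (_ : S'.Local d') {m k l : ℕ} {a : Fin m → X} {a' : Fin m → X'} (u : Fin k → Fin m)
        (v : Fin l → Fin m) (_ : ∀ i, (∃ j, u j = i) ∨ ∃ j, v j = i)
        (_ : ∀ i j, 3 ^ (g + 1) < d (a (u i)) (a (v j)))
        (_ : ∀ i j, 3 ^ (g + 1) < d' (a' (u i)) (a' (v j)))
        (_ : lt S d (g + 1) k (fun i => a (u i)) = lt S' d' (g + 1) k (fun i => a' (u i)))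
        (_ : lt S d (g + 1) l (fun i => a (v i)) = lt S' d' (g + 1) l (fun i => a' (v i)))
        (x : X) (_ : S.D x) (j : Fin k) (_ : d x (a (u j)) ≤ 3 ^ g),
        ∃ x', S'.D x' ∧ (∃ i, d' x' (a' i) ≤ 3 ^ g) ∧
          lt S d g (m + 1) (Fin.snoc (α := fun _ => X) a x) =
          lt S' d' g (m + 1) (Fin.snoc (α := fun _ => X') a' x') := by
      intro X X' S S' d d' hd hd' hS hS' m k l a a' u v huv hfar hfar' hu hv x hx j hj
      obtain ⟨x', hx', h1, h2⟩ := lt_ext hu hx (i := j) hj
      have h1' : d' x' (a' (u j)) ≤ 3 ^ g := by rw [h1]; exact hj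
      refine ⟨x', hx', ⟨u j, h1'⟩, ?_⟩
      have h3 : 3 ^ (g + 1) = 3 * 3 ^ g := by ring
      refine ih hd hd' hS hS' (up u) (fun i => (v i).castSucc) ?_ ?_ ?_ ?_ ?_
      · intro i
        refine Fin.lastCases ?_ (fun i => ?_) i
        · exact Or.inl ⟨Fin.last k, by simp [up]⟩
        · rcases huv i with ⟨i1, rfl⟩ | ⟨i1, rfl⟩
          · exact Or.inl ⟨i1.castSucc, by simp [up]⟩
          · exact Or.inr ⟨i1, rfl⟩
      · intro i j1
        refine Fin.lastCases ?_ (fun i => ?_) i
        · have h4 := hfar j j1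
          have h5 := hd.tri (a (u j)) x (a (v j1))
          rw [hd.symm (a (u j)) x] at h5
          simp only [up, Fin.snoc_last, Fin.snoc_castSucc]
          omega
        · have h4 := hfar i j1
          simp only [up, Fin.snoc_castSucc]
          omega
      · intro i j1
        refine Fin.lastCases ?_ (fun i => ?_) i
        · have h4 := hfar' j j1
          have h5 := hd'.tri (a' (u j)) x' (a' (v j1))
          rw [hd'.symm (a' (u j)) x'] at h5
          simp only [up, Fin.snoc_last, Fin.snoc_castSucc]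
          omega
        · have h4 := hfar' i j1
          simp only [up, Fin.snoc_castSucc]
          omega
      · rw [snoc_up, snoc_up]
        exact h2
      · rw [snoc_cast, snoc_cast]
        exact lt_mono (Nat.le_succ g) hv
    intro X X' S S' d d' hd hd' hS hS' m k l a a' u v huv hfar hfar' hu hv
    refine lt_succ_ext (aty_union hd hd' hS hS' u v huv hfar hfar' (lt_aty hu) (lt_aty hv)) ?_ ?_
    · intro x hx i hi
      rcases huv i with ⟨j, rfl⟩ | ⟨j, rfl⟩
      · exact key hd hd' hS hS' u v huv hfar hfar' hu hv x hx j hi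
      · exact key hd hd' hS hS' v u (fun i => (huv i).symm)
          (fun i j => by rw [hd.symm]; exact hfar j i)
          (fun i j => by rw [hd'.symm]; exact hfar' j i) hv hu x hx j hi
    · intro x hx i hi
      rcases huv i with ⟨j, rfl⟩ | ⟨j, rfl⟩
      · exact key hd' hd hS' hS u v huv hfar' hfar hu.symm hv.symm x hx j hi
      · exact key hd' hd hS' hS v u (fun i => (huv i).symm)
          (fun i j => by rw [hd'.symm]; exact hfar' j i)
          (fun i j => by rw [hd.symm]; exact hfar j i) hv.symm hu.symm x hx j hi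

/-- The type of the union of two tuples far from each other is determined by their types.
Induction on `g`. Atomic types: a relation that holds for a tuple of entries has all distances `≤ 1`, so
the entries all come from `u` or all come from `v` (`1 ≤ 3 ^ g`). Extension by a point `x` near `a (u j)`: use the
hypothesis for `u` (`lt_ext`) to find `x'`, and the induction hypothesis for the index functions
`snoc (castSucc ∘ u) last` and `castSucc ∘ v`; the mixed distances are `> 3 ^ (g + 1) - 3 ^ g ≥ 3 ^ g`; the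
types of lower level of the `v` part by `lt_mono`. -/
theorem lt_union (hd : PM d) (hd' : PM d') (hS : S.Local d) (hS' : S'.Local d') {g m k l : ℕ}
    {a : Fin m → X} {a' : Fin m → X'} (u : Fin k → Fin m) (v : Fin l → Fin m)
    (huv : ∀ i, (∃ j, u j = i) ∨ ∃ j, v j = i)
    (hfar : ∀ i j, 3 ^ g < d (a (u i)) (a (v j)))
    (hfar' : ∀ i j, 3 ^ g < d' (a' (u i)) (a' (v j)))
    (hu : lt S d g k (fun i => a (u i)) = lt S' d' g k (fun i => a' (u i)))
    (hv : lt S d g l (fun i => a (v i)) = lt S' d' g l (fun i => a' (v i))) :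
    lt S d g m a = lt S' d' g m a' :=
  lt_union_aux hd hd' hS hS' u v huv hfar hfar' hu hv

private lemma append_snoc' {m e : ℕ} (a : Fin m → X) (y : Fin e → X) (x : X) :
    (Fin.append a (Fin.snoc (α := fun _ => X) y x) : Fin (m + (e + 1)) → X) =
      (Fin.snoc (α := fun _ => X) (Fin.append a y) x : Fin (m + e + 1) → X) := by
  funext i
  refine Fin.lastCases (n := m + e) ?_ (fun i => ?_) i
  · rw [Fin.snoc_last]
    have h1 : (Fin.last (m + e) : Fin (m + (e + 1))) = Fin.natAdd m (Fin.last e) := rfl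
    change Fin.append a (Fin.snoc (α := fun _ => X) y x) (Fin.natAdd m (Fin.last e)) = x
    rw [Fin.append_right, Fin.snoc_last]
  · rw [Fin.snoc_castSucc]
    refine Fin.addCases (fun i => ?_) (fun i => ?_) i
    · change Fin.append a (Fin.snoc (α := fun _ => X) y x) (Fin.castAdd (e + 1) i) = _
      rw [Fin.append_left, Fin.append_left]
    · change Fin.append a (Fin.snoc (α := fun _ => X) y x) (Fin.natAdd m i.castSucc) = _
      rw [Fin.append_right, Fin.append_right, Fin.snoc_castSucc]

private lemma append_nil' {m : ℕ} (a : Fin m → X) (y : Fin 0 → X) :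
    (Fin.append a y : Fin (m + 0) → X) = (a : Fin m → X) := by
  funext i
  change Fin.append a y (Fin.castAdd 0 i) = a i
  rw [Fin.append_left]

/-- `e` points within distance `3 ^ g` can be matched, starting from the level `g + e`
(induction on `e`, `lt_ext`). -/
theorem lt_moves {g m : ℕ} (e : ℕ) {a : Fin m → X} {a' : Fin m → X'}
    (h : lt S d (g + e) m a = lt S' d' (g + e) m a') (y : Fin e → X)
    (hy : ∀ j, S.D (y j) ∧ ∃ i, d (y j) (a i) ≤ 3 ^ g) :
    ∃ y' : Fin e → X', (∀ j, S'.D (y' j)) ∧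
      lt S d g (m + e) (Fin.append a y) = lt S' d' g (m + e) (Fin.append a' y') := by
  induction e generalizing g with
  | zero =>
    refine ⟨Fin.elim0, fun j => j.elim0, ?_⟩
    have h1 := append_nil' a y
    have h2 := append_nil' a' (Fin.elim0 : Fin 0 → X')
    exact (congrArg (lt S d g (m + 0)) h1).trans (h.trans (congrArg (lt S' d' g (m + 0)) h2).symm)
  | succ e ih =>
    have h0 : g + (e + 1) = g + 1 + e := by omega
    rw [h0] at h
    have h3 : 3 ^ g ≤ 3 ^ (g + 1) := Nat.pow_le_pow_right (by norm_num) (Nat.le_succ g)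
    obtain ⟨y0, hy0, h1⟩ := ih (g := g + 1) h (fun j => y j.castSucc) (fun j => by
      obtain ⟨h4, i, h5⟩ := hy j.castSucc
      exact ⟨h4, i, h5.trans h3⟩)
    obtain ⟨h4, i, h5⟩ := hy (Fin.last e)
    obtain ⟨x', hx', -, h6⟩ := lt_ext h1 (x := y (Fin.last e)) h4 (i := Fin.castAdd e i) (by
      rw [Fin.append_left]
      exact h5)
    refine ⟨Fin.snoc (α := fun _ => X') y0 x', fun j => ?_, ?_⟩
    · refine Fin.lastCases ?_ (fun j => ?_) j
      · rw [Fin.snoc_last]
        exact hx'
      · rw [Fin.snoc_castSucc]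
        exact hy0 j
    · have h7 : y = Fin.snoc (α := fun _ => X) (fun j => y j.castSucc) (y (Fin.last e)) := by
        funext j
        refine Fin.lastCases ?_ (fun j => ?_) j
        · rw [Fin.snoc_last]
        · rw [Fin.snoc_castSucc]
      have h8 := append_snoc' a (fun j => y j.castSucc) (y (Fin.last e))
      have h9 := append_snoc' a' y0 x'
      rw [← h7] at h8
      exact (congrArg (lt S d g (m + e + 1)) h8).trans
        (h6.trans (congrArg (lt S' d' g (m + e + 1)) h9).symm)

end Pool.Agent.Helper72.TX
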