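import Mathlib
import Pool.Agent.Helper72.TX.Loc1

set_option autoImplicit false

/-!
# TW-2: scattered points of the local types determine the sentences

Fix `q` and suppose `Scat` agrees for `g ≤ q * (q + 1)`, all `τ` and `n ≤ q + 1`.

Step (`ef_step`): `m ≤ q`, `g + m + 1 ≤ N`, `lt S d N m a = lt S' d' N m a'`. Then for each
`x ∈ S.D` there is `x' ∈ S'.D` with `lt S d g (m+1) (snoc a x) = lt S' d' g (m+1) (snoc a' x')`.
* Near case: `d x (a i) ≤ 3 ^ (g + 1)` for some `i`; then `m ≥ 1`, `g + 2 ≤ N`, `lt_mono` to level `g + 2`, `lt_ext`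
  (level `g + 1`), `lt_mono`.
* Far case: `d x (a i) > 3 ^ (g + 1)` for all `i`. Let `τ = lt S d g 1 (fun _ => x)`. If some `x' ∈ S'.D` of type `τ` has
  `d' x' (a' i) > 3 ^ g` for all `i`, then `lt_union` gives the claim. Otherwise all points of type `τ` in `S'` are within
  `3 ^ g` of an entry of `a'`, so `Scat S' d' g τ t` implies `t ≤ m` (pigeonhole); on the other hand
  `Scat S' d' g τ t` with `t ≤ m` implies `Scat S' d' g τ (t + 1)` (`scat_succ`, using `lt_moves`), a contradiction.
-/

namespace Pool.Agent.Helper72.TX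

open FirstOrder FirstOrder.Language

section Step

variable {L : FirstOrder.Language.{0, 0}} {X X' : Type} {S : Str L X} {S' : Str L X'}
  {d : X → X → ℕ} {d' : X' → X' → ℕ}

/-- Points near the tuple, moved to the other structure, and one far point. -/
theorem scat_succ (hd : PM d) {g m t N : ℕ} {a : Fin m → X} {a' : Fin m → X'}
    (h : lt S d N m a = lt S' d' N m a') (hN : g + m + 1 ≤ N) (htm : t ≤ m) {x : X}
    (hx : S.D x) (hfar : ∀ i, 3 ^ (g + 1) < d x (a i))
    (hnear : ∀ x', S'.D x' → lt S' d' g 1 (fun _ => x') = lt S d g 1 (fun _ => x) →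
      ∃ i, d' x' (a' i) ≤ 3 ^ g)
    (hs : Scat S' d' g (lt S d g 1 (fun _ => x)) t) :
    Scat S d g (lt S d g 1 (fun _ => x)) (t + 1) := by
  obtain ⟨y', hy', hyd'⟩ := hs
  have hpow : 3 ^ (g + 1) = 3 * 3 ^ g := by rw [pow_succ]; ring
  have h1 : lt S' d' (g + 1 + t) m a' = lt S d (g + 1 + t) m a :=
    (lt_mono (by omega) h).symm
  have hn : ∀ j, ∃ i, d' (y' j) (a' i) ≤ 3 ^ g := fun j => hnear _ (hy' j).1 (hy' j).2
  obtain ⟨y, hyD, hyl⟩ := lt_moves t h1 y' (fun j => ⟨(hy' j).1, by
    obtain ⟨i, hi⟩ := hn j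
    exact ⟨i, by omega⟩⟩)
  have hat := lt_aty hyl
  have hty : ∀ j, lt S d g 1 (fun _ => y j) = lt S d g 1 (fun _ => x) := by
    intro j
    have h2 := lt_comp hyl (fun _ : Fin 1 => Fin.natAdd m j)
    simp only [Fin.append_right] at h2
    exact (lt_mono (Nat.le_succ g) h2).symm.trans (hy' j).2
  have hdist : ∀ i j, i ≠ j → 2 * 3 ^ g < d (y i) (y j) := by
    intro i j hij
    have h3 := aty_dist' hat (i := Fin.natAdd m i) (j := Fin.natAdd m j)
      (c := 2 * 3 ^ g) (by omega) (by simpa only [Fin.append_right] using hyd' i j hij)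
    simpa only [Fin.append_right] using h3
  have hxy : ∀ j, 2 * 3 ^ g < d x (y j) := by
    intro j
    obtain ⟨i, hi⟩ := hn j
    have h4 := aty_dist hat (i := Fin.natAdd m j) (j := Fin.castAdd t i)
      (by simp only [Fin.append_right, Fin.append_left]; omega)
    simp only [Fin.append_right, Fin.append_left] at h4
    have h5 := hd.tri x (y j) (a i)
    have h6 := hfar i
    omega
  refine ⟨Fin.cons x y, ?_, ?_⟩
  · intro i
    refine Fin.cases ?_ (fun j => ?_) i
    · simpa only [Fin.cons_zero] using ⟨hx, trivial⟩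
    · simpa only [Fin.cons_succ] using ⟨hyD j, hty j⟩
  · intro i
    refine Fin.cases ?_ (fun i => ?_) i
    · intro j
      refine Fin.cases ?_ (fun j => ?_) j
      · intro hij; exact absurd rfl hij
      · intro _
        simpa only [Fin.cons_zero, Fin.cons_succ] using hxy j
    · intro j
      refine Fin.cases ?_ (fun j => ?_) j
      · intro _
        simp only [Fin.cons_zero, Fin.cons_succ]
        rw [hd.symm]
        exact hxy i
      · intro hij
        simp only [Fin.cons_succ]
        exact hdist i j (fun h => hij (by rw [h]))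

/-- The pigeonhole bound. -/
theorem scat_le (hd' : PM d') {g m t : ℕ} {a' : Fin m → X'} {τ : LT L g 1}
    (hnear : ∀ x', S'.D x' → lt S' d' g 1 (fun _ => x') = τ → ∃ i, d' x' (a' i) ≤ 3 ^ g)
    (hs : Scat S' d' g τ t) : t ≤ m := by
  obtain ⟨y', hy', hyd'⟩ := hs
  have hn : ∀ j, ∃ i, d' (y' j) (a' i) ≤ 3 ^ g := fun j => hnear _ (hy' j).1 (hy' j).2
  choose f hf using hn
  have hinj : Function.Injective f := by
    intro i j hij
    by_contra hne
    have h1 := hyd' i j hne
    have h2 := hd'.tri (y' i) (a' (f i)) (y' j)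
    have h3 := hf i
    have h4 := hf j
    rw [← hij, hd'.symm] at h4
    omega
  simpa using Fintype.card_le_of_injective f hinj

/-- One step of the back and forth argument. -/
theorem ef_step (hd : PM d) (hd' : PM d') (hS : S.Local d) (hS' : S'.Local d') {q : ℕ}
    {g m N : ℕ}
    (hsc : ∀ (τ : LT L g 1) (n : ℕ), n ≤ q + 1 → (Scat S d g τ n ↔ Scat S' d' g τ n))
    {a : Fin m → X} {a' : Fin m → X'} (hm : m ≤ q) (hN : g + m + 1 ≤ N)
    (h : lt S d N m a = lt S' d' N m a') {x : X} (hx : S.D x) :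
    ∃ x', S'.D x' ∧ lt S d g (m + 1) (Fin.snoc (α := fun _ => X) a x) =
      lt S' d' g (m + 1) (Fin.snoc (α := fun _ => X') a' x') := by
  by_cases hc : ∃ i, d x (a i) ≤ 3 ^ (g + 1)
  · obtain ⟨i, hi⟩ := hc
    have hm1 : 1 ≤ m := by have := i.isLt; omega
    have h1 : lt S d (g + 1 + 1) m a = lt S' d' (g + 1 + 1) m a' := lt_mono (by omega) h
    obtain ⟨x', hx', -, h2⟩ := lt_ext h1 hx hi
    exact ⟨x', hx', lt_mono (Nat.le_succ g) h2⟩
  · push Not at hc
    have hpow : 3 ^ (g + 1) = 3 * 3 ^ g := by rw [pow_succ]; ring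
    by_cases hx1 : ∃ x', S'.D x' ∧ lt S' d' g 1 (fun _ => x') = lt S d g 1 (fun _ => x) ∧
        ∀ i, 3 ^ g < d' x' (a' i)
    · obtain ⟨x', hx', hty, hfar'⟩ := hx1
      refine ⟨x', hx', ?_⟩
      refine lt_union hd hd' hS hS' (Fin.castSucc : Fin m → Fin (m + 1))
        (fun _ : Fin 1 => Fin.last m) ?_ ?_ ?_ ?_ ?_
      · intro i
        refine Fin.lastCases ?_ (fun j => ?_) i
        · exact Or.inr ⟨0, rfl⟩
        · exact Or.inl ⟨j, rfl⟩
      · intro i _
        simp only [Fin.snoc_castSucc, Fin.snoc_last]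
        rw [hd.symm]
        have := hc i
        have h3 : 0 < 3 ^ g := by positivity
        omega
      · intro i _
        simp only [Fin.snoc_castSucc, Fin.snoc_last]
        rw [hd'.symm]
        exact hfar' i
      · simp only [Fin.snoc_castSucc]
        exact lt_mono (by omega) h
      · simp only [Fin.snoc_last]
        exact hty.symm
    · exfalso
      have hnear : ∀ x', S'.D x' → lt S' d' g 1 (fun _ => x') = lt S d g 1 (fun _ => x) →
          ∃ i, d' x' (a' i) ≤ 3 ^ g := by
        intro x' hx' hty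
        by_contra hcon
        push Not at hcon
        exact hx1 ⟨x', hx', hty, hcon⟩
      have key : ∀ t, t ≤ m + 1 → Scat S' d' g (lt S d g 1 (fun _ => x)) t := by
        intro t
        induction t with
        | zero => intro _; exact ⟨Fin.elim0, fun i => i.elim0, fun i => i.elim0⟩
        | succ t ih =>
          intro ht
          have h1 := scat_succ hd h hN (by omega) hx hc hnear (ih (by omega))
          exact (hsc _ _ (by omega)).1 h1
      have := scat_le hd' hnear (key (m + 1) le_rfl)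
      omega

end Step

/-- The depth of nested quantifiers. -/
def qd {L : FirstOrder.Language.{0, 0}} : ∀ {n : ℕ}, L.BoundedFormula Empty n → ℕ
  | _, .falsum => 0
  | _, .equal _ _ => 0
  | _, .rel _ _ => 0
  | _, .imp f g => max (qd f) (qd g)
  | _, .all f => qd f + 1

theorem gl_term {L : FirstOrder.Language.{0, 0}} (hL : ∀ n, IsEmpty (L.Functions n)) {n : ℕ}
    (t : L.Term (Empty ⊕ Fin n)) : ∃ i : Fin n, t = Term.var (Sum.inr i) := by
  cases t with
  | var x =>
    rcases x with x | i
    · exact x.elim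
    · exact ⟨i, rfl⟩
  | func f ts => exact ((hL _).false f).elim

theorem gl_formula {L : FirstOrder.Language.{0, 0}} (hL : ∀ n, IsEmpty (L.Functions n))
    {X X' : Type} {S : Str L X} {S' : Str L X'} {d : X → X → ℕ} {d' : X' → X' → ℕ}
    (hd : PM d) (hd' : PM d') (hS : S.Local d) (hS' : S'.Local d') {q : ℕ}
    (hsc : ∀ g, g ≤ q * (q + 1) → ∀ (τ : LT L g 1) (n : ℕ), n ≤ q + 1 →
        (Scat S d g τ n ↔ Scat S' d' g τ n))
    {n : ℕ} (θ : L.BoundedFormula Empty n) :
    n + qd θ ≤ q → ∀ (a : Fin n → {x : X // S.D x}) (a' : Fin n → {x : X' // S'.D x}),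
      lt S d (qd θ * (q + 1)) n (fun i => (a i).1) =
        lt S' d' (qd θ * (q + 1)) n (fun i => (a' i).1) →
      (@BoundedFormula.Realize L {x : X // S.D x} (S.toStructure hL) Empty n θ default a ↔
        @BoundedFormula.Realize L {x : X' // S'.D x} (S'.toStructure hL) Empty n θ default a') := by
  induction θ with
  | falsum => intro _ a a' _; exact Iff.rfl
  | @equal n t₁ t₂ =>
    intro _ a a' h
    obtain ⟨i, rfl⟩ := gl_term hL t₁
    obtain ⟨j, rfl⟩ := gl_term hL t₂
    have h1 := congrArg (fun z => z.2.1 i j) (lt_aty h)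
    change (((a i).1 = (a j).1) = ((a' i).1 = (a' j).1)) at h1
    change (a i = a j ↔ a' i = a' j)
    rw [Subtype.ext_iff, Subtype.ext_iff, h1]
  | @rel n k R ts =>
    intro _ a a' h
    choose f hf using fun s => gl_term hL (ts s)
    obtain rfl : ts = fun s => Term.var (Sum.inr (f s)) := funext hf
    have h1 := congrArg (fun z => z.1 ⟨k, R⟩ f) (lt_aty h)
    change (S.rel k R (fun i => (a (f i)).1) = S'.rel k R (fun i => (a' (f i)).1)) at h1
    change (S.rel k R (fun i => (a (f i)).1) ↔ S'.rel k R (fun i => (a' (f i)).1))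
    rw [h1]
  | @imp n f g ihf ihg =>
    intro hq a a' h
    have hq' : n + max (qd f) (qd g) ≤ q := hq
    have h' : lt S d (max (qd f) (qd g) * (q + 1)) n (fun i => (a i).1) =
        lt S' d' (max (qd f) (qd g) * (q + 1)) n (fun i => (a' i).1) := h
    have h1 := ihf (by omega) a a' (lt_mono (Nat.mul_le_mul_right _ (le_max_left _ _)) h')
    have h2 := ihg (by omega) a a' (lt_mono (Nat.mul_le_mul_right _ (le_max_right _ _)) h')
    exact imp_congr h1 h2
  | @all n f ih =>
    intro hq a a' h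
    have hq' : n + (qd f + 1) ≤ q := hq
    have h' : lt S d ((qd f + 1) * (q + 1)) n (fun i => (a i).1) =
        lt S' d' ((qd f + 1) * (q + 1)) n (fun i => (a' i).1) := h
    have hN : qd f * (q + 1) + n + 1 ≤ (qd f + 1) * (q + 1) := by
      rw [Nat.add_mul]; omega
    have hg : qd f * (q + 1) ≤ q * (q + 1) := Nat.mul_le_mul_right _ (by omega)
    constructor
    · intro hr x'
      obtain ⟨x, hx, hl⟩ := ef_step hd' hd hS' hS (q := q)
        (fun τ k hk => (hsc _ hg τ k hk).symm) (by omega) hN h'.symm x'.2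
      refine (ih (by omega) (Fin.snoc a ⟨x, hx⟩) (Fin.snoc a' x') ?_).1 (hr ⟨x, hx⟩)
      have e1 : (fun i => (Fin.snoc (α := fun _ => {x : X // S.D x}) a ⟨x, hx⟩ i).1) =
          Fin.snoc (α := fun _ => X) (fun i => (a i).1) x := by
        funext i
        refine Fin.lastCases ?_ (fun j => ?_) i <;> simp
      have e2 : (fun i => (Fin.snoc (α := fun _ => {x : X' // S'.D x}) a' x' i).1) =
          Fin.snoc (α := fun _ => X') (fun i => (a' i).1) x'.1 := by
        funext i
        refine Fin.lastCases ?_ (fun j => ?_) i <;> simp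
      rw [e1, e2]
      exact hl.symm
    · intro hr x
      obtain ⟨x', hx', hl⟩ := ef_step hd hd' hS hS' (q := q)
        (fun τ k hk => hsc _ hg τ k hk) (by omega) hN h' x.2
      refine (ih (by omega) (Fin.snoc a x) (Fin.snoc a' ⟨x', hx'⟩) ?_).2 (hr ⟨x', hx'⟩)
      have e1 : (fun i => (Fin.snoc (α := fun _ => {x : X // S.D x}) a x i).1) =
          Fin.snoc (α := fun _ => X) (fun i => (a i).1) x.1 := by
        funext i
        refine Fin.lastCases ?_ (fun j => ?_) i <;> simp
      have e2 : (fun i => (Fin.snoc (α := fun _ => {x : X' // S'.D x}) a' ⟨x', hx'⟩ i).1) =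
          Fin.snoc (α := fun _ => X') (fun i => (a' i).1) x' := by
        funext i
        refine Fin.lastCases ?_ (fun j => ?_) i <;> simp
      rw [e1, e2]
      exact hl

theorem local_global {L : FirstOrder.Language.{0, 0}} (hL : ∀ n, IsEmpty (L.Functions n))
    (φ : L.Sentence) : ∃ q : ℕ, ∀ (X X' : Type) (d : X → X → ℕ) (d' : X' → X' → ℕ)
      (S : Str L X) (S' : Str L X'), PM d → PM d' → S.Local d → S'.Local d' → (∃ x, S.D x) →
      (∀ g, g ≤ q * (q + 1) → ∀ (τ : LT L g 1) (n : ℕ), n ≤ q + 1 →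
        (Scat S d g τ n ↔ Scat S' d' g τ n)) →
      (S.Models hL φ ↔ S'.Models hL φ) := by
  refine ⟨qd (L := L) (n := 0) φ, ?_⟩
  intro X X' d d' S S' hd hd' hS hS' hne hsc
  obtain ⟨x, hx⟩ := hne
  set q : ℕ := qd (L := L) (n := 0) φ with hqdef
  have h1 : Scat S d (q * (q + 1)) (lt S d (q * (q + 1)) 1 (fun _ => x)) 1 :=
    ⟨fun _ => x, fun _ => ⟨hx, rfl⟩, fun i j hij => absurd (Subsingleton.elim i j) hij⟩
  obtain ⟨y', hy', -⟩ := (hsc _ le_rfl _ 1 (by omega)).1 h1
  have h2 : lt S d (q * (q + 1)) 1 (fun _ => x) = lt S' d' (q * (q + 1)) 1 (fun _ => y' 0) :=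
    (hy' 0).2.symm
  have h3 := lt_comp h2 (Fin.elim0 : Fin 0 → Fin 1)
  refine gl_formula hL hd hd' hS hS' hsc (n := 0) φ (by omega) default default ?_
  have e1 : (fun i => ((default : Fin 0 → {x : X // S.D x}) i).1) =
      fun i => (fun _ : Fin 1 => x) ((Fin.elim0 : Fin 0 → Fin 1) i) := funext fun i => i.elim0
  have e2 : (fun i => ((default : Fin 0 → {x : X' // S'.D x}) i).1) =
      fun i => (fun _ : Fin 1 => y' 0) ((Fin.elim0 : Fin 0 → Fin 1) i) := funext fun i => i.elim0
  rw [e1, e2]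
  exact h3

end Pool.Agent.Helper72.TX
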