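import Mathlib
import Pool.Agent.Helper72.TX.Td

set_option autoImplicit false

/-!
# TW-6: configurations, windows, sizes
-/

namespace Pool.Agent.Helper72.TX

open FirstOrder FirstOrder.Language

variable {L : FirstOrder.Language.{0, 0}} {b : ℕ}

theorem Cfg.str_local (C : Cfg L b) : C.str.Local dX := by
  intro n R v h i j
  exact h.2 i j

theorem WinEq.refl (H : ℕ) (C : Cfg L b) : WinEq H C C :=
  ⟨fun _ _ => rfl, fun _ _ _ _ _ _ => Iff.rfl⟩

theorem WinEq.symm {H : ℕ} {C C' : Cfg L b} (h : WinEq H C C') : WinEq H C' C := by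
  refine ⟨fun α hα => (h.1 α hα).symm, fun n R v h1 h2 h3 => ?_⟩
  refine (h.2 n R v h1 (fun i => ?_) h3).symm
  rw [h.1 _ (h1 i)]
  exact h2 i

theorem WinEq.trans {H : ℕ} {C C' C'' : Cfg L b} (h : WinEq H C C') (h' : WinEq H C' C'') :
    WinEq H C C'' := by
  refine ⟨fun α hα => (h.1 α hα).trans (h'.1 α hα), fun n R v h1 h2 h3 => ?_⟩
  refine (h.2 n R v h1 h2 h3).trans (h'.2 n R v h1 (fun i => ?_) h3)
  rw [← h.1 _ (h1 i)]
  exact h2 i

theorem WinEq.mono {H H' : ℕ} (hH : H ≤ H') {C C' : Cfg L b} (h : WinEq H' C C') :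
    WinEq H C C' :=
  ⟨fun α hα => h.1 α (hα.trans hH), fun n R v h1 h2 h3 =>
    h.2 n R v (fun i => (h1 i).trans hH) h2 h3⟩

theorem WinEq.sub {H : ℕ} {C C' : Cfg L b} (h : WinEq (H + 1) C C') (i : Fin b) :
    WinEq H (C.sub i) (C'.sub i) := by
  refine ⟨fun α hα => h.1 (i :: α) (by simpa using hα), fun n R v h1 h2 h3 => ?_⟩
  refine h.2 n R (fun j => (i :: (v j).1, (v j).2)) (fun j => ?_) (fun j => h2 j) (fun j k => ?_)
  · simpa using h1 j
  · simpa using h3 j k

theorem Cfg.Valid.sub {C : Cfg L b} {W : ℕ} (h : C.Valid W) (i : Fin b) : (C.sub i).Valid W := by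
  refine ⟨fun α => h.1 (i :: α), fun α j hj => h.2.1 (i :: α) j hj, ?_⟩
  exact h.2.2.preimage (f := fun α => i :: α) (fun α _ β _ hab => by simpa using hab)

theorem Cfg.Valid.mono {C : Cfg L b} {W W' : ℕ} (h : C.Valid W) (hW : W ≤ W') : C.Valid W' :=
  ⟨fun α => (h.1 α).trans hW, h.2⟩

/-- The points of a valid configuration: finitely many. -/
theorem Cfg.Valid.finite {C : Cfg L b} {W : ℕ} (h : C.Valid W) :
    Finite {x : Adr b × ℕ // x.2 < C.p x.1} := by
  have hf : ({α | C.p α ≠ 0} ×ˢ Set.Iio W : Set (Adr b × ℕ)).Finite :=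
    h.2.2.prod (Set.finite_Iio W)
  refine Set.Finite.to_subtype (s := {x : Adr b × ℕ | x.2 < C.p x.1}) (hf.subset ?_)
  rintro ⟨α, u⟩ hx
  simp only [Set.mem_setOf_eq] at hx
  refine ⟨?_, ?_⟩
  · simp only [Set.mem_setOf_eq]
    omega
  · simp only [Set.mem_Iio]
    exact lt_of_lt_of_le hx (h.1 α)

/-- The points of the root node and the points of the subtrees. -/
private def sizeEquiv (C : Cfg L b) :
    {x : Adr b × ℕ // x.2 < C.p x.1} ≃
      Fin (C.p []) ⊕ Σ i, {x : Adr b × ℕ // x.2 < (C.sub i).p x.1} where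
  toFun x := match x with
    | ⟨([], u), h⟩ => Sum.inl ⟨u, h⟩
    | ⟨(i :: α, u), h⟩ => Sum.inr ⟨i, ⟨(α, u), h⟩⟩
  invFun y := match y with
    | Sum.inl u => ⟨([], u.1), u.2⟩
    | Sum.inr ⟨i, ⟨(α, u), h⟩⟩ => ⟨(i :: α, u), h⟩
  left_inv x := by
    rcases x with ⟨⟨α, u⟩, h⟩
    cases α <;> rfl
  right_inv y := by
    rcases y with u | ⟨i, ⟨⟨α, u⟩, h⟩⟩ <;> rfl

/-- The points are the points of the root node and the points of the subtrees
(`Nat.card_congr`, `Nat.card_sum`, `Nat.card_sigma`). -/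
theorem size_eq {C : Cfg L b} {W : ℕ} (h : C.Valid W) :
    C.size = C.p [] + ∑ i, (C.sub i).size := by
  have hfin : ∀ i, Finite {x : Adr b × ℕ // x.2 < (C.sub i).p x.1} := fun i => (h.sub i).finite
  unfold Cfg.size
  rw [Nat.card_congr (sizeEquiv C), Nat.card_sum, Nat.card_sigma]
  simp

/-- If the root node is empty, everything is empty. -/
theorem Cfg.Valid.p_eq_zero {C : Cfg L b} {W : ℕ} (h : C.Valid W) (h0 : C.p [] = 0) (α : Adr b) :
    C.p α = 0 := by
  induction α using List.reverseRecOn with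
  | nil => exact h0
  | append_singleton α i ih =>
    by_contra hc
    exact h.2.1 α i hc ih

theorem size_eq_zero {C : Cfg L b} {W : ℕ} (h : C.Valid W) : C.size = 0 ↔ ∀ α, C.p α = 0 := by
  have hfin := h.finite
  unfold Cfg.size
  rw [Nat.card_eq_zero]
  constructor
  · rintro (h1 | h1) α
    · by_contra hc
      exact h1.false ⟨(α, 0), Nat.pos_of_ne_zero hc⟩
    · exact absurd hfin (not_finite_iff_infinite.2 h1)
  · intro h1
    left
    refine ⟨fun x => ?_⟩
    have h2 := x.2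
    rw [h1] at h2
    exact absurd h2 (Nat.not_lt_zero _)

/-- The configuration with root window `K` and subtrees `C' i`: for a tuple all of whose entries are in
the same subtree `i` (and which has at least one entry) use the relation of `C' i`, otherwise that of `K`. -/
theorem exists_join (H W : ℕ) (K : Cfg L b) (C' : Fin b → Cfg L b) (h1 : 1 ≤ K.p [])
    (h2 : K.p [] ≤ W) (hC : ∀ i, (C' i).Valid W) (hK : ∀ i, WinEq H (K.sub i) (C' i)) :
    ∃ C : Cfg L b, C.Valid W ∧ WinEq (H + 1) K C ∧ ∀ i H', WinEq H' (C.sub i) (C' i) := by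
  classical
  let In : ∀ n : ℕ, (Fin n → Adr b × ℕ) → Fin b → (Fin n → Adr b × ℕ) → Prop :=
    fun n v i w => 0 < n ∧ ∀ j, v j = (i :: (w j).1, (w j).2)
  have hIn : ∀ (n : ℕ) (v : Fin n → Adr b × ℕ) (i i' : Fin b) (w w' : Fin n → Adr b × ℕ),
      In n v i w → In n v i' w' → i = i' ∧ w = w' := by
    rintro n v i i' w w' ⟨hn, hw⟩ ⟨_, hw'⟩
    have hj : ∀ j, i = i' ∧ w j = w' j := by
      intro j
      have h3 : (i :: (w j).1, (w j).2) = (i' :: (w' j).1, (w' j).2) := (hw j).symm.trans (hw' j)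
      simp only [Prod.mk.injEq, List.cons.injEq] at h3
      exact ⟨h3.1.1, Prod.ext h3.1.2 h3.2⟩
    exact ⟨(hj ⟨0, hn⟩).1, funext fun j => (hj j).2⟩
  let C : Cfg L b :=
    { p := fun α => match α with
        | [] => K.p []
        | i :: α => (C' i).p α
      rel := fun n R v => (∃ i w, In n v i w ∧ (C' i).rel n R w) ∨
        ((¬ ∃ i w, In n v i w) ∧ K.rel n R v) }
  have hC0 : C.p [] = K.p [] := rfl
  have hCi : ∀ i α, C.p (i :: α) = (C' i).p α := fun _ _ => rfl
  have hrel1 : ∀ (n : ℕ) (R : L.Relations n) (v : Fin n → Adr b × ℕ) (i : Fin b)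
      (w : Fin n → Adr b × ℕ), In n v i w → (C.rel n R v ↔ (C' i).rel n R w) := by
    intro n R v i w hw
    constructor
    · rintro (⟨i', w', hw', h⟩ | ⟨h, _⟩)
      · obtain ⟨rfl, rfl⟩ := hIn n v i i' w w' hw hw'
        exact h
      · exact absurd ⟨i, w, hw⟩ h
    · intro h
      exact Or.inl ⟨i, w, hw, h⟩
  have hrel2 : ∀ (n : ℕ) (R : L.Relations n) (v : Fin n → Adr b × ℕ), (¬ ∃ i w, In n v i w) →
      (C.rel n R v ↔ K.rel n R v) := by
    intro n R v hw
    constructor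
    · rintro (⟨i', w', hw', h⟩ | ⟨_, h⟩)
      · exact absurd ⟨i', w', hw'⟩ hw
      · exact h
    · intro h
      exact Or.inr ⟨hw, h⟩
  refine ⟨C, ⟨?_, ?_, ?_⟩, ⟨?_, ?_⟩, ?_⟩
  · rintro (_ | ⟨i, α⟩)
    · exact h2
    · exact (hC i).1 α
  · rintro (_ | ⟨j, α⟩) i hi
    · rw [hC0]
      omega
    · exact (hC j).2.1 α i hi
  · have hf : (({[]} : Set (Adr b)) ∪ ⋃ i, (fun α => i :: α) '' {α | (C' i).p α ≠ 0}).Finite :=
      (Set.finite_singleton _).union (Set.finite_iUnion fun i => ((hC i).2.2).image _)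
    refine hf.subset ?_
    rintro (_ | ⟨i, α⟩) hα
    · exact Or.inl rfl
    · refine Or.inr ?_
      rw [Set.mem_iUnion]
      exact ⟨i, α, hα, rfl⟩
  · rintro (_ | ⟨i, α⟩) hα
    · rfl
    · exact (hK i).1 α (by simpa using hα)
  · intro n R v hv1 hv2 hv3
    by_cases hw : ∃ i w, In n v i w
    · obtain ⟨i, w, hw⟩ := hw
      rw [hrel1 n R v i w hw]
      have hvw : v = fun j => (i :: (w j).1, (w j).2) := funext hw.2
      subst hvw
      refine (hK i).2 n R w (fun j => ?_) (fun j => hv2 j) (fun j k => ?_)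
      · simpa using hv1 j
      · simpa using hv3 j k
    · exact (hrel2 n R v hw).symm
  · intro i H'
    refine ⟨fun α _ => rfl, fun n R v hv1 hv2 hv3 => ?_⟩
    rcases Nat.eq_zero_or_pos n with rfl | hn
    · have hno : ¬ ∃ i' w, In 0 (fun j => (i :: (v j).1, (v j).2)) i' w := by
        rintro ⟨i', w, h0, _⟩
        exact absurd h0 (lt_irrefl 0)
      refine (hrel2 0 R (fun j => (i :: (v j).1, (v j).2)) hno).trans ?_
      exact (hK i).2 0 R v (fun j => j.elim0) (fun j => j.elim0) (fun j => j.elim0)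
    · exact hrel1 n R (fun j => (i :: (v j).1, (v j).2)) i v ⟨hn, fun j => rfl⟩

end Pool.Agent.Helper72.TX
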