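import Mathlib
import Pool.Agent.Helper72.TX.Td

set_option autoImplicit false

/-!
# TW-5: scatter information is computed bottom-up

`SA R A n e`: `A` contains `n` addresses of length at least `e` and pairwise distance more than `R`.
Direction from left to right: given `Y`, let `Y i = {y | i :: y ∈ Y}` (a finset), `c i = |Y i|` and `f i` the minimum of
`2 * 3 ^ G + 1` and the lengths of the elements of `Y i` (so `2 * 3 ^ G + 1` if `Y i` is empty).
If `[] ∉ Y` then `n = ∑ c i`, `e ≤ f i + 1`, and for `i ≠ j` with `Y i`, `Y j` nonempty
`R < f i + f j + 2` (if one of `f i`, `f j` is `2 * 3 ^ G + 1` because `R ≤ 2 * 3 ^ G`, otherwise they are the lengths of elements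
`y`, `z` and `td (i :: y) (j :: z) = |y| + |z| + 2`). If `[] ∈ Y` then `e = 0`, `n = 1 + ∑ c i` and `R ≤ f i`
(`td [] (i :: y) = |y| + 1 > R`; if there are elements of the same subtree and the root this is all that is needed about
them; elements of different subtrees have distance `> R` automatically since `R ≤ f i`).
Direction from right to left: `Y` is the union of the `i :: Y i` (and `[]`); choose `Y i = ∅` if `c i = 0`.
-/

namespace Pool.Agent.Helper72.TX

variable {b : ℕ}

/-- The union of the `i :: Z i`. -/
private def unionCons (Z : Fin b → Finset (Adr b)) : Finset (Adr b) :=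
  Finset.univ.biUnion fun i => (Z i).image (List.cons i)

private theorem mem_unionCons {Z : Fin b → Finset (Adr b)} {α : Adr b} :
    α ∈ unionCons Z ↔ ∃ i, ∃ y ∈ Z i, i :: y = α := by
  simp only [unionCons, Finset.mem_biUnion, Finset.mem_univ, true_and, Finset.mem_image]

private theorem cons_inj' (i : Fin b) : Function.Injective (List.cons i) :=
  fun _ _ h => (List.cons.inj h).2

private theorem card_unionCons (Z : Fin b → Finset (Adr b)) :
    (unionCons Z).card = ∑ i, (Z i).card := by
  rw [unionCons, Finset.card_biUnion]
  · refine Finset.sum_congr rfl fun i _ => ?_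
    exact Finset.card_image_of_injective _ (cons_inj' i)
  · intro i _ j _ hij
    show Disjoint ((Z i).image (List.cons i)) ((Z j).image (List.cons j))
    rw [Finset.disjoint_left]
    intro α h1 h2
    obtain ⟨y, _, rfl⟩ := Finset.mem_image.1 h1
    obtain ⟨z, _, hz⟩ := Finset.mem_image.1 h2
    exact hij (List.cons.inj hz).1.symm

private theorem nil_notMem_unionCons (Z : Fin b → Finset (Adr b)) : ([] : Adr b) ∉ unionCons Z := by
  intro h
  obtain ⟨i, y, _, h⟩ := mem_unionCons.1 h
  exact List.cons_ne_nil _ _ h

/-- The part of `Y` in the `i`-th subtree. -/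
private noncomputable def part (Y : Finset (Adr b)) (i : Fin b) : Finset (Adr b) :=
  Y.preimage (List.cons i) ((cons_inj' i).injOn)

private theorem mem_part {Y : Finset (Adr b)} {i : Fin b} {y : Adr b} :
    y ∈ part Y i ↔ i :: y ∈ Y := by
  simp only [part, Finset.mem_preimage]

private theorem unionCons_part (Y : Finset (Adr b)) : unionCons (part Y) = Y.erase [] := by
  ext α
  rw [mem_unionCons, Finset.mem_erase]
  constructor
  · rintro ⟨i, y, hy, rfl⟩
    exact ⟨List.cons_ne_nil _ _, mem_part.1 hy⟩
  · rintro ⟨h1, h2⟩
    cases α with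
    | nil => exact absurd rfl h1
    | cons i y => exact ⟨i, y, mem_part.2 h2, rfl⟩

private theorem exists_min (M : ℕ) (Z : Finset (Adr b)) :
    ∃ f : ℕ, f ≤ M ∧ (∀ y ∈ Z, f ≤ y.length) ∧ (f = M ∨ ∃ y ∈ Z, y.length = f) := by
  classical
  by_cases h : ∃ y ∈ Z, y.length < M
  · obtain ⟨y0, hy0, hlt⟩ := h
    have hne : Z.Nonempty := ⟨y0, hy0⟩
    obtain ⟨y, hy, hmin⟩ := Finset.exists_min_image Z List.length hne
    exact ⟨y.length, ((hmin y0 hy0).trans hlt.le), hmin, Or.inr ⟨y, hy, rfl⟩⟩
  · push Not at h
    exact ⟨M, le_rfl, h, Or.inl rfl⟩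

theorem jinf_combine {G k R : ℕ} (hR : R ≤ 2 * 3 ^ G) (A : Set (Adr b)) :
    jinf G k R A =
      combine G k R (([] : Adr b) ∈ A) fun i => jinf G k R {α | i :: α ∈ A} := by
  classical
  funext n e
  apply propext
  constructor
  · rintro ⟨Y, hcard, hY⟩
    choose f hf1 hf2 hf3 using fun i => exists_min (2 * 3 ^ G + 1) (part Y i)
    have hc : (Y.erase []).card = ∑ i, (part Y i).card := by
      rw [← unionCons_part, card_unionCons]
    have hcn : ∀ i, (part Y i).card ≤ k := by
      intro i
      have h1 : (part Y i).card ≤ ∑ i, (part Y i).card :=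
        Finset.single_le_sum (f := fun i => (part Y i).card) (fun _ _ => Nat.zero_le _)
          (Finset.mem_univ i)
      have h2 := Finset.card_le_card (Finset.erase_subset [] Y)
      have h3 := n.2
      omega
    have hSA : ∀ i, SA R {α | i :: α ∈ A} (part Y i).card (f i) := by
      intro i
      refine ⟨part Y i, rfl, fun y hy => ⟨(hY _ (mem_part.1 hy)).1, hf2 i y hy, ?_⟩⟩
      intro y' hy' hne
      have := (hY _ (mem_part.1 hy)).2.2 _ (mem_part.1 hy') (fun h => hne (List.cons.inj h).2)
      rwa [td_cons_same] at this
    have he : e.1 ≤ 2 * 3 ^ G + 1 := by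
      have := e.2
      omega
    refine ⟨fun i => ⟨(part Y i).card, Nat.lt_succ_of_le (hcn i)⟩,
      fun i => ⟨f i, Nat.lt_succ_of_le (hf1 i)⟩, hSA, ?_⟩
    by_cases hnil : ([] : Adr b) ∈ Y
    · right
      refine ⟨(hY _ hnil).1, ?_, ?_, ?_⟩
      · have := (hY _ hnil).2.1
        simpa using this
      · show n.1 = 1 + ∑ i, (part Y i).card
        rw [← hc, ← hcard, Finset.card_erase_of_mem hnil]
        have : 0 < Y.card := Finset.card_pos.2 ⟨_, hnil⟩
        omega
      · intro i
        show R ≤ f i
        rcases hf3 i with h | ⟨y, hy, h⟩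
        · omega
        · have := (hY _ hnil).2.2 _ (mem_part.1 hy) (List.cons_ne_nil _ _).symm
          rw [td_nil_left, List.length_cons] at this
          omega
    · left
      refine ⟨?_, ?_, ?_⟩
      · show n.1 = ∑ i, (part Y i).card
        rw [← hc, ← hcard, Finset.erase_eq_of_notMem hnil]
      · intro i
        show e.1 ≤ f i + 1
        rcases hf3 i with h | ⟨y, hy, h⟩
        · omega
        · have := (hY _ (mem_part.1 hy)).2.1
          rw [List.length_cons] at this
          omega
      · intro i j hij _ _
        show R < f i + f j + 2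
        rcases hf3 i with h | ⟨y, hy, h⟩
        · omega
        · rcases hf3 j with h' | ⟨z, hz, h'⟩
          · omega
          · have := (hY _ (mem_part.1 hy)).2.2 _ (mem_part.1 hz)
              (fun h => hij (List.cons.inj h).1)
            rw [td_cons_ne hij] at this
            omega
  · rintro ⟨c, f, hJ, hcase⟩
    have hJ' : ∀ i, SA R {α | i :: α ∈ A} (c i).1 (f i).1 := hJ
    choose Z hZc hZ using hJ'
    have hcardU : (unionCons Z).card = ∑ i, (c i).1 := by
      rw [card_unionCons]
      exact Finset.sum_congr rfl fun i _ => hZc i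
    rcases hcase with ⟨h1, h2, h3⟩ | ⟨h0, h1, h2, h3⟩
    · refine ⟨unionCons Z, by rw [hcardU, h1], ?_⟩
      intro α hα
      obtain ⟨i, y, hy, rfl⟩ := mem_unionCons.1 hα
      refine ⟨(hZ i y hy).1, ?_, ?_⟩
      · have := (hZ i y hy).2.1
        have := h2 i
        rw [List.length_cons]
        omega
      · intro β hβ hne
        obtain ⟨j, z, hz, rfl⟩ := mem_unionCons.1 hβ
        by_cases hij : i = j
        · subst hij
          rw [td_cons_same]
          exact (hZ i y hy).2.2 z hz (fun h => hne (by rw [h]))
        · rw [td_cons_ne hij]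
          have hci : (c i).1 ≠ 0 := by
            rw [← hZc i]
            exact (Finset.card_pos.2 ⟨_, hy⟩).ne'
          have hcj : (c j).1 ≠ 0 := by
            rw [← hZc j]
            exact (Finset.card_pos.2 ⟨_, hz⟩).ne'
          have := h3 i j hij hci hcj
          have := (hZ i y hy).2.1
          have := (hZ j z hz).2.1
          omega
    · refine ⟨insert [] (unionCons Z), ?_, ?_⟩
      · rw [Finset.card_insert_of_notMem (nil_notMem_unionCons Z), hcardU, h2]
        omega
      · intro α hα
        rcases Finset.mem_insert.1 hα with rfl | hα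
        · refine ⟨h0, by rw [h1]; exact Nat.zero_le _, ?_⟩
          intro β hβ hne
          rcases Finset.mem_insert.1 hβ with rfl | hβ
          · exact absurd rfl hne
          · obtain ⟨j, z, hz, rfl⟩ := mem_unionCons.1 hβ
            rw [td_nil_left, List.length_cons]
            have := h3 j
            have := (hZ j z hz).2.1
            omega
        · obtain ⟨i, y, hy, rfl⟩ := mem_unionCons.1 hα
          refine ⟨(hZ i y hy).1, by rw [h1]; exact Nat.zero_le _, ?_⟩
          intro β hβ hne
          rcases Finset.mem_insert.1 hβ with rfl | hβ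
          · rw [td_nil_right, List.length_cons]
            have := h3 i
            have := (hZ i y hy).2.1
            omega
          · obtain ⟨j, z, hz, rfl⟩ := mem_unionCons.1 hβ
            by_cases hij : i = j
            · subst hij
              rw [td_cons_same]
              exact (hZ i y hy).2.2 z hz (fun h => hne (by rw [h]))
            · rw [td_cons_ne hij]
              have := h3 i
              have := h3 j
              have := (hZ i y hy).2.1
              have := (hZ j z hz).2.1
              omega

theorem jinf_empty (G k R : ℕ) (A : Set (Adr b)) (hA : A = ∅) :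
    jinf G k R A = fun n _ => n.1 = 0 := by
  subst hA
  funext n e
  apply propext
  constructor
  · rintro ⟨Y, hcard, hY⟩
    rw [← hcard, Finset.card_eq_zero]
    exact Finset.eq_empty_of_forall_notMem fun y hy => (hY y hy).1
  · intro h
    refine ⟨∅, by rw [Finset.card_empty, h], fun y hy => absurd hy (Finset.notMem_empty y)⟩

end Pool.Agent.Helper72.TX
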