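import Mathlib
import Pool.Agent.Helper72.TX.Defs

set_option autoImplicit false

/-!
# TW-3: local types depend on a ball, there are finitely many of them
-/

namespace Pool.Agent.Helper72.TX

open FirstOrder FirstOrder.Language

theorem finite_LT {L : FirstOrder.Language.{0, 0}} (hf : Finite (Σ n, L.Relations n)) :
    ∀ g m : ℕ, Finite (LT L g m) := by
  intro g
  induction g with
  | zero =>
    intro m
    show Finite (At L 0 m)
    infer_instance
  | succ g ih =>
    intro m
    have := ih (m + 1)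
    show Finite (At L (g + 1) m × Set (LT L g (m + 1)))
    infer_instance

theorem rad_lt (g : ℕ) : rad g < 3 ^ g := by
  induction g with
  | zero => simp [rad]
  | succ g ih =>
    simp only [rad, pow_succ]
    omega

theorem rad_mono {g g' : ℕ} (h : g ≤ g') : rad g ≤ rad g' := by
  induction h with
  | refl => exact le_rfl
  | step _ ih => exact ih.trans (Nat.le_add_left _ _)

theorem lt_map {L : FirstOrder.Language.{0, 0}} {X X' : Type} {S : Str L X} {S' : Str L X'}
    {d : X → X → ℕ} {d' : X' → X' → ℕ} (hd : PM d) (e : X' → X) (he : Function.Injective e)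
    (hde : ∀ x y, d (e x) (e y) = d' x y) (g m : ℕ) (a : Fin m → X') (ha : ∀ i, S'.D (a i))
    (h1 : ∀ x, S.D x → (∃ i, d x (e (a i)) ≤ rad g) → ∃ x', e x' = x)
    (h2 : ∀ x', (∃ i, d' x' (a i) ≤ rad g) → (S'.D x' ↔ S.D (e x')))
    (h3 : ∀ n (R : L.Relations n) (v : Fin n → X'),
      (∀ j, S'.D (v j) ∧ ∃ i, d' (v j) (a i) ≤ rad g) →
      (S'.rel n R v ↔ S.rel n R fun j => e (v j))) :
    lt S' d' g m a = lt S d g m (fun i => e (a i)) := by
  have haty : ∀ (g m : ℕ) (a : Fin m → X'), (∀ i, S'.D (a i)) →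
      (∀ n (R : L.Relations n) (v : Fin n → X'),
        (∀ j, S'.D (v j) ∧ ∃ i, d' (v j) (a i) ≤ rad g) →
        (S'.rel n R v ↔ S.rel n R fun j => e (v j))) →
      aty S' d' g a = aty S d g (fun i => e (a i)) := by
    intro g m a ha h3
    refine Prod.ext ?_ (Prod.ext ?_ ?_)
    · funext s v
      refine propext (h3 s.1 s.2 (fun i => a (v i)) fun j => ⟨ha _, v j, ?_⟩)
      rw [← hde, hd.zero]
      exact Nat.zero_le _
    · funext i j
      exact propext ⟨fun h => congrArg e h, fun h => he h⟩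
    · funext i j
      apply Fin.ext
      show min (d' (a i) (a j)) (3 ^ g + 1) = min (d (e (a i)) (e (a j))) (3 ^ g + 1)
      rw [hde]
  induction g generalizing m with
  | zero => exact haty 0 m a ha h3
  | succ g ih =>
    have hsn : ∀ x' : X', (fun i => e ((Fin.snoc a x' : Fin (m + 1) → X') i)) =
        (Fin.snoc (fun i => e (a i)) (e x') : Fin (m + 1) → X) := by
      intro x'
      funext i
      refine Fin.lastCases ?_ (fun i => ?_) i
      · simp
      · simp
    have hstep : ∀ x' : X', S'.D x' → (∃ i, d' x' (a i) ≤ 3 ^ g) →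
        lt S' d' g (m + 1) (Fin.snoc (α := fun _ => X') a x') =
          lt S d g (m + 1) (Fin.snoc (α := fun _ => X) (fun i => e (a i)) (e x')) := by
      rintro x' hx' ⟨i, hi⟩
      have hnear : ∀ y : X, (∃ j, d y (e ((Fin.snoc a x' : Fin (m + 1) → X') j)) ≤ rad g) →
          ∃ j, d y (e (a j)) ≤ rad (g + 1) := by
        rintro y ⟨j, hj⟩
        revert hj
        refine Fin.lastCases ?_ (fun j => ?_) j
        · intro hj
          refine ⟨i, ?_⟩
          simp only [Fin.snoc_last] at hj
          have h4 := hd.tri y (e x') (e (a i))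
          rw [hde x' (a i)] at h4
          simp only [rad]
          omega
        · intro hj
          refine ⟨j, ?_⟩
          simp only [Fin.snoc_castSucc] at hj
          simp only [rad]
          omega
      rw [← hsn]
      refine ih (m + 1) (Fin.snoc (α := fun _ => X') a x') ?_ ?_ ?_ ?_
      · intro j
        refine Fin.lastCases ?_ (fun j => ?_) j
        · simpa using hx'
        · simpa using ha j
      · intro x hx hj
        exact h1 x hx (hnear x hj)
      · rintro y ⟨j, hj⟩
        refine h2 y ?_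
        obtain ⟨j', hj'⟩ := hnear (e y) ⟨j, by rw [hde]; exact hj⟩
        exact ⟨j', by rw [← hde]; exact hj'⟩
      · intro n R v hv
        refine h3 n R v fun j => ⟨(hv j).1, ?_⟩
        obtain ⟨j', hj'⟩ := (hv j).2
        obtain ⟨j'', hj''⟩ := hnear (e (v j)) ⟨j', by rw [hde]; exact hj'⟩
        exact ⟨j'', by rw [← hde]; exact hj''⟩
    refine Prod.ext (haty (g + 1) m a ha h3) ?_
    show {t | ∃ x, S'.D x ∧ (∃ i, d' x (a i) ≤ 3 ^ g) ∧
        lt S' d' g (m + 1) (Fin.snoc (α := fun _ => X') a x) = t} =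
      {t | ∃ x, S.D x ∧ (∃ i, d x (e (a i)) ≤ 3 ^ g) ∧
        lt S d g (m + 1) (Fin.snoc (α := fun _ => X) (fun i => e (a i)) x) = t}
    ext t
    constructor
    · rintro ⟨x', hx', ⟨i, hi⟩, ht⟩
      refine ⟨e x', (h2 x' ⟨i, ?_⟩).1 hx', ⟨i, by rw [hde]; exact hi⟩, ?_⟩
      · simp only [rad]
        omega
      · rw [← hstep x' hx' ⟨i, hi⟩]
        exact ht
    · rintro ⟨x, hx, ⟨i, hi⟩, ht⟩
      obtain ⟨x', rfl⟩ := h1 x hx ⟨i, by simp only [rad]; omega⟩
      have hx' : S'.D x' := (h2 x' ⟨i, by rw [← hde]; simp only [rad]; omega⟩).2 hx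
      refine ⟨x', hx', ⟨i, by rw [← hde]; exact hi⟩, ?_⟩
      rw [hstep x' hx' ⟨i, by rw [← hde]; exact hi⟩]
      exact ht

end Pool.Agent.Helper72.TX
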