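import Mathlib
import Pool.Agent.Helper72.TX.TypeL

set_option autoImplicit false

/-!
# TW-8: the information of a configuration is computed from those of the subtrees

`lift_spec`: induction on `δ` with `jinf_combine` (`2 * 3 ^ t.1.1 ≤ 2 * 3 ^ G`; `[] ∈ {γ | α ++ γ ∈ TA …}` is
`α ∈ TA …`, and `{γ | i :: γ ∈ {γ | α ++ γ ∈ TA …}} = {γ | (α ++ [i]) ++ γ ∈ TA …}`).
`finfo_step`: at the address `i :: α`, `|α| = rad G`: `lift_spec` for `C.sub i` with `δ = 1` and `ta_sub`
(`rad t.1.1 ≤ rad G ≤ |α ++ γ|`).
-/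

namespace Pool.Agent.Helper72.TX

open FirstOrder FirstOrder.Language

variable {L : FirstOrder.Language.{0, 0}} {b : ℕ}

theorem lift_spec (G k : ℕ) (C : Cfg L b) (δ : ℕ) (α : Adr b) (h : α.length + δ = rad G + 1)
    (t : Ty L G) : lift G k (tinfo G C) (finfo G k C) δ α h t =
      jinf G k (2 * 3 ^ t.1.1) {γ | α ++ γ ∈ TA C t.1.1 t.2} := by
  induction δ generalizing α with
  | zero => rfl
  | succ δ ih =>
    have hR : 2 * 3 ^ t.1.1 ≤ 2 * 3 ^ G :=
      Nat.mul_le_mul_left 2 (Nat.pow_le_pow_right (by norm_num) (Nat.lt_succ_iff.mp t.1.2))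
    rw [jinf_combine hR]
    simp only [lift]
    congr 1
    · simp only [tinfo, Set.mem_ofPred_eq, List.append_nil]
    · funext i
      rw [ih]
      congr 1
      ext γ
      simp only [Set.mem_ofPred_eq, List.append_assoc, List.singleton_append]

theorem finfo_step (G k : ℕ) (C : Cfg L b) : finfo G k C =
    upd G k (fun i => tinfo G (C.sub i)) (fun i => finfo G k (C.sub i)) := by
  funext α t
  obtain ⟨α, h⟩ := α
  cases α with
  | nil => exact absurd h (by simp)
  | cons i α =>
    have hl : α.length = rad G := by simpa using h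
    simp only [upd]
    rw [lift_spec]
    simp only [finfo]
    congr 1
    ext γ
    simp only [Set.mem_ofPred_eq, List.cons_append]
    refine ta_sub C i t.1.1 t.2 (α ++ γ) ?_
    have h1 : rad t.1.1 ≤ rad G := rad_mono (Nat.lt_succ_iff.mp t.1.2)
    rw [List.length_append]
    omega

theorem root_spec (G k : ℕ) (C : Cfg L b) (t : Ty L G) :
    root G k (tinfo G C) (finfo G k C) t = jinf G k (2 * 3 ^ t.1.1) (TA C t.1.1 t.2) := by
  simp only [root]
  rw [lift_spec]
  congr 1

/-- Scattered points of a configuration and scattered addresses (`2 * 3 ^ g < td …` implies that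
the addresses are different). -/
theorem scat_iff (C : Cfg L b) (g : ℕ) (τ : LT L g 1) (n : ℕ) :
    Scat C.str dX g τ n ↔ SA (2 * 3 ^ g) (TA C g τ) n 0 := by
  classical
  constructor
  · rintro ⟨y, hy, hd⟩
    have hinj : Function.Injective (fun i => (y i).1) := by
      intro i j hij
      by_contra hne
      have h1 := hd i j hne
      simp only at hij
      simp only [dX, hij, td_self] at h1
      omega
    refine ⟨Finset.univ.image (fun i => (y i).1), ?_, ?_⟩
    · rw [Finset.card_image_of_injective _ hinj, Finset.card_univ, Fintype.card_fin]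
    · intro z hz
      obtain ⟨i, -, rfl⟩ := Finset.mem_image.mp hz
      refine ⟨⟨(y i).2, (hy i).1, (hy i).2⟩, Nat.zero_le _, ?_⟩
      intro z' hz' hne
      obtain ⟨j, -, rfl⟩ := Finset.mem_image.mp hz'
      exact hd i j (fun hij => hne (by rw [hij]))
  · rintro ⟨Y, hc, hY⟩
    have hu : ∀ z : Y, ∃ u, u < C.p z.1 ∧ lt C.str dX g 1 (fun _ => (z.1, u)) = τ :=
      fun z => (hY z.1 z.2).1
    choose u hu1 hu2 using hu
    let e : Fin n ≃ Y := (Fintype.equivFinOfCardEq (by simpa using hc)).symm
    refine ⟨fun i => ((e i).1, u (e i)), fun i => ⟨hu1 (e i), hu2 (e i)⟩, ?_⟩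
    intro i j hij
    refine (hY (e i).1 (e i).2).2.2 (e j).1 (e j).2 ?_
    intro hh
    exact hij (e.injective (Subtype.ext hh))

end Pool.Agent.Helper72.TX
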