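import Mathlib
import Pool.Agent.Helper72.TX.Lift
import Pool.Agent.Helper72.TX.Glob

set_option autoImplicit false

/-!
# TW-10: the root information determines the truth of the sentence

Take `q` from `local_global`. By `root_spec` at `n`, `e = 0` and `scat_iff`, equal root informations give the same `Scat` for
`g ≤ q * (q + 1)` and `n ≤ q + 1`.
-/

namespace Pool.Agent.Helper72.TX

open FirstOrder FirstOrder.Language

theorem accept {L : FirstOrder.Language.{0, 0}} (hL : ∀ n, IsEmpty (L.Functions n))
    (φ : L.Sentence) (b : ℕ) : ∃ G k : ℕ, ∀ C C' : Cfg L b,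
      (∃ x : Adr b × ℕ, x.2 < C.p x.1) →
      root G k (tinfo G C) (finfo G k C) = root G k (tinfo G C') (finfo G k C') →
      (C.str.Models hL φ ↔ C'.str.Models hL φ) := by
  obtain ⟨q, hq⟩ := local_global hL φ
  refine ⟨q * (q + 1), q + 1, fun C C' hC hroot => ?_⟩
  refine hq _ _ dX dX C.str C'.str pm_dX pm_dX C.str_local C'.str_local hC ?_
  intro g hg τ n hn
  rw [scat_iff, scat_iff]
  have h := congrFun hroot ⟨⟨g, Nat.lt_succ_of_le hg⟩, τ⟩
  rw [root_spec, root_spec] at h
  have h2 := congrFun (congrFun h ⟨n, Nat.lt_succ_of_le hn⟩) ⟨0, by omega⟩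
  exact iff_of_eq h2

end Pool.Agent.Helper72.TX
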