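import Mathlib
import Pool.Agent.Helper72.TX.Defs
import Pool.Agent.Helper87.AU.UDef

set_option autoImplicit false

/-!
# TW, part 2: coded reachability (definitions)

`U` is a finite set with a linear order `le`, addition `add` of the ranks, an initial segment `a` (the numbers
below `m`), an initial segment `wp` (the numbers below `W`), a certificate that `m ^ C ≤ 2 ^ (W ^ A)`. The
elements `κ` are codes of windows: `sz α κ y` says that the node `α` has `rank y` points, `bit s ᾱ κ v` that the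
relation `s` holds for the points `(ᾱ i, v i)`. `reach F κ σ`: the state `(rank σ, κ, F)` is reachable.
-/

namespace Pool.Agent.Helper72.TX

open FirstOrder FirstOrder.Language

/-- The addresses of a window. -/
abbrev Win (b H : ℕ) : Type := {α : Adr b // α.length ≤ H}

/-- The relations of a coded reachability structure. -/
structure Rc (L : FirstOrder.Language.{0, 0}) (b G k A C r : ℕ) (U : Type) where
  a : U → Prop
  le : U → U → Prop
  add : U → U → U → Prop
  wp : U → Prop
  cert : (Fin C → U) → (Fin A → U) → Prop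
  sz : Win b (2 * rad G + 1) → U → U → Prop
  bit : ∀ s : (Σ n, L.Relations n), (Fin s.1 → Win b (2 * rad G + 1)) → U → (Fin s.1 → U) → Prop
  reach : FI L b G k → U → U → Prop
  tup : U → (Fin (r + 1) → U) → Prop

variable {L : FirstOrder.Language.{0, 0}} {b G k A C r : ℕ} {U : Type}

/-- Strict order. -/
def Rc.ltt (R : Rc L b G k A C r U) (x y : U) : Prop := R.le x y ∧ x ≠ y

/-- The smallest element. -/
def Rc.zero (R : Rc L b G k A C r U) (x : U) : Prop := ∀ u, R.le x u

/-- `y` is the successor of `x`. -/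
def Rc.succ (R : Rc L b G k A C r U) (x y : U) : Prop := R.ltt x y ∧ ∀ u, R.ltt x u → R.le y u

/-- `y` has rank at most `W`. -/
def Rc.small (R : Rc L b G k A C r U) (y : U) : Prop := ∀ u, R.ltt u y → R.wp u

/-- `σ` has rank `m`. -/
def Rc.top (R : Rc L b G k A C r U) (σ : U) : Prop := ∀ x, R.a x ↔ R.ltt x σ

/-- The window coded by `κ`. -/
def Rc.win (R : Rc L b G k A C r U) (κ : U) : Str L (Adr b × U) where
  D := fun x => ∃ h : x.1.length ≤ 2 * rad G + 1, ∃ y, R.sz ⟨x.1, h⟩ κ y ∧ R.ltt x.2 y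
  rel := fun n P v => (∃ h : ∀ i, (v i).1.length ≤ 2 * rad G + 1,
    R.bit ⟨n, P⟩ (fun i => ⟨(v i).1, h i⟩) κ (fun i => (v i).2)) ∧
      ∀ i j, td (v i).1 (v j).1 ≤ 1

/-- The types of the points of the window at small depth. -/
def Rc.ti (R : Rc L b G k A C r U) (κ : U) : TI L b G := fun α t =>
  ∃ u, (R.win κ).D (α.1, u) ∧ lt (R.win κ) dX t.1.1 1 (fun _ => (α.1, u)) = t.2

/-- `α` as an address of the window. -/
def winIncl (α : Win b (2 * rad G)) : Win b (2 * rad G + 1) := ⟨α.1, α.2.trans (Nat.le_succ _)⟩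

/-- `i :: α` as an address of the window. -/
def winCons (i : Fin b) (α : Win b (2 * rad G)) : Win b (2 * rad G + 1) :=
  ⟨i :: α.1, by simpa using α.2⟩

/-- The `i`-th subtree of the window coded by `κ` agrees with the window coded by `κ'`. -/
def Rc.weq (R : Rc L b G k A C r U) (i : Fin b) (κ κ' : U) : Prop :=
  (∀ (α : Win b (2 * rad G)) (z : U), R.sz (winCons i α) κ z ↔ R.sz (winIncl α) κ' z) ∧
    ∀ (s : Σ n, L.Relations n) (w : Fin s.1 → Win b (2 * rad G)),
      (∀ j l, td (w j).1 (w l).1 ≤ 1) → ∀ v : Fin s.1 → U, (∀ j, (R.win κ').D ((w j).1, v j)) →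
        (R.bit s (fun j => winCons i (w j)) κ v ↔ R.bit s (fun j => winIncl (w j)) κ' v)

/-- The recursion step for the reachable states. -/
def Rc.Step (R : Rc L b G k A C r U) (Q : FI L b G k → U → U → Prop) (F : FI L b G k)
    (κ σ : U) : Prop :=
  (R.zero σ ∧ (∀ α, ∃ y, R.sz α κ y ∧ R.zero y) ∧ F = finfo0 L b G k) ∨
    ∃ y, R.sz ⟨[], Nat.zero_le _⟩ κ y ∧ ¬ R.zero y ∧
      ∃ (κ' σ' : Fin b → U) (t : Fin (b + 1) → U) (F' : Fin b → FI L b G k),
        (∀ i, Q (F' i) (κ' i) (σ' i)) ∧ t 0 = y ∧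
        (∀ i : Fin b, R.add (t i.castSucc) (σ' i) (t i.succ)) ∧ t (Fin.last b) = σ ∧
        (∀ i, R.weq i κ (κ' i)) ∧ F = upd G k (fun i => R.ti (κ' i)) F'

/-- The basic axioms: order, addition, sizes of the nodes of the windows, `|U| = m ^ (r + 1)`. -/
structure Rc.AxA (R : Rc L b G k A C r U) : Prop where
  refl : ∀ x, R.le x x
  antisymm : ∀ x y, R.le x y → R.le y x → x = y
  trans : ∀ x y z, R.le x y → R.le y z → R.le x z
  total : ∀ x y, R.le x y ∨ R.le y x
  add0 : ∀ x y z, R.zero y → (R.add x y z ↔ x = z)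
  addS : ∀ x y y' z', R.succ y y' → (R.add x y' z' ↔ ∃ z, R.add x y z ∧ R.succ z z')
  wp_init : ∀ x y, R.wp x → R.le y x → R.wp y
  wp_top : ∃ x, ¬ R.wp x
  sz_ex : ∀ α κ, ∃ y, R.sz α κ y ∧ R.small y ∧ ∀ y', R.sz α κ y' → y' = y
  tup_ex : ∀ u, ∃ x, (∀ i, R.a (x i)) ∧ R.tup u x
  tup_fun : ∀ u x x', R.tup u x → R.tup u x' → x = x'
  tup_inj : ∀ u u' x, R.tup u x → R.tup u' x → u = u'
  tup_surj : ∀ x, (∀ i, R.a (x i)) → ∃ u, R.tup u x
  top_ex : ∃ σ, R.top σ

/-- The axioms about everything except `reach`, dense version: all windows are coded. -/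
structure Rc.Ax0 (R : Rc L b G k A C r U) : Prop extends R.AxA where
  cert : ∀ x x' : Fin C → U, (∀ i, R.a (x i)) → (∀ i, R.a (x' i)) → x ≠ x' →
    ∃ i : Fin A → U, (∀ j, R.wp (i j)) ∧ ¬ (R.cert x i ↔ R.cert x' i)
  cl_sz : ∀ κ α y, R.small y → ∃ κ', R.sz α κ' y ∧
    (∀ α', α' ≠ α → ∀ z, R.sz α' κ' z ↔ R.sz α' κ z) ∧
    ∀ s w v, (∀ i, R.wp (v i)) → (R.bit s w κ' v ↔ R.bit s w κ v)
  cl_bit : ∀ κ s w v, (∀ i, R.wp (v i)) → ∃ κ', (∀ α z, R.sz α κ' z ↔ R.sz α κ z) ∧
    (∀ v', (∀ i, R.wp (v' i)) → (R.bit s w κ' v' ↔ ¬ (R.bit s w κ v' ↔ v' = v))) ∧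
    ∀ s' w', (⟨s', w'⟩ : Σ s : (Σ n, L.Relations n), Fin s.1 → Win b (2 * rad G + 1)) ≠ ⟨s, w⟩ →
      ∀ v', (∀ i, R.wp (v' i)) → (R.bit s' w' κ' v' ↔ R.bit s' w' κ v')

/-- The axioms about `reach`; `Good` is the set of accepting informations. -/
structure Rc.AxR (R : Rc L b G k A C r U) (Good : TI L b G → FI L b G k → Prop) : Prop where
  reach_rec : ∀ F κ σ, R.reach F κ σ ↔ R.Step R.reach F κ σ
  final : ∀ F κ σ, R.top σ → R.reach F κ σ → ¬ Good (R.ti κ) F

/-- All axioms, dense version. -/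
def Rc.Ax (R : Rc L b G k A C r U) (Good : TI L b G → FI L b G k → Prop) : Prop :=
  R.Ax0 ∧ R.AxR Good

/-- The number of smaller elements. -/
noncomputable def Rc.rank (R : Rc L b G k A C r U) (x : U) : ℕ := Nat.card {y // R.ltt y x}

/-- The width `W`. -/
noncomputable def Rc.wid (R : Rc L b G k A C r U) : ℕ := Nat.card {y // R.wp y}

/-- The configuration coded by `κ` (empty at depth more than `2 * rad G + 1`). -/
noncomputable def Rc.conf (R : Rc L b G k A C r U) (κ : U) : Cfg L b where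
  p := fun α => Nat.card {u // (R.win κ).D (α, u)}
  rel := fun n P v => ∃ u : Fin n → U, (∀ i, R.rank (u i) = (v i).2) ∧
    (R.win κ).rel n P fun i => ((v i).1, u i)

/-- The window of `K` is coded in `U`. -/
def Rc.Coded (R : Rc L b G k A C r U) (K : Cfg L b) : Prop :=
  ∃ κ, WinEq (2 * rad G + 1) (R.conf κ) K

/-- The states of `U` in terms of configurations. -/
def Rc.QP (R : Rc L b G k A C r U) (F : FI L b G k) (κ σ : U) : Prop :=
  PC R.Coded G k R.wid (R.rank σ) (R.conf κ) F

/-! ### The language -/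

/-- Relation symbols. -/
inductive RR (L : FirstOrder.Language.{0, 0}) (b G k A C r : ℕ) : ℕ → Type
  | a : RR L b G k A C r 1
  | le : RR L b G k A C r 2
  | add : RR L b G k A C r 3
  | wp : RR L b G k A C r 1
  | cert : RR L b G k A C r (C + A)
  | sz (α : Win b (2 * rad G + 1)) : RR L b G k A C r 2
  | bit (s : Σ n, L.Relations n) (w : Fin s.1 → Win b (2 * rad G + 1)) :
      RR L b G k A C r (1 + s.1)
  | reach (F : FI L b G k) : RR L b G k A C r 2
  | tup : RR L b G k A C r (1 + (r + 1))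

/-- The language of coded reachability structures. -/
abbrev LR (L : FirstOrder.Language.{0, 0}) (b G k A C r : ℕ) : FirstOrder.Language.{0, 0} :=
  ⟨fun _ => Empty, RR L b G k A C r⟩

/-- The relations of an `LR`-structure. -/
def toRc (L : FirstOrder.Language.{0, 0}) (b G k A C r : ℕ) (U : Type)
    [(LR L b G k A C r).Structure U] : Rc L b G k A C r U where
  a := fun x => Structure.RelMap (L := LR L b G k A C r) RR.a ![x]
  le := fun x y => Structure.RelMap (L := LR L b G k A C r) RR.le ![x, y]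
  add := fun x y z => Structure.RelMap (L := LR L b G k A C r) RR.add ![x, y, z]
  wp := fun x => Structure.RelMap (L := LR L b G k A C r) RR.wp ![x]
  cert := fun x i => Structure.RelMap (L := LR L b G k A C r) RR.cert (Fin.append x i)
  sz := fun α κ y => Structure.RelMap (L := LR L b G k A C r) (RR.sz α) ![κ, y]
  bit := fun s w κ v =>
    Structure.RelMap (L := LR L b G k A C r) (RR.bit s w) (Fin.append ![κ] v)
  reach := fun F κ σ => Structure.RelMap (L := LR L b G k A C r) (RR.reach F) ![κ, σ]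
  tup := fun u x => Structure.RelMap (L := LR L b G k A C r) RR.tup (Fin.append ![u] x)

/-- The relation of a symbol. -/
def relRc (R : Rc L b G k A C r U) : ∀ {n : ℕ}, RR L b G k A C r n → (Fin n → U) → Prop
  | _, RR.a, v => R.a (v 0)
  | _, RR.le, v => R.le (v 0) (v 1)
  | _, RR.add, v => R.add (v 0) (v 1) (v 2)
  | _, RR.wp, v => R.wp (v 0)
  | _, RR.cert, v => R.cert (fun i => v (Fin.castAdd A i)) (fun i => v (Fin.natAdd C i))
  | _, RR.sz α, v => R.sz α (v 0) (v 1)
  | _, RR.bit s w, v => R.bit s w (v (Fin.castAdd s.1 0)) (fun i => v (Fin.natAdd 1 i))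
  | _, RR.reach F, v => R.reach F (v 0) (v 1)
  | _, RR.tup, v => R.tup (v (Fin.castAdd (r + 1) 0)) (fun i => v (Fin.natAdd 1 i))

/-- The structure given by relations. -/
@[instance_reducible]
def ofRc (R : Rc L b G k A C r U) : (LR L b G k A C r).Structure U where
  funMap := fun f _ => f.elim
  RelMap := fun P v => relRc R P v

end Pool.Agent.Helper72.TX
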