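import Mathlib
import Pool.Agent.Helper72.TX.AxU

set_option autoImplicit false

/-!
# TW-19: the axioms `Ax0` are definable

One lemma per axiom, as in `Helper72/WT/AxDef.lean`.
-/

namespace Pool.Agent.Helper72.TX

open FirstOrder FirstOrder.Language Pool.Agent.Helper87.AU

namespace AxU0

/-! ### Quantifier blocks -/

section Blocks

variable {L' : FirstOrder.Language.{0, 0}} {α : Type}

theorem all1 {P : ∀ (M : Type) [L'.Structure M], M → Prop}
    (h : UDef L' Unit (fun M _ v => P M (v ()))) :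
    UDef L' α (fun M _ _ => ∀ x : M, P M x) :=
  UDef.allu (P := fun M _ _ x => P M x) (h.relabel Sum.inr)

theorem ex1 {P : ∀ (M : Type) [L'.Structure M], M → Prop}
    (h : UDef L' Unit (fun M _ v => P M (v ()))) :
    UDef L' α (fun M _ _ => ∃ x : M, P M x) :=
  UDef.exu (P := fun M _ _ x => P M x) (h.relabel Sum.inr)

theorem all2 {P : ∀ (M : Type) [L'.Structure M], M → M → Prop}
    (h : UDef L' (Fin 2) (fun M _ v => P M (v 0) (v 1))) :
    UDef L' α (fun M _ _ => ∀ x y : M, P M x y) :=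
  (UDef.all (β := Fin 2) (P := fun M _ _ w => P M (w 0) (w 1)) (h.relabel Sum.inr)).congr
    fun _ _ _ => ⟨fun hw x y => hw ![x, y], fun hx w => hx (w 0) (w 1)⟩

theorem all3 {P : ∀ (M : Type) [L'.Structure M], M → M → M → Prop}
    (h : UDef L' (Fin 3) (fun M _ v => P M (v 0) (v 1) (v 2))) :
    UDef L' α (fun M _ _ => ∀ x y z : M, P M x y z) :=
  (UDef.all (β := Fin 3) (P := fun M _ _ w => P M (w 0) (w 1) (w 2)) (h.relabel Sum.inr)).congr
    fun _ _ _ => ⟨fun hw x y z => hw ![x, y, z], fun hx w => hx (w 0) (w 1) (w 2)⟩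

theorem all4 {P : ∀ (M : Type) [L'.Structure M], M → M → M → M → Prop}
    (h : UDef L' (Fin 4) (fun M _ v => P M (v 0) (v 1) (v 2) (v 3))) :
    UDef L' α (fun M _ _ => ∀ x y z t : M, P M x y z t) :=
  (UDef.all (β := Fin 4) (P := fun M _ _ w => P M (w 0) (w 1) (w 2) (w 3))
    (h.relabel Sum.inr)).congr
    fun _ _ _ => ⟨fun hw x y z t => hw ![x, y, z, t], fun hx w => hx (w 0) (w 1) (w 2) (w 3)⟩

/-- Equality of two tuples of points. -/
theorem tupEq {n : ℕ} (x y : Fin n → α) :
    UDef L' α (fun _ _ v => (fun i => v (x i)) = fun i => v (y i)) :=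
  (UDef.allFin (ι := Fin n) fun i => UDef.varEq (x i) (y i)).congr fun _ _ _ =>
    ⟨fun h => funext h, fun h i => congrFun h i⟩

end Blocks

instance finiteWin (b H : ℕ) : Finite (Win b H) :=
  (List.finite_length_le (Fin b) H).to_subtype

variable (L : FirstOrder.Language.{0, 0}) (b G k A C r : ℕ)

theorem axu_succ (α : Type) (x y : α) :
    UDef (LR L b G k A C r) α (fun U _ v => (toRc L b G k A C r U).succ (v x) (v y)) := by
  refine (axu_ltt L b G k A C r α x y).and ?_
  refine UDef.allu (P := fun U _ v u => (toRc L b G k A C r U).ltt (v x) u →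
    (toRc L b G k A C r U).le (v y) u) ?_
  exact (axu_ltt L b G k A C r _ (Sum.inl x) (Sum.inr ())).imp
    (axu_le L b G k A C r _ (Sum.inl y) (Sum.inr ()))

theorem h_refl : UDef (LR L b G k A C r) Empty
    (fun U _ _ => ∀ x, (toRc L b G k A C r U).le x x) :=
  all1 (P := fun U _ x => (toRc L b G k A C r U).le x x) (axu_le L b G k A C r _ () ())

theorem h_antisymm : UDef (LR L b G k A C r) Empty
    (fun U _ _ => ∀ x y, (toRc L b G k A C r U).le x y → (toRc L b G k A C r U).le y x →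
      x = y) :=
  all2 (P := fun U _ x y => (toRc L b G k A C r U).le x y →
    (toRc L b G k A C r U).le y x → x = y)
    ((axu_le L b G k A C r _ 0 1).imp ((axu_le L b G k A C r _ 1 0).imp (UDef.varEq 0 1)))

theorem h_trans : UDef (LR L b G k A C r) Empty
    (fun U _ _ => ∀ x y z, (toRc L b G k A C r U).le x y → (toRc L b G k A C r U).le y z →
      (toRc L b G k A C r U).le x z) :=
  all3 (P := fun U _ x y z => (toRc L b G k A C r U).le x y →
    (toRc L b G k A C r U).le y z → (toRc L b G k A C r U).le x z)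
    ((axu_le L b G k A C r _ 0 1).imp ((axu_le L b G k A C r _ 1 2).imp
      (axu_le L b G k A C r _ 0 2)))

theorem h_total : UDef (LR L b G k A C r) Empty
    (fun U _ _ => ∀ x y, (toRc L b G k A C r U).le x y ∨ (toRc L b G k A C r U).le y x) :=
  all2 (P := fun U _ x y => (toRc L b G k A C r U).le x y ∨ (toRc L b G k A C r U).le y x)
    ((axu_le L b G k A C r _ 0 1).or (axu_le L b G k A C r _ 1 0))

theorem h_add0 : UDef (LR L b G k A C r) Empty
    (fun U _ _ => ∀ x y z, (toRc L b G k A C r U).zero y →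
      ((toRc L b G k A C r U).add x y z ↔ x = z)) :=
  all3 (P := fun U _ x y z => (toRc L b G k A C r U).zero y →
      ((toRc L b G k A C r U).add x y z ↔ x = z))
    ((axu_zero L b G k A C r _ 1).imp ((axu_add L b G k A C r _ 0 1 2).iff (UDef.varEq 0 2)))

theorem h_addS : UDef (LR L b G k A C r) Empty
    (fun U _ _ => ∀ x y y' z', (toRc L b G k A C r U).succ y y' →
      ((toRc L b G k A C r U).add x y' z' ↔
        ∃ z, (toRc L b G k A C r U).add x y z ∧ (toRc L b G k A C r U).succ z z')) := by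
  refine all4 (P := fun U _ x y y' z' => (toRc L b G k A C r U).succ y y' →
      ((toRc L b G k A C r U).add x y' z' ↔
        ∃ z, (toRc L b G k A C r U).add x y z ∧ (toRc L b G k A C r U).succ z z')) ?_
  refine (axu_succ L b G k A C r _ 1 2).imp ((axu_add L b G k A C r _ 0 2 3).iff ?_)
  refine UDef.exu (P := fun U _ v z => (toRc L b G k A C r U).add (v 0) (v 1) z ∧
    (toRc L b G k A C r U).succ z (v 3)) ?_
  exact (axu_add L b G k A C r _ (Sum.inl 0) (Sum.inl 1) (Sum.inr ())).and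
    (axu_succ L b G k A C r _ (Sum.inr ()) (Sum.inl 3))

theorem h_wp_init : UDef (LR L b G k A C r) Empty
    (fun U _ _ => ∀ x y, (toRc L b G k A C r U).wp x → (toRc L b G k A C r U).le y x →
      (toRc L b G k A C r U).wp y) :=
  all2 (P := fun U _ x y => (toRc L b G k A C r U).wp x → (toRc L b G k A C r U).le y x →
      (toRc L b G k A C r U).wp y)
    ((axu_wp L b G k A C r _ 0).imp ((axu_le L b G k A C r _ 1 0).imp
      (axu_wp L b G k A C r _ 1)))

theorem h_wp_top : UDef (LR L b G k A C r) Empty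
    (fun U _ _ => ∃ x, ¬ (toRc L b G k A C r U).wp x) :=
  ex1 (P := fun U _ x => ¬ (toRc L b G k A C r U).wp x) (axu_wp L b G k A C r _ ()).not

theorem h_cert : UDef (LR L b G k A C r) Empty
    (fun U _ _ => ∀ x x' : Fin C → U, (∀ i, (toRc L b G k A C r U).a (x i)) →
      (∀ i, (toRc L b G k A C r U).a (x' i)) → x ≠ x' →
      ∃ i : Fin A → U, (∀ j, (toRc L b G k A C r U).wp (i j)) ∧
        ¬ ((toRc L b G k A C r U).cert x i ↔ (toRc L b G k A C r U).cert x' i)) := by
  refine UDef.all (β := Fin C) (P := fun U _ _ x => ∀ x' : Fin C → U,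
    (∀ i, (toRc L b G k A C r U).a (x i)) →
      (∀ i, (toRc L b G k A C r U).a (x' i)) → x ≠ x' →
      ∃ i : Fin A → U, (∀ j, (toRc L b G k A C r U).wp (i j)) ∧
        ¬ ((toRc L b G k A C r U).cert x i ↔ (toRc L b G k A C r U).cert x' i)) ?_
  refine UDef.all (β := Fin C) (P := fun U _ v x' =>
    (∀ i, (toRc L b G k A C r U).a (v (Sum.inr i))) →
      (∀ i, (toRc L b G k A C r U).a (x' i)) → (fun i => v (Sum.inr i)) ≠ x' →
      ∃ i : Fin A → U, (∀ j, (toRc L b G k A C r U).wp (i j)) ∧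
        ¬ ((toRc L b G k A C r U).cert (fun i => v (Sum.inr i)) i ↔
          (toRc L b G k A C r U).cert x' i)) ?_
  refine UDef.imp (UDef.allFin fun i => axu_a L b G k A C r _ (Sum.inl (Sum.inr i))) ?_
  refine UDef.imp (UDef.allFin fun i => axu_a L b G k A C r _ (Sum.inr i)) ?_
  refine UDef.imp (tupEq (fun i => Sum.inl (Sum.inr i)) (fun i => Sum.inr i)).not ?_
  refine UDef.ex (β := Fin A) (P := fun U _ v i => (∀ j, (toRc L b G k A C r U).wp (i j)) ∧
        ¬ ((toRc L b G k A C r U).cert (fun i => v (Sum.inl (Sum.inr i))) i ↔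
          (toRc L b G k A C r U).cert (fun i => v (Sum.inr i)) i)) ?_
  exact (UDef.allFin fun j => axu_wp L b G k A C r _ (Sum.inr j)).and
    ((axu_cert L b G k A C r _ (fun i => Sum.inl (Sum.inl (Sum.inr i))) (fun i => Sum.inr i)).iff
      (axu_cert L b G k A C r _ (fun i => Sum.inl (Sum.inr i)) (fun i => Sum.inr i))).not

theorem h_sz_ex : UDef (LR L b G k A C r) Empty
    (fun U _ _ => ∀ α κ, ∃ y, (toRc L b G k A C r U).sz α κ y ∧
      (toRc L b G k A C r U).small y ∧ ∀ y', (toRc L b G k A C r U).sz α κ y' → y' = y) := by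
  refine UDef.allFin fun γ => ?_
  refine all1 (P := fun U _ κ => ∃ y, (toRc L b G k A C r U).sz γ κ y ∧
      (toRc L b G k A C r U).small y ∧ ∀ y', (toRc L b G k A C r U).sz γ κ y' → y' = y) ?_
  refine UDef.exu (P := fun U _ v y => (toRc L b G k A C r U).sz γ (v ()) y ∧
      (toRc L b G k A C r U).small y ∧
        ∀ y', (toRc L b G k A C r U).sz γ (v ()) y' → y' = y) ?_
  refine (axu_sz L b G k A C r _ γ (Sum.inl ()) (Sum.inr ())).and
    ((axu_small L b G k A C r _ (Sum.inr ())).and ?_)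
  refine UDef.allu (P := fun U _ v y' => (toRc L b G k A C r U).sz γ (v (Sum.inl ())) y' →
    y' = v (Sum.inr ())) ?_
  exact (axu_sz L b G k A C r _ γ (Sum.inl (Sum.inl ())) (Sum.inr ())).imp
    (UDef.varEq (Sum.inr ()) (Sum.inl (Sum.inr ())))

section Fin

variable [hf : Finite (Σ n, L.Relations n)]

theorem h_cl_sz : UDef (LR L b G k A C r) Empty
    (fun U _ _ => ∀ κ α y, (toRc L b G k A C r U).small y → ∃ κ',
      (toRc L b G k A C r U).sz α κ' y ∧
      (∀ α', α' ≠ α → ∀ z, (toRc L b G k A C r U).sz α' κ' z ↔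
        (toRc L b G k A C r U).sz α' κ z) ∧
      ∀ (s : Σ n, L.Relations n) (w : Fin s.1 → Win b (2 * rad G + 1)) (v : Fin s.1 → U),
        (∀ i, (toRc L b G k A C r U).wp (v i)) →
          ((toRc L b G k A C r U).bit s w κ' v ↔ (toRc L b G k A C r U).bit s w κ v)) := by
  refine UDef.allu (P := fun U _ _ κ => ∀ α y, (toRc L b G k A C r U).small y → ∃ κ',
      (toRc L b G k A C r U).sz α κ' y ∧
      (∀ α', α' ≠ α → ∀ z, (toRc L b G k A C r U).sz α' κ' z ↔
        (toRc L b G k A C r U).sz α' κ z) ∧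
      ∀ (s : Σ n, L.Relations n) (w : Fin s.1 → Win b (2 * rad G + 1)) (v : Fin s.1 → U),
        (∀ i, (toRc L b G k A C r U).wp (v i)) →
          ((toRc L b G k A C r U).bit s w κ' v ↔ (toRc L b G k A C r U).bit s w κ v)) ?_
  refine UDef.allFin fun γ => ?_
  refine UDef.allu (P := fun U _ m y => (toRc L b G k A C r U).small y → ∃ κ',
      (toRc L b G k A C r U).sz γ κ' y ∧
      (∀ α', α' ≠ γ → ∀ z, (toRc L b G k A C r U).sz α' κ' z ↔
        (toRc L b G k A C r U).sz α' (m (Sum.inr ())) z) ∧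
      ∀ (s : Σ n, L.Relations n) (w : Fin s.1 → Win b (2 * rad G + 1)) (v : Fin s.1 → U),
        (∀ i, (toRc L b G k A C r U).wp (v i)) →
          ((toRc L b G k A C r U).bit s w κ' v ↔
            (toRc L b G k A C r U).bit s w (m (Sum.inr ())) v)) ?_
  refine (axu_small L b G k A C r _ (Sum.inr ())).imp ?_
  refine UDef.exu (P := fun U _ m κ' =>
      (toRc L b G k A C r U).sz γ κ' (m (Sum.inr ())) ∧
      (∀ α', α' ≠ γ → ∀ z, (toRc L b G k A C r U).sz α' κ' z ↔
        (toRc L b G k A C r U).sz α' (m (Sum.inl (Sum.inr ()))) z) ∧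
      ∀ (s : Σ n, L.Relations n) (w : Fin s.1 → Win b (2 * rad G + 1)) (v : Fin s.1 → U),
        (∀ i, (toRc L b G k A C r U).wp (v i)) →
          ((toRc L b G k A C r U).bit s w κ' v ↔
            (toRc L b G k A C r U).bit s w (m (Sum.inl (Sum.inr ()))) v)) ?_
  refine (axu_sz L b G k A C r _ γ (Sum.inr ()) (Sum.inl (Sum.inr ()))).and (UDef.and ?_ ?_)
  · refine UDef.allFin fun γ' => (UDef.const _).imp ?_
    refine UDef.allu (P := fun U _ m z =>
      ((toRc L b G k A C r U).sz γ' (m (Sum.inr ())) z ↔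
        (toRc L b G k A C r U).sz γ' (m (Sum.inl (Sum.inl (Sum.inr ())))) z)) ?_
    exact (axu_sz L b G k A C r _ γ' (Sum.inl (Sum.inr ())) (Sum.inr ())).iff
      (axu_sz L b G k A C r _ γ' (Sum.inl (Sum.inl (Sum.inl (Sum.inr ())))) (Sum.inr ()))
  · refine UDef.allFin fun s => UDef.allFin fun w => ?_
    refine UDef.all (β := Fin s.1) (P := fun U _ m v =>
      (∀ i, (toRc L b G k A C r U).wp (v i)) →
          ((toRc L b G k A C r U).bit s w (m (Sum.inr ())) v ↔
            (toRc L b G k A C r U).bit s w (m (Sum.inl (Sum.inl (Sum.inr ())))) v)) ?_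
    refine (UDef.allFin fun i => axu_wp L b G k A C r _ (Sum.inr i)).imp ?_
    exact (axu_bit L b G k A C r _ s w (Sum.inl (Sum.inr ())) (fun i => Sum.inr i)).iff
      (axu_bit L b G k A C r _ s w (Sum.inl (Sum.inl (Sum.inl (Sum.inr ()))))
        (fun i => Sum.inr i))

theorem h_cl_bit : UDef (LR L b G k A C r) Empty
    (fun U _ _ => ∀ (κ : U) (s : Σ n, L.Relations n) (w : Fin s.1 → Win b (2 * rad G + 1))
      (v : Fin s.1 → U), (∀ i, (toRc L b G k A C r U).wp (v i)) → ∃ κ',
      (∀ α z, (toRc L b G k A C r U).sz α κ' z ↔ (toRc L b G k A C r U).sz α κ z) ∧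
      (∀ v' : Fin s.1 → U, (∀ i, (toRc L b G k A C r U).wp (v' i)) →
        ((toRc L b G k A C r U).bit s w κ' v' ↔
          ¬ ((toRc L b G k A C r U).bit s w κ v' ↔ v' = v))) ∧
      ∀ (s' : Σ n, L.Relations n) (w' : Fin s'.1 → Win b (2 * rad G + 1)),
        (⟨s', w'⟩ : Σ s : (Σ n, L.Relations n), Fin s.1 → Win b (2 * rad G + 1)) ≠ ⟨s, w⟩ →
        ∀ v' : Fin s'.1 → U, (∀ i, (toRc L b G k A C r U).wp (v' i)) →
          ((toRc L b G k A C r U).bit s' w' κ' v' ↔
            (toRc L b G k A C r U).bit s' w' κ v')) := by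
  refine UDef.allu (P := fun U _ _ κ => ∀ (s : Σ n, L.Relations n)
      (w : Fin s.1 → Win b (2 * rad G + 1))
      (v : Fin s.1 → U), (∀ i, (toRc L b G k A C r U).wp (v i)) → ∃ κ',
      (∀ α z, (toRc L b G k A C r U).sz α κ' z ↔ (toRc L b G k A C r U).sz α κ z) ∧
      (∀ v' : Fin s.1 → U, (∀ i, (toRc L b G k A C r U).wp (v' i)) →
        ((toRc L b G k A C r U).bit s w κ' v' ↔
          ¬ ((toRc L b G k A C r U).bit s w κ v' ↔ v' = v))) ∧
      ∀ (s' : Σ n, L.Relations n) (w' : Fin s'.1 → Win b (2 * rad G + 1)),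
        (⟨s', w'⟩ : Σ s : (Σ n, L.Relations n), Fin s.1 → Win b (2 * rad G + 1)) ≠ ⟨s, w⟩ →
        ∀ v' : Fin s'.1 → U, (∀ i, (toRc L b G k A C r U).wp (v' i)) →
          ((toRc L b G k A C r U).bit s' w' κ' v' ↔
            (toRc L b G k A C r U).bit s' w' κ v')) ?_
  refine UDef.allFin fun s => UDef.allFin fun w => ?_
  refine UDef.all (β := Fin s.1) (P := fun U _ m v =>
      (∀ i, (toRc L b G k A C r U).wp (v i)) → ∃ κ',
      (∀ α z, (toRc L b G k A C r U).sz α κ' z ↔
        (toRc L b G k A C r U).sz α (m (Sum.inr ())) z) ∧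
      (∀ v' : Fin s.1 → U, (∀ i, (toRc L b G k A C r U).wp (v' i)) →
        ((toRc L b G k A C r U).bit s w κ' v' ↔
          ¬ ((toRc L b G k A C r U).bit s w (m (Sum.inr ())) v' ↔ v' = v))) ∧
      ∀ (s' : Σ n, L.Relations n) (w' : Fin s'.1 → Win b (2 * rad G + 1)),
        (⟨s', w'⟩ : Σ s : (Σ n, L.Relations n), Fin s.1 → Win b (2 * rad G + 1)) ≠ ⟨s, w⟩ →
        ∀ v' : Fin s'.1 → U, (∀ i, (toRc L b G k A C r U).wp (v' i)) →
          ((toRc L b G k A C r U).bit s' w' κ' v' ↔
            (toRc L b G k A C r U).bit s' w' (m (Sum.inr ())) v')) ?_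
  refine (UDef.allFin fun i => axu_wp L b G k A C r _ (Sum.inr i)).imp ?_
  refine UDef.exu (P := fun U _ m κ' =>
      (∀ α z, (toRc L b G k A C r U).sz α κ' z ↔
        (toRc L b G k A C r U).sz α (m (Sum.inl (Sum.inr ()))) z) ∧
      (∀ v' : Fin s.1 → U, (∀ i, (toRc L b G k A C r U).wp (v' i)) →
        ((toRc L b G k A C r U).bit s w κ' v' ↔
          ¬ ((toRc L b G k A C r U).bit s w (m (Sum.inl (Sum.inr ()))) v' ↔
            v' = fun i => m (Sum.inr i)))) ∧
      ∀ (s' : Σ n, L.Relations n) (w' : Fin s'.1 → Win b (2 * rad G + 1)),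
        (⟨s', w'⟩ : Σ s : (Σ n, L.Relations n), Fin s.1 → Win b (2 * rad G + 1)) ≠ ⟨s, w⟩ →
        ∀ v' : Fin s'.1 → U, (∀ i, (toRc L b G k A C r U).wp (v' i)) →
          ((toRc L b G k A C r U).bit s' w' κ' v' ↔
            (toRc L b G k A C r U).bit s' w' (m (Sum.inl (Sum.inr ()))) v')) ?_
  refine UDef.and ?_ (UDef.and ?_ ?_)
  · refine UDef.allFin fun γ => ?_
    refine UDef.allu (P := fun U _ m z =>
      ((toRc L b G k A C r U).sz γ (m (Sum.inr ())) z ↔
        (toRc L b G k A C r U).sz γ (m (Sum.inl (Sum.inl (Sum.inr ())))) z)) ?_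
    exact (axu_sz L b G k A C r _ γ (Sum.inl (Sum.inr ())) (Sum.inr ())).iff
      (axu_sz L b G k A C r _ γ (Sum.inl (Sum.inl (Sum.inl (Sum.inr ())))) (Sum.inr ()))
  · refine UDef.all (β := Fin s.1) (P := fun U _ m v' =>
      (∀ i, (toRc L b G k A C r U).wp (v' i)) →
        ((toRc L b G k A C r U).bit s w (m (Sum.inr ())) v' ↔
          ¬ ((toRc L b G k A C r U).bit s w (m (Sum.inl (Sum.inl (Sum.inr ())))) v' ↔
            v' = fun i => m (Sum.inl (Sum.inr i))))) ?_
    refine (UDef.allFin fun i => axu_wp L b G k A C r _ (Sum.inr i)).imp ?_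
    exact (axu_bit L b G k A C r _ s w (Sum.inl (Sum.inr ())) (fun i => Sum.inr i)).iff
      ((axu_bit L b G k A C r _ s w (Sum.inl (Sum.inl (Sum.inl (Sum.inr ()))))
        (fun i => Sum.inr i)).iff
        (tupEq (fun i => Sum.inr i) (fun i => Sum.inl (Sum.inl (Sum.inr i))))).not
  · refine UDef.allFin fun s' => UDef.allFin fun w' => (UDef.const _).imp ?_
    refine UDef.all (β := Fin s'.1) (P := fun U _ m v' =>
      (∀ i, (toRc L b G k A C r U).wp (v' i)) →
          ((toRc L b G k A C r U).bit s' w' (m (Sum.inr ())) v' ↔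
            (toRc L b G k A C r U).bit s' w' (m (Sum.inl (Sum.inl (Sum.inr ())))) v')) ?_
    refine (UDef.allFin fun i => axu_wp L b G k A C r _ (Sum.inr i)).imp ?_
    exact (axu_bit L b G k A C r _ s' w' (Sum.inl (Sum.inr ())) (fun i => Sum.inr i)).iff
      (axu_bit L b G k A C r _ s' w' (Sum.inl (Sum.inl (Sum.inl (Sum.inr ()))))
        (fun i => Sum.inr i))

end Fin

theorem h_tup_ex : UDef (LR L b G k A C r) Empty
    (fun U _ _ => ∀ u, ∃ x : Fin (r + 1) → U, (∀ i, (toRc L b G k A C r U).a (x i)) ∧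
      (toRc L b G k A C r U).tup u x) := by
  refine all1 (P := fun U _ u => ∃ x : Fin (r + 1) → U,
    (∀ i, (toRc L b G k A C r U).a (x i)) ∧ (toRc L b G k A C r U).tup u x) ?_
  refine UDef.ex (β := Fin (r + 1)) (P := fun U _ v x =>
    (∀ i, (toRc L b G k A C r U).a (x i)) ∧ (toRc L b G k A C r U).tup (v ()) x) ?_
  exact (UDef.allFin fun i => axu_a L b G k A C r _ (Sum.inr i)).and
    (axu_tup L b G k A C r _ (Sum.inl ()) (fun i => Sum.inr i))

theorem h_tup_fun : UDef (LR L b G k A C r) Empty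
    (fun U _ _ => ∀ u (x x' : Fin (r + 1) → U), (toRc L b G k A C r U).tup u x →
      (toRc L b G k A C r U).tup u x' → x = x') := by
  refine all1 (P := fun U _ u => ∀ x x' : Fin (r + 1) → U,
    (toRc L b G k A C r U).tup u x → (toRc L b G k A C r U).tup u x' → x = x') ?_
  refine UDef.all (β := Fin (r + 1)) (P := fun U _ v x => ∀ x' : Fin (r + 1) → U,
    (toRc L b G k A C r U).tup (v ()) x → (toRc L b G k A C r U).tup (v ()) x' → x = x') ?_
  refine UDef.all (β := Fin (r + 1)) (P := fun U _ v x' =>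
    (toRc L b G k A C r U).tup (v (Sum.inl ())) (fun i => v (Sum.inr i)) →
      (toRc L b G k A C r U).tup (v (Sum.inl ())) x' → (fun i => v (Sum.inr i)) = x') ?_
  exact (axu_tup L b G k A C r _ (Sum.inl (Sum.inl ())) (fun i => Sum.inl (Sum.inr i))).imp
    ((axu_tup L b G k A C r _ (Sum.inl (Sum.inl ())) (fun i => Sum.inr i)).imp
      (tupEq (fun i => Sum.inl (Sum.inr i)) (fun i => Sum.inr i)))

theorem h_tup_inj : UDef (LR L b G k A C r) Empty
    (fun U _ _ => ∀ u u' (x : Fin (r + 1) → U), (toRc L b G k A C r U).tup u x →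
      (toRc L b G k A C r U).tup u' x → u = u') := by
  refine all2 (P := fun U _ u u' => ∀ x : Fin (r + 1) → U,
    (toRc L b G k A C r U).tup u x → (toRc L b G k A C r U).tup u' x → u = u') ?_
  refine UDef.all (β := Fin (r + 1)) (P := fun U _ v x =>
    (toRc L b G k A C r U).tup (v 0) x → (toRc L b G k A C r U).tup (v 1) x → v 0 = v 1) ?_
  exact (axu_tup L b G k A C r _ (Sum.inl 0) (fun i => Sum.inr i)).imp
    ((axu_tup L b G k A C r _ (Sum.inl 1) (fun i => Sum.inr i)).imp
      (UDef.varEq (Sum.inl 0) (Sum.inl 1)))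

theorem h_tup_surj : UDef (LR L b G k A C r) Empty
    (fun U _ _ => ∀ x : Fin (r + 1) → U, (∀ i, (toRc L b G k A C r U).a (x i)) →
      ∃ u, (toRc L b G k A C r U).tup u x) := by
  refine UDef.all (β := Fin (r + 1)) (P := fun U _ _ x =>
    (∀ i, (toRc L b G k A C r U).a (x i)) → ∃ u, (toRc L b G k A C r U).tup u x) ?_
  refine (UDef.allFin fun i => axu_a L b G k A C r _ (Sum.inr i)).imp ?_
  refine UDef.exu (P := fun U _ v u =>
    (toRc L b G k A C r U).tup u (fun i => v (Sum.inr i))) ?_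
  exact axu_tup L b G k A C r _ (Sum.inr ()) (fun i => Sum.inl (Sum.inr i))

theorem h_top_ex : UDef (LR L b G k A C r) Empty
    (fun U _ _ => ∃ σ, (toRc L b G k A C r U).top σ) :=
  ex1 (P := fun U _ σ => (toRc L b G k A C r U).top σ) (axu_top L b G k A C r _ ())

end AxU0

open AxU0 in
theorem udef_axA (L : FirstOrder.Language.{0, 0}) (b G k A C r : ℕ) :
    UDef (LR L b G k A C r) Empty (fun U _ _ => (toRc L b G k A C r U).AxA) := by
  refine ((h_refl L b G k A C r).and <| (h_antisymm L b G k A C r).and <|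
    (h_trans L b G k A C r).and <| (h_total L b G k A C r).and <|
    (h_add0 L b G k A C r).and <| (h_addS L b G k A C r).and <|
    (h_wp_init L b G k A C r).and <| (h_wp_top L b G k A C r).and <|
    (h_sz_ex L b G k A C r).and <|
    (h_tup_ex L b G k A C r).and <| (h_tup_fun L b G k A C r).and <|
    (h_tup_inj L b G k A C r).and <| (h_tup_surj L b G k A C r).and
    (h_top_ex L b G k A C r)).congr fun M _ v => ?_
  constructor
  · rintro ⟨h1, h2, h3, h4, h5, h6, h7, h8, h9, h10, h11, h12, h13, h14⟩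
    exact ⟨h1, h2, h3, h4, h5, h6, h7, h8, h9, h10, h11, h12, h13, h14⟩
  · intro h
    exact ⟨h.refl, h.antisymm, h.trans, h.total, h.add0, h.addS, h.wp_init, h.wp_top,
      h.sz_ex, h.tup_ex, h.tup_fun, h.tup_inj, h.tup_surj, h.top_ex⟩

open AxU0 in
theorem udef_ax0 (L : FirstOrder.Language.{0, 0}) (hf : Finite (Σ n, L.Relations n))
    (b G k A C r : ℕ) :
    UDef (LR L b G k A C r) Empty (fun U _ _ => (toRc L b G k A C r U).Ax0) := by
  refine ((udef_axA L b G k A C r).and <|
    (h_cert L b G k A C r).and <|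
    (h_cl_sz L b G k A C r).and (h_cl_bit L b G k A C r)).congr fun M _ v => ?_
  constructor
  · rintro ⟨h0, h1, h2, h3⟩
    exact { h0 with cert := h1, cl_sz := h2, cl_bit := h3 }
  · intro h
    exact ⟨h.toAxA, h.cert, h.cl_sz, h.cl_bit⟩

end Pool.Agent.Helper72.TX
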