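import Mathlib
import Pool.Agent.Helper72.TX.AxU
import Pool.Agent.Helper72.TX.LtMap
import Pool.Agent.Helper72.TX.Td

set_option autoImplicit false

/-!
# TW-20: types of points of coded windows are definable

`udef_lt`: induction on `g` (with `m`, `γ`, `x`, `β` generalised). `aty … = …` is a finite conjunction: for each relation
symbol `s` and each `w : Fin s.1 → Fin m` the statement `(R.win κ).rel s.1 s.2 (…) ↔ τ…` (`udef_winRel`), equality of two
points `(γ i, x i) = (γ j, x j)` (constant part `γ i = γ j`), and the distances, which depend only on `γ`. For `g + 1`: the set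
of types of extensions is `t.2` iff for all `t' : LT L g (m+1)`: `t' ∈ t.2 ↔ ∃ (γ' : Win …) u, D (γ', u) ∧ (∃ i, td γ' (γ i) ≤ 3 ^ g) ∧ lt … = t'`
(points in `D` have addresses of length at most `2 * rad G + 1`; finitely many `γ'`, finitely many `t'` by `finite_LT`).
-/

namespace Pool.Agent.Helper72.TX

open FirstOrder FirstOrder.Language Pool.Agent.Helper87.AU

variable (L : FirstOrder.Language.{0, 0}) (b G k A C r : ℕ)

theorem udef_winD (β : Type) (κ : β) (γ : Adr b) (x : β) :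
    UDef (LR L b G k A C r) β (fun U _ v =>
      ((toRc L b G k A C r U).win (v κ)).D (γ, v x)) := by
  by_cases h : γ.length ≤ 2 * rad G + 1
  · refine UDef.congr (P := fun U _ v => ∃ y, (toRc L b G k A C r U).sz ⟨γ, h⟩ (v κ) y ∧
      (toRc L b G k A C r U).ltt (v x) y) ?_ ?_
    · exact UDef.exu (P := fun U _ v y => (toRc L b G k A C r U).sz ⟨γ, h⟩ (v κ) y ∧
        (toRc L b G k A C r U).ltt (v x) y)
        ((axu_sz L b G k A C r (β ⊕ Unit) ⟨γ, h⟩ (Sum.inl κ) (Sum.inr ())).and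
          (axu_ltt L b G k A C r (β ⊕ Unit) (Sum.inl x) (Sum.inr ())))
    · intro U _ v
      exact ⟨fun ⟨y, hy⟩ => ⟨h, y, hy⟩, fun ⟨_, y, hy⟩ => ⟨y, hy⟩⟩
  · refine (UDef.const False).congr ?_
    intro U _ v
    exact ⟨fun hf => hf.elim, fun ⟨h', _⟩ => h h'⟩

theorem udef_winRel (β : Type) (κ : β) (n : ℕ) (P : L.Relations n) (γ : Fin n → Adr b)
    (x : Fin n → β) :
    UDef (LR L b G k A C r) β (fun U _ v =>
      ((toRc L b G k A C r U).win (v κ)).rel n P (fun i => (γ i, v (x i)))) := by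
  by_cases h : ∀ i, (γ i).length ≤ 2 * rad G + 1
  · refine UDef.congr (P := fun U _ v =>
      (toRc L b G k A C r U).bit ⟨n, P⟩ (fun i => ⟨γ i, h i⟩) (v κ) (fun i => v (x i)) ∧
        ∀ i j, td (γ i) (γ j) ≤ 1) ?_ ?_
    · exact (axu_bit L b G k A C r β ⟨n, P⟩ (fun i => ⟨γ i, h i⟩) κ x).and
        (UDef.const (∀ i j, td (γ i) (γ j) ≤ 1))
    · intro U _ v
      exact ⟨fun ⟨h1, h2⟩ => ⟨⟨h, h1⟩, h2⟩, fun ⟨⟨_, h1⟩, h2⟩ => ⟨h1, h2⟩⟩
  · refine (UDef.const False).congr ?_
    intro U _ v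
    exact ⟨fun hf => hf.elim, fun ⟨⟨h', _⟩, _⟩ => h h'⟩

private theorem udef_aty (hf : Finite (Σ n, L.Relations n)) (g m : ℕ) (β : Type) (κ : β)
    (γ : Fin m → Adr b) (x : Fin m → β) (t : At L g m) :
    UDef (LR L b G k A C r) β (fun U _ v =>
      aty ((toRc L b G k A C r U).win (v κ)) dX g (fun i => (γ i, v (x i))) = t) := by
  have h1 : UDef (LR L b G k A C r) β (fun U _ v => ∀ (s : Σ n, L.Relations n)
      (w : Fin s.1 → Fin m), (((toRc L b G k A C r U).win (v κ)).rel s.1 s.2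
        (fun i => (γ (w i), v (x (w i)))) ↔ t.1 s w)) := by
    refine UDef.allFin fun s => UDef.allFin fun w => ?_
    exact (udef_winRel L b G k A C r β κ s.1 s.2 (fun i => γ (w i)) (fun i => x (w i))).iff
      (UDef.const (t.1 s w))
  have h2 : UDef (LR L b G k A C r) β (fun U _ v => ∀ (i j : Fin m),
      ((γ i = γ j ∧ v (x i) = v (x j)) ↔ t.2.1 i j)) := by
    refine UDef.allFin fun i => UDef.allFin fun j => ?_
    exact ((UDef.const (γ i = γ j)).and (UDef.varEq (x i) (x j))).iff (UDef.const (t.2.1 i j))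
  have h3 : UDef (LR L b G k A C r) β (fun _ _ _ => ∀ (i j : Fin m),
      (⟨min (td (γ i) (γ j)) (3 ^ g + 1), by omega⟩ : Fin (3 ^ g + 2)) = t.2.2 i j) :=
    UDef.const _
  refine ((h1.and h2).and h3).congr ?_
  intro U _ v
  constructor
  · rintro ⟨⟨a1, a2⟩, a3⟩
    refine Prod.ext ?_ (Prod.ext ?_ ?_)
    · funext s w
      exact propext (a1 s w)
    · funext i j
      refine propext ?_
      rw [← a2 i j]
      exact Prod.ext_iff
    · funext i j
      exact a3 i j
  · rintro rfl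
    refine ⟨⟨fun s w => Iff.rfl, fun i j => ?_⟩, fun i j => rfl⟩
    change (γ i = γ j ∧ v (x i) = v (x j)) ↔ ((γ i, v (x i)) = (γ j, v (x j)))
    exact (Prod.ext_iff (x := (γ i, v (x i))) (y := (γ j, v (x j)))).symm

theorem udef_lt (hf : Finite (Σ n, L.Relations n)) (g m : ℕ) (β : Type) (κ : β)
    (γ : Fin m → Adr b) (x : Fin m → β) (t : LT L g m) :
    UDef (LR L b G k A C r) β (fun U _ v =>
      lt ((toRc L b G k A C r U).win (v κ)) dX g m (fun i => (γ i, v (x i))) = t) := by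
  induction g generalizing m β with
  | zero => exact udef_aty L b G k A C r hf 0 m β κ γ x t
  | succ g ih =>
    have : Finite (LT L g (m + 1)) := finite_LT hf g (m + 1)
    have : Finite (Win b (2 * rad G + 1)) := finite_adr (2 * rad G + 1)
    have h1 := udef_aty L b G k A C r hf (g + 1) m β κ γ x t.1
    have h2 : UDef (LR L b G k A C r) β (fun U _ v => ∀ t' : LT L g (m + 1),
        ((∃ γ' : Win b (2 * rad G + 1), ∃ u : U,
          ((toRc L b G k A C r U).win (v κ)).D (γ'.1, u) ∧ (∃ i, td γ'.1 (γ i) ≤ 3 ^ g) ∧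
          lt ((toRc L b G k A C r U).win (v κ)) dX g (m + 1)
            (Fin.snoc (α := fun _ => Adr b × U) (fun i => (γ i, v (x i))) (γ'.1, u)) = t') ↔
          t' ∈ t.2)) := by
      refine UDef.allFin fun t' => (UDef.exFin fun γ' => ?_).iff (UDef.const (t' ∈ t.2))
      refine UDef.exu (P := fun U _ v u => ((toRc L b G k A C r U).win (v κ)).D (γ'.1, u) ∧
        (∃ i, td γ'.1 (γ i) ≤ 3 ^ g) ∧ lt ((toRc L b G k A C r U).win (v κ)) dX g (m + 1)
            (Fin.snoc (α := fun _ => Adr b × U) (fun i => (γ i, v (x i))) (γ'.1, u)) = t') ?_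
      refine ((udef_winD L b G k A C r (β ⊕ Unit) (Sum.inl κ) γ'.1 (Sum.inr ())).and
        ((UDef.const (∃ i, td γ'.1 (γ i) ≤ 3 ^ g)).and
        (ih (m + 1) (β ⊕ Unit) (Sum.inl κ) (Fin.snoc (α := fun _ => Adr b) γ γ'.1)
          (Fin.snoc (α := fun _ => β ⊕ Unit) (fun i => Sum.inl (x i)) (Sum.inr ())) t'))).congr ?_
      intro U _ v
      have he : (fun i => (Fin.snoc (α := fun _ => Adr b) γ γ'.1 i,
          v (Fin.snoc (α := fun _ => β ⊕ Unit) (fun i => Sum.inl (x i)) (Sum.inr ()) i))) =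
          (Fin.snoc (α := fun _ => Adr b × U) (fun i => (γ i, (v ∘ Sum.inl) (x i)))
            (γ'.1, v (Sum.inr ()))) := by
        funext i
        refine Fin.lastCases ?_ (fun j => ?_) i
        · simp
        · simp
      rw [he]
      exact Iff.rfl
    refine (h1.and h2).congr ?_
    intro U _ v
    constructor
    · rintro ⟨a1, a2⟩
      refine Prod.ext a1 ?_
      refine Set.ext fun t' => ?_
      rw [← a2 t']
      constructor
      · rintro ⟨⟨γ', u⟩, hD, hi, hl⟩
        obtain ⟨h, hh⟩ := hD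
        exact ⟨⟨γ', h⟩, u, ⟨h, hh⟩, hi, hl⟩
      · rintro ⟨γ', u, hD, hi, hl⟩
        exact ⟨(γ'.1, u), hD, hi, hl⟩
    · rintro rfl
      refine ⟨rfl, fun t' => ?_⟩
      constructor
      · rintro ⟨γ', u, hD, hi, hl⟩
        exact ⟨(γ'.1, u), hD, hi, hl⟩
      · rintro ⟨⟨γ', u⟩, hD, hi, hl⟩
        obtain ⟨h, hh⟩ := hD
        exact ⟨⟨γ', h⟩, u, ⟨h, hh⟩, hi, hl⟩

theorem udef_ti (hf : Finite (Σ n, L.Relations n)) (β : Type) (κ : β) (θ : TI L b G) :
    UDef (LR L b G k A C r) β (fun U _ v => (toRc L b G k A C r U).ti (v κ) = θ) := by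
  have : ∀ g : Fin (G + 1), Finite (LT L g.1 1) := fun g => finite_LT hf g.1 1
  have : Finite (Ty L G) := inferInstanceAs (Finite (Σ g : Fin (G + 1), LT L g.1 1))
  have : Finite {α : Adr b // α.length ≤ rad G} := finite_adr (rad G)
  have h1 : UDef (LR L b G k A C r) β (fun U _ v => ∀ (α : {α : Adr b // α.length ≤ rad G})
      (t : Ty L G), ((∃ u : U, ((toRc L b G k A C r U).win (v κ)).D (α.1, u) ∧
        lt ((toRc L b G k A C r U).win (v κ)) dX t.1.1 1 (fun _ => (α.1, u)) = t.2) ↔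
        θ α t)) := by
    refine UDef.allFin fun α => UDef.allFin fun t => UDef.iff ?_ (UDef.const (θ α t))
    refine UDef.exu (P := fun U _ v u => ((toRc L b G k A C r U).win (v κ)).D (α.1, u) ∧
        lt ((toRc L b G k A C r U).win (v κ)) dX t.1.1 1 (fun _ => (α.1, u)) = t.2) ?_
    exact (udef_winD L b G k A C r (β ⊕ Unit) (Sum.inl κ) α.1 (Sum.inr ())).and
      (udef_lt L b G k A C r hf t.1.1 1 (β ⊕ Unit) (Sum.inl κ) (fun _ => α.1)
        (fun _ => Sum.inr ()) t.2)
  refine h1.congr ?_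
  intro U _ v
  constructor
  · intro h
    funext α t
    exact propext (h α t)
  · rintro rfl
    exact fun α t => Iff.rfl

end Pool.Agent.Helper72.TX
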