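import Mathlib
import Pool.Agent.Helper72.TX.AxU0
import Pool.Agent.Helper72.TX.AxU1

set_option autoImplicit false

/-!
# TW-21: the axioms are given by a sentence

`udef_weq`, `udef_step` (for `Q = (toRc … U).reach`): `F = upd G k (fun i => R.ti (κ' i)) F'` is
`∃ θ : Fin b → TI L b G, (∀ i, R.ti (κ' i) = θ i) ∧ F = upd G k θ F'` (finite type `TI L b G`: `finite_LT`, `finite_adr`), a finite
disjunction. `reach_rec` quantifies over `F` in the finite type `FI L b G k`. `final`: `Good (R.ti κ) F` is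
`∃ θ, R.ti κ = θ ∧ Good θ F`. Then `UDef.exists_sentence`.
-/

namespace Pool.Agent.Helper72.TX

open FirstOrder FirstOrder.Language Pool.Agent.Helper87.AU

theorem ax2_finite_Ty {L : FirstOrder.Language.{0, 0}} (hf : Finite (Σ n, L.Relations n))
    (G : ℕ) : Finite (Ty L G) := by
  have : ∀ g : Fin (G + 1), Finite (LT L g.1 1) := fun g => finite_LT hf g.1 1
  unfold Ty
  infer_instance

theorem finite_TI {L : FirstOrder.Language.{0, 0}} (hf : Finite (Σ n, L.Relations n))
    (b G : ℕ) : Finite (TI L b G) := by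
  have : Finite (Ty L G) := ax2_finite_Ty hf G
  have : Finite {α : Adr b // α.length ≤ rad G} := finite_adr (rad G)
  unfold TI
  infer_instance

theorem finite_FI {L : FirstOrder.Language.{0, 0}} (hf : Finite (Σ n, L.Relations n))
    (b G k : ℕ) : Finite (FI L b G k) := by
  have : Finite (Ty L G) := ax2_finite_Ty hf G
  have : Finite {α : Adr b // α.length = rad G + 1} := finite_adr' (rad G + 1)
  unfold FI Inf
  infer_instance

/-- All relation symbols. -/
def ax2_sym (L : FirstOrder.Language.{0, 0}) (b G k A C r : ℕ) :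
    Fin 6 ⊕ (Win b (2 * rad G + 1) ⊕ ((Σ s : (Σ n, L.Relations n),
      (Fin s.1 → Win b (2 * rad G + 1))) ⊕ FI L b G k)) → (Σ n, (LR L b G k A C r).Relations n)
  | Sum.inl 0 => ⟨1, RR.a⟩
  | Sum.inl 1 => ⟨2, RR.le⟩
  | Sum.inl 2 => ⟨3, RR.add⟩
  | Sum.inl 3 => ⟨1, RR.wp⟩
  | Sum.inl 4 => ⟨C + A, RR.cert⟩
  | Sum.inl 5 => ⟨1 + (r + 1), RR.tup⟩
  | Sum.inr (Sum.inl α) => ⟨2, RR.sz α⟩
  | Sum.inr (Sum.inr (Sum.inl p)) => ⟨1 + p.1.1, RR.bit p.1 p.2⟩
  | Sum.inr (Sum.inr (Sum.inr F)) => ⟨2, RR.reach F⟩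

theorem finVoc_LR {L : FirstOrder.Language.{0, 0}} (hf : Finite (Σ n, L.Relations n))
    (b G k A C r : ℕ) : Finite (Σ n, (LR L b G k A C r).Relations n) := by
  have := hf
  have : Finite (Win b (2 * rad G + 1)) := finite_adr (2 * rad G + 1)
  have : Finite (FI L b G k) := finite_FI hf b G k
  refine Finite.of_surjective (ax2_sym L b G k A C r) ?_
  rintro ⟨n, R⟩
  cases R with
  | a => exact ⟨Sum.inl 0, rfl⟩
  | le => exact ⟨Sum.inl 1, rfl⟩
  | add => exact ⟨Sum.inl 2, rfl⟩
  | wp => exact ⟨Sum.inl 3, rfl⟩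
  | cert => exact ⟨Sum.inl 4, rfl⟩
  | sz α => exact ⟨Sum.inr (Sum.inl α), rfl⟩
  | bit s w => exact ⟨Sum.inr (Sum.inr (Sum.inl ⟨s, w⟩)), rfl⟩
  | reach F => exact ⟨Sum.inr (Sum.inr (Sum.inr F)), rfl⟩
  | tup => exact ⟨Sum.inl 5, rfl⟩

section

variable {L : FirstOrder.Language.{0, 0}} (hf : Finite (Σ n, L.Relations n)) {b G k : ℕ}
  (A C r : ℕ)

include hf

theorem ax2_weq (i : Fin b) (β : Type) (κ κ' : β) :
    UDef (LR L b G k A C r) β (fun U _ v =>
      (toRc L b G k A C r U).weq i (v κ) (v κ')) := by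
  have := hf
  have : Finite (Win b (2 * rad G)) := finite_adr (2 * rad G)
  refine UDef.and ?_ ?_
  · refine UDef.allFin fun α => ?_
    refine UDef.allu (P := fun U _ v z =>
      (toRc L b G k A C r U).sz (winCons i α) (v κ) z ↔
        (toRc L b G k A C r U).sz (winIncl α) (v κ') z) ?_
    exact (axu_sz L b G k A C r _ (winCons i α) (Sum.inl κ) (Sum.inr ())).iff
      (axu_sz L b G k A C r _ (winIncl α) (Sum.inl κ') (Sum.inr ()))
  · refine UDef.allFin fun s => UDef.allFin fun w => UDef.imp (UDef.const _) ?_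
    refine UDef.all (P := fun U _ v u =>
      (∀ j, ((toRc L b G k A C r U).win (v κ')).D ((w j).1, u j)) →
        ((toRc L b G k A C r U).bit s (fun j => winCons i (w j)) (v κ) u ↔
          (toRc L b G k A C r U).bit s (fun j => winIncl (w j)) (v κ') u)) ?_
    refine UDef.imp (UDef.allFin fun j => ?_) (UDef.iff ?_ ?_)
    · exact udef_winD L b G k A C r _ (Sum.inl κ') (w j).1 (Sum.inr j)
    · exact axu_bit L b G k A C r _ s (fun j => winCons i (w j)) (Sum.inl κ)
        (fun j => Sum.inr j)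
    · exact axu_bit L b G k A C r _ s (fun j => winIncl (w j)) (Sum.inl κ')
        (fun j => Sum.inr j)

theorem ax2_upd (β : Type) (κ' : Fin b → β) (F : FI L b G k) (F' : Fin b → FI L b G k) :
    UDef (LR L b G k A C r) β (fun U _ v =>
      F = upd G k (fun i => (toRc L b G k A C r U).ti (v (κ' i))) F') := by
  have : Finite (TI L b G) := finite_TI hf b G
  have h1 : UDef (LR L b G k A C r) β (fun U _ v => ∃ θ : Fin b → TI L b G,
      (∀ i, (toRc L b G k A C r U).ti (v (κ' i)) = θ i) ∧ F = upd G k θ F') :=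
    UDef.exFin fun θ => (UDef.allFin fun i => udef_ti L b G k A C r hf β (κ' i) (θ i)).and
      (UDef.const _)
  refine h1.congr fun U _ v => ⟨?_, ?_⟩
  · rintro ⟨θ, hθ, hF⟩
    have e : (fun i => (toRc L b G k A C r U).ti (v (κ' i))) = θ := funext hθ
    rw [e]
    exact hF
  · intro hF
    exact ⟨_, fun i => rfl, hF⟩

theorem ax2_step (F : FI L b G k) (β : Type) (κ σ : β) :
    UDef (LR L b G k A C r) β (fun U _ v =>
      (toRc L b G k A C r U).Step (toRc L b G k A C r U).reach F (v κ) (v σ)) := by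
  have : Finite (Win b (2 * rad G + 1)) := finite_adr (2 * rad G + 1)
  have : Finite (FI L b G k) := finite_FI hf b G k
  refine UDef.or ?_ ?_
  · refine (axu_zero L b G k A C r β σ).and (UDef.and (UDef.allFin fun α => ?_) (UDef.const _))
    refine UDef.exu (P := fun U _ v y => (toRc L b G k A C r U).sz α (v κ) y ∧
      (toRc L b G k A C r U).zero y) ?_
    exact (axu_sz L b G k A C r _ α (Sum.inl κ) (Sum.inr ())).and
      (axu_zero L b G k A C r _ (Sum.inr ()))
  · refine UDef.exu (P := fun U _ v y =>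
      (toRc L b G k A C r U).sz ⟨[], Nat.zero_le _⟩ (v κ) y ∧ ¬ (toRc L b G k A C r U).zero y ∧
      ∃ (κ' σ' : Fin b → U) (t : Fin (b + 1) → U) (F' : Fin b → FI L b G k),
        (∀ i, (toRc L b G k A C r U).reach (F' i) (κ' i) (σ' i)) ∧ t 0 = y ∧
        (∀ i : Fin b, (toRc L b G k A C r U).add (t i.castSucc) (σ' i) (t i.succ)) ∧
        t (Fin.last b) = v σ ∧
        (∀ i, (toRc L b G k A C r U).weq i (v κ) (κ' i)) ∧
        F = upd G k (fun i => (toRc L b G k A C r U).ti (κ' i)) F') ?_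
    refine (axu_sz L b G k A C r _ ⟨[], Nat.zero_le _⟩ (Sum.inl κ) (Sum.inr ())).and
      ((axu_zero L b G k A C r _ (Sum.inr ())).not.and ?_)
    refine UDef.ex (β := Fin b) (P := fun U _ v κ' =>
      ∃ (σ' : Fin b → U) (t : Fin (b + 1) → U) (F' : Fin b → FI L b G k),
        (∀ i, (toRc L b G k A C r U).reach (F' i) (κ' i) (σ' i)) ∧ t 0 = v (Sum.inr ()) ∧
        (∀ i : Fin b, (toRc L b G k A C r U).add (t i.castSucc) (σ' i) (t i.succ)) ∧
        t (Fin.last b) = v (Sum.inl σ) ∧
        (∀ i, (toRc L b G k A C r U).weq i (v (Sum.inl κ)) (κ' i)) ∧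
        F = upd G k (fun i => (toRc L b G k A C r U).ti (κ' i)) F') ?_
    refine UDef.ex (β := Fin b) (P := fun U _ v σ' =>
      ∃ (t : Fin (b + 1) → U) (F' : Fin b → FI L b G k),
        (∀ i, (toRc L b G k A C r U).reach (F' i) (v (Sum.inr i)) (σ' i)) ∧
        t 0 = v (Sum.inl (Sum.inr ())) ∧
        (∀ i : Fin b, (toRc L b G k A C r U).add (t i.castSucc) (σ' i) (t i.succ)) ∧
        t (Fin.last b) = v (Sum.inl (Sum.inl σ)) ∧
        (∀ i, (toRc L b G k A C r U).weq i (v (Sum.inl (Sum.inl κ))) (v (Sum.inr i))) ∧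
        F = upd G k (fun i => (toRc L b G k A C r U).ti (v (Sum.inr i))) F') ?_
    refine UDef.ex (β := Fin (b + 1)) (P := fun U _ v t =>
      ∃ (F' : Fin b → FI L b G k),
        (∀ i, (toRc L b G k A C r U).reach (F' i) (v (Sum.inl (Sum.inr i))) (v (Sum.inr i))) ∧
        t 0 = v (Sum.inl (Sum.inl (Sum.inr ()))) ∧
        (∀ i : Fin b, (toRc L b G k A C r U).add (t i.castSucc) (v (Sum.inr i)) (t i.succ)) ∧
        t (Fin.last b) = v (Sum.inl (Sum.inl (Sum.inl σ))) ∧
        (∀ i, (toRc L b G k A C r U).weq i (v (Sum.inl (Sum.inl (Sum.inl κ))))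
          (v (Sum.inl (Sum.inr i)))) ∧
        F = upd G k (fun i => (toRc L b G k A C r U).ti (v (Sum.inl (Sum.inr i)))) F') ?_
    refine UDef.exFin fun F' => ?_
    refine UDef.and (UDef.allFin fun i => ?_) (UDef.and (UDef.varEq _ _) (UDef.and
      (UDef.allFin fun i => ?_) (UDef.and (UDef.varEq _ _) (UDef.and
        (UDef.allFin fun i => ?_) ?_))))
    · exact axu_reach L b G k A C r _ (F' i) (Sum.inl (Sum.inl (Sum.inr i)))
        (Sum.inl (Sum.inr i))
    · exact axu_add L b G k A C r _ (Sum.inr i.castSucc) (Sum.inl (Sum.inr i)) (Sum.inr i.succ)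
    · exact ax2_weq hf A C r i _ (Sum.inl (Sum.inl (Sum.inl (Sum.inl κ))))
        (Sum.inl (Sum.inl (Sum.inr i)))
    · exact ax2_upd hf A C r _ (fun i => Sum.inl (Sum.inl (Sum.inr i))) F F'

theorem ax2_good (Good : TI L b G → FI L b G k → Prop) (F : FI L b G k) (β : Type) (κ : β) :
    UDef (LR L b G k A C r) β (fun U _ v => Good ((toRc L b G k A C r U).ti (v κ)) F) := by
  have : Finite (TI L b G) := finite_TI hf b G
  have h1 : UDef (LR L b G k A C r) β (fun U _ v => ∃ θ : TI L b G,
      (toRc L b G k A C r U).ti (v κ) = θ ∧ Good θ F) :=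
    UDef.exFin fun θ => (udef_ti L b G k A C r hf β κ θ).and (UDef.const _)
  refine h1.congr fun U _ v => ⟨?_, fun h => ⟨_, rfl, h⟩⟩
  rintro ⟨θ, hθ, h⟩
  rw [hθ]
  exact h

end

theorem udef_axR {L : FirstOrder.Language.{0, 0}} (hf : Finite (Σ n, L.Relations n))
    (b G k A C r : ℕ) (Good : TI L b G → FI L b G k → Prop) :
    UDef (LR L b G k A C r) Empty (fun U _ _ => (toRc L b G k A C r U).AxR Good) := by
  have : Finite (FI L b G k) := finite_FI hf b G k
  have h1 : UDef (LR L b G k A C r) Empty (fun U _ _ =>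
      (∀ (F : FI L b G k) (κ σ : U), (toRc L b G k A C r U).reach F κ σ ↔
        (toRc L b G k A C r U).Step (toRc L b G k A C r U).reach F κ σ) ∧
      (∀ (F : FI L b G k) (κ σ : U), (toRc L b G k A C r U).top σ →
        (toRc L b G k A C r U).reach F κ σ → ¬ Good ((toRc L b G k A C r U).ti κ) F)) := by
    refine UDef.and (UDef.allFin fun F => ?_) (UDef.allFin fun F => ?_)
    · refine UDef.allu (P := fun U _ _ κ => ∀ σ : U, (toRc L b G k A C r U).reach F κ σ ↔
        (toRc L b G k A C r U).Step (toRc L b G k A C r U).reach F κ σ) ?_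
      refine UDef.allu (P := fun U _ v σ =>
        (toRc L b G k A C r U).reach F (v (Sum.inr ())) σ ↔
        (toRc L b G k A C r U).Step (toRc L b G k A C r U).reach F (v (Sum.inr ())) σ) ?_
      exact (axu_reach L b G k A C r _ F (Sum.inl (Sum.inr ())) (Sum.inr ())).iff
        (ax2_step hf A C r F _ (Sum.inl (Sum.inr ())) (Sum.inr ()))
    · refine UDef.allu (P := fun U _ _ κ => ∀ σ : U, (toRc L b G k A C r U).top σ →
        (toRc L b G k A C r U).reach F κ σ → ¬ Good ((toRc L b G k A C r U).ti κ) F) ?_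
      refine UDef.allu (P := fun U _ v σ => (toRc L b G k A C r U).top σ →
        (toRc L b G k A C r U).reach F (v (Sum.inr ())) σ →
          ¬ Good ((toRc L b G k A C r U).ti (v (Sum.inr ()))) F) ?_
      exact (axu_top L b G k A C r _ (Sum.inr ())).imp
        ((axu_reach L b G k A C r _ F (Sum.inl (Sum.inr ())) (Sum.inr ())).imp
          (ax2_good hf A C r Good F _ (Sum.inl (Sum.inr ()))).not)
  exact h1.congr fun U _ _ => ⟨fun h => ⟨h.1, h.2⟩, fun h => ⟨h.reach_rec, h.final⟩⟩

theorem ax_sentence {L : FirstOrder.Language.{0, 0}} (hf : Finite (Σ n, L.Relations n))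
    (b G k A C r : ℕ) (Good : TI L b G → FI L b G k → Prop) :
    ∃ σ : (LR L b G k A C r).Sentence, ∀ (U : Type) [(LR L b G k A C r).Structure U],
      σ.Realize U ↔ (toRc L b G k A C r U).Ax Good := by
  obtain ⟨σ, hσ⟩ := ((udef_ax0 L hf b G k A C r).and
    (udef_axR hf b G k A C r Good)).exists_sentence
  exact ⟨σ, fun U _ => hσ U⟩

/-- The structure of a record. -/
theorem toRc_ofRc {L : FirstOrder.Language.{0, 0}} {b G k A C r : ℕ} {U : Type}
    (R : Rc L b G k A C r U) : @toRc L b G k A C r U (ofRc R) = R := by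
  have h1 : ∀ (x : Fin C → U) (i : Fin A → U),
      relRc R RR.cert (Fin.append x i) = R.cert x i := by
    intro x i
    change R.cert (fun j => Fin.append x i (Fin.castAdd A j))
      (fun j => Fin.append x i (Fin.natAdd C j)) = R.cert x i
    simp only [Fin.append_left, Fin.append_right]
  have h2 : ∀ (s : Σ n, L.Relations n) (w : Fin s.1 → Win b (2 * rad G + 1)) (κ : U)
      (v : Fin s.1 → U), relRc R (RR.bit s w) (Fin.append ![κ] v) = R.bit s w κ v := by
    intro s w κ v
    change R.bit s w (Fin.append ![κ] v (Fin.castAdd s.1 0))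
      (fun j => Fin.append ![κ] v (Fin.natAdd 1 j)) = R.bit s w κ v
    simp only [Fin.append_left, Fin.append_right]
    rfl
  have h3 : ∀ (u : U) (x : Fin (r + 1) → U),
      relRc R RR.tup (Fin.append ![u] x) = R.tup u x := by
    intro u x
    change R.tup (Fin.append ![u] x (Fin.castAdd (r + 1) 0))
      (fun j => Fin.append ![u] x (Fin.natAdd 1 j)) = R.tup u x
    simp only [Fin.append_left, Fin.append_right]
    rfl
  cases R with
  | mk a le add wp cert sz bit reach tup =>
    have e1 : (fun (x : Fin C → U) (i : Fin A → U) => relRc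
        (Rc.mk a le add wp cert sz bit reach tup : Rc L b G k A C r U) RR.cert
          (Fin.append x i)) = cert := by
      funext x i
      exact h1 x i
    have e2 : (fun (s : Σ n, L.Relations n) (w : Fin s.1 → Win b (2 * rad G + 1)) (κ : U)
        (v : Fin s.1 → U) => relRc
        (Rc.mk a le add wp cert sz bit reach tup : Rc L b G k A C r U) (RR.bit s w)
          (Fin.append ![κ] v)) = bit := by
      funext s w κ v
      exact h2 s w κ v
    have e3 : (fun (u : U) (x : Fin (r + 1) → U) => relRc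
        (Rc.mk a le add wp cert sz bit reach tup : Rc L b G k A C r U) RR.tup
          (Fin.append ![u] x)) = tup := by
      funext u x
      exact h3 u x
    change (Rc.mk a le add wp _ sz _ reach _ : Rc L b G k A C r U) = _
    exact congr (congrFun (congr (congrFun (congrArg (Rc.mk a le add wp) e1) sz) e2)
      reach) e3

end Pool.Agent.Helper72.TX
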