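import Mathlib
import Pool.Agent.Helper72.TX.CodeDefs
import Pool.Agent.Helper72.TX.Td

set_option autoImplicit false

/-!
# TW-17: existence of coded structures

`U = Fin (m ^ (r + 1))` with the order of the values, `a x ↔ x < m`, `wp x ↔ x < W`, `add x y z ↔ x + y = z` (values). The
certificate comes from an injection of `Fin C → Fin m` into `(Fin A → Fin W) → Bool` (`m ^ C ≤ 2 ^ (W ^ A)`), `tup`
from a bijection of `Fin (m ^ (r + 1))` with `Fin (r + 1) → Fin m`. The codes: the type of the patterns has at most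
`m ^ (r + 1)` elements (tuples of length at most `A` are continued by zeros to tuples of length `A`), so there is a
surjection of `U` onto it. `reach := fun _ _ _ => False`.
-/

namespace Pool.Agent.Helper72.TX

open FirstOrder FirstOrder.Language

namespace DnEx

/-- The patterns coded by the elements. -/
abbrev Pt (L : FirstOrder.Language.{0, 0}) (b G A W : ℕ) : Type :=
  (Win b (2 * rad G + 1) → Fin (W + 1)) ×
    ((Σ s : (Σ n, L.Relations n), (Fin s.1 → Win b (2 * rad G + 1))) × (Fin A → Fin W) → Bool)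

/-- Continuation of a tuple. -/
def pad {W n : ℕ} (A : ℕ) (hW : 1 ≤ W) (v : Fin n → Fin W) : Fin A → Fin W := fun i =>
  if h : i.1 < n then v ⟨i.1, h⟩ else ⟨0, hW⟩

theorem pad_inj {W n A : ℕ} (hW : 1 ≤ W) (hn : n ≤ A) {v v' : Fin n → Fin W}
    (h : pad A hW v = pad A hW v') : v = v' := by
  funext i
  have h1 := congrFun h ⟨i.1, lt_of_lt_of_le i.2 hn⟩
  unfold pad at h1
  simp only [i.2, dif_pos] at h1
  exact h1

/-- The structure. -/
def st {L : FirstOrder.Language.{0, 0}} {b G A m W r : ℕ} (k C : ℕ) (hW : 1 ≤ W)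
    (f : (Fin C → Fin m) → (Fin A → Fin W) → Bool)
    (e : Fin (m ^ (r + 1)) → Fin (r + 1) → Fin m) (g : Fin (m ^ (r + 1)) → Pt L b G A W) :
    Rc L b G k A C r (Fin (m ^ (r + 1))) where
  a := fun x => x.1 < m
  le := fun x y => x.1 ≤ y.1
  add := fun x y z => x.1 + y.1 = z.1
  wp := fun x => x.1 < W
  cert := fun x v => ∃ (h1 : ∀ j, (x j).1 < m) (h2 : ∀ j, (v j).1 < W),
    f (fun j => ⟨(x j).1, h1 j⟩) (fun j => ⟨(v j).1, h2 j⟩) = true
  sz := fun α κ y => y.1 = ((g κ).1 α).1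
  bit := fun s w κ v => ∃ h : ∀ i, (v i).1 < W,
    (g κ).2 (⟨s, w⟩, pad A hW fun i => ⟨(v i).1, h i⟩) = true
  reach := fun _ _ _ => False
  tup := fun u x => ∀ i, (x i).1 = (e u i).1

section

variable {L : FirstOrder.Language.{0, 0}} {b G A m W r : ℕ} {k C : ℕ} {hW : 1 ≤ W}
    {f : (Fin C → Fin m) → (Fin A → Fin W) → Bool}
    {e : Fin (m ^ (r + 1)) → Fin (r + 1) → Fin m} {g : Fin (m ^ (r + 1)) → Pt L b G A W}

theorem ltt_iff (x y : Fin (m ^ (r + 1))) : (st k C hW f e g).ltt x y ↔ x.1 < y.1 := by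
  change (x.1 ≤ y.1 ∧ x ≠ y) ↔ x.1 < y.1
  rw [Ne, Fin.ext_iff]
  omega

theorem zero_iff (h0 : 0 < m ^ (r + 1)) (x : Fin (m ^ (r + 1))) :
    (st k C hW f e g).zero x ↔ x.1 = 0 := by
  constructor
  · intro h
    exact Nat.le_zero.1 (h ⟨0, h0⟩)
  · intro h u
    change x.1 ≤ u.1
    omega

theorem succ_iff (x y : Fin (m ^ (r + 1))) :
    (st k C hW f e g).succ x y ↔ y.1 = x.1 + 1 := by
  unfold Rc.succ
  constructor
  · rintro ⟨h1, h2⟩
    rw [ltt_iff] at h1
    by_contra h3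
    have h4 : x.1 + 1 < m ^ (r + 1) := lt_of_le_of_lt h1 y.2
    have h5 := h2 ⟨x.1 + 1, h4⟩ ((ltt_iff _ _).2 (Nat.lt_succ_self _))
    have h6 : y.1 ≤ x.1 + 1 := h5
    omega
  · intro h
    refine ⟨(ltt_iff _ _).2 (by omega), fun u hu => ?_⟩
    have h1 := (ltt_iff (k := k) (C := C) (hW := hW) (f := f) (e := e) (g := g) x u).1 hu
    change y.1 ≤ u.1
    omega

theorem small_iff (hWm : W < m ^ (r + 1)) (y : Fin (m ^ (r + 1))) :
    (st k C hW f e g).small y ↔ y.1 ≤ W := by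
  unfold Rc.small
  constructor
  · intro h
    by_contra h1
    have h2 : (⟨W, hWm⟩ : Fin (m ^ (r + 1))).1 < y.1 := by
      change W < y.1
      omega
    have h3 : W < W := h ⟨W, hWm⟩ ((ltt_iff _ _).2 h2)
    omega
  · intro h u hu
    have h1 := (ltt_iff (k := k) (C := C) (hW := hW) (f := f) (e := e) (g := g) u y).1 hu
    change u.1 < W
    omega

theorem bit_iff (s : Σ n, L.Relations n) (w : Fin s.1 → Win b (2 * rad G + 1))
    (κ : Fin (m ^ (r + 1))) (v : Fin s.1 → Fin (m ^ (r + 1))) (h : ∀ i, (v i).1 < W) :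
    (st k C hW f e g).bit s w κ v ↔
      (g κ).2 (⟨s, w⟩, pad A hW fun i => ⟨(v i).1, h i⟩) = true :=
  ⟨fun ⟨_, h'⟩ => h', fun h' => ⟨h, h'⟩⟩

end

/-- The number of small elements. -/
theorem card_lt (N n : ℕ) (h : n ≤ N) : Nat.card {x : Fin N // x.1 < n} = n := by
  have e : {x : Fin N // x.1 < n} ≃ Fin n :=
    { toFun := fun x => ⟨x.1.1, x.2⟩
      invFun := fun y => ⟨⟨y.1, lt_of_lt_of_le y.2 h⟩, y.2⟩
      left_inv := fun x => rfl
      right_inv := fun y => rfl }
  rw [Nat.card_congr e, Nat.card_fin]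

/-- The axioms of the structure. -/
theorem ax0 {L : FirstOrder.Language.{0, 0}} {b G A m W r : ℕ} (k C : ℕ) (hW : 1 ≤ W)
    (hA : ∀ n, A < n → IsEmpty (L.Relations n))
    (f : (Fin C → Fin m) → (Fin A → Fin W) → Bool) (hf : Function.Injective f)
    (e : Fin (m ^ (r + 1)) → Fin (r + 1) → Fin m) (he : Function.Bijective e)
    (g : Fin (m ^ (r + 1)) → Pt L b G A W) (hg : Function.Surjective g)
    (hm : m < m ^ (r + 1)) (hWm : W < m ^ (r + 1)) : (st k C hW f e g).Ax0 := by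
  classical
  have h0 : 0 < m ^ (r + 1) := lt_of_le_of_lt (Nat.zero_le _) hm
  have hsA : ∀ s : Σ n, L.Relations n, s.1 ≤ A := by
    rintro ⟨n, P⟩
    by_contra h
    exact (hA n (not_le.1 h)).false P
  refine
    { refl := fun x => le_refl x.1
      antisymm := fun x y h1 h2 => Fin.ext (le_antisymm h1 h2)
      trans := fun x y z h1 h2 => le_trans h1 h2
      total := fun x y => le_total x.1 y.1
      add0 := ?_
      addS := ?_
      wp_init := fun x y h1 h2 => lt_of_le_of_lt h2 h1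
      wp_top := ⟨⟨W, hWm⟩, fun h => absurd h (lt_irrefl W)⟩
      sz_ex := ?_
      tup_ex := ?_
      tup_fun := ?_
      tup_inj := ?_
      tup_surj := ?_
      top_ex := ?_
      cert := ?_
      cl_sz := ?_
      cl_bit := ?_ }
  · intro x y z hy
    rw [zero_iff h0] at hy
    rw [Fin.ext_iff]
    change x.1 + y.1 = z.1 ↔ x.1 = z.1
    omega
  · intro x y y' z' hy
    rw [succ_iff] at hy
    constructor
    · intro h
      have h1 : x.1 + y'.1 = z'.1 := h
      have h2 : x.1 + y.1 < m ^ (r + 1) := by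
        have := z'.2
        omega
      refine ⟨⟨x.1 + y.1, h2⟩, rfl, (succ_iff _ _).2 ?_⟩
      change z'.1 = x.1 + y.1 + 1
      omega
    · rintro ⟨z, h1, h2⟩
      rw [succ_iff] at h2
      have h3 : x.1 + y.1 = z.1 := h1
      change x.1 + y'.1 = z'.1
      omega
  · intro α κ
    have h1 : ((g κ).1 α).1 ≤ W := Nat.le_of_lt_succ ((g κ).1 α).2
    refine ⟨⟨((g κ).1 α).1, lt_of_le_of_lt h1 hWm⟩, rfl, (small_iff hWm _).2 h1, ?_⟩
    intro y' hy'
    exact Fin.ext hy'
  · intro u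
    exact ⟨fun i => ⟨(e u i).1, lt_trans (e u i).2 hm⟩, fun i => (e u i).2, fun i => rfl⟩
  · intro u x x' h1 h2
    funext i
    exact Fin.ext ((h1 i).trans (h2 i).symm)
  · intro u u' x h1 h2
    apply he.1
    funext i
    exact Fin.ext ((h1 i).symm.trans (h2 i))
  · intro x hx
    obtain ⟨u, hu⟩ := he.2 (fun i => ⟨(x i).1, hx i⟩)
    refine ⟨u, fun i => ?_⟩
    rw [hu]
  · refine ⟨⟨m, hm⟩, fun x => ?_⟩
    rw [ltt_iff]
    exact Iff.rfl
  · intro x x' hx hx' hne
    have h1 : (fun j => (⟨(x j).1, hx j⟩ : Fin m)) ≠ fun j => ⟨(x' j).1, hx' j⟩ := by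
      intro h
      apply hne
      funext j
      have := congrFun h j
      exact Fin.ext (Fin.mk.inj_iff.1 this)
    have h2 := fun h => h1 (hf h)
    have h3 : ∃ i, f (fun j => (⟨(x j).1, hx j⟩ : Fin m)) i ≠
        f (fun j => ⟨(x' j).1, hx' j⟩) i := by
      by_contra h
      push Not at h
      exact h2 (funext h)
    obtain ⟨i, hi⟩ := h3
    refine ⟨fun j => ⟨(i j).1, lt_trans (i j).2 hWm⟩, fun j => (i j).2, fun h4 => hi ?_⟩
    have h5 : (st (L := L) (b := b) (G := G) k C hW f e g).cert x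
        (fun j => ⟨(i j).1, lt_trans (i j).2 hWm⟩) ↔
        f (fun j => (⟨(x j).1, hx j⟩ : Fin m)) i = true :=
      ⟨fun ⟨_, _, h⟩ => h, fun h => ⟨hx, fun j => (i j).2, h⟩⟩
    have h6 : (st (L := L) (b := b) (G := G) k C hW f e g).cert x'
        (fun j => ⟨(i j).1, lt_trans (i j).2 hWm⟩) ↔
        f (fun j => (⟨(x' j).1, hx' j⟩ : Fin m)) i = true :=
      ⟨fun ⟨_, _, h⟩ => h, fun h => ⟨hx', fun j => (i j).2, h⟩⟩
    rw [h5, h6] at h4
    exact Bool.eq_iff_iff.2 h4
  · intro κ α y hy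
    rw [small_iff hWm] at hy
    obtain ⟨κ', hκ'⟩ := hg (Function.update (g κ).1 α ⟨y.1, Nat.lt_succ_of_le hy⟩, (g κ).2)
    refine ⟨κ', ?_, ?_, ?_⟩
    · change y.1 = ((g κ').1 α).1
      rw [hκ']
      simp
    · intro α' hα z
      change z.1 = ((g κ').1 α').1 ↔ z.1 = ((g κ).1 α').1
      rw [hκ']
      simp only [Function.update_of_ne hα]
    · intro s w v hv
      rw [bit_iff s w κ' v hv, bit_iff s w κ v hv, hκ']
  · intro κ s w v hv
    obtain ⟨κ', hκ'⟩ := hg ((g κ).1, Function.update (g κ).2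
      (⟨s, w⟩, pad A hW fun i => ⟨(v i).1, hv i⟩)
      (!(g κ).2 (⟨s, w⟩, pad A hW fun i => ⟨(v i).1, hv i⟩)))
    refine ⟨κ', ?_, ?_, ?_⟩
    · intro α z
      change z.1 = ((g κ').1 α).1 ↔ z.1 = ((g κ).1 α).1
      rw [hκ']
    · intro v' hv'
      rw [bit_iff s w κ' v' hv', bit_iff s w κ v' hv', hκ']
      by_cases h : v' = v
      · subst h
        simp
      · have h1 : ((⟨s, w⟩, pad A hW fun i => ⟨(v' i).1, hv' i⟩) :
            (Σ s : (Σ n, L.Relations n), (Fin s.1 → Win b (2 * rad G + 1))) ×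
              (Fin A → Fin W)) ≠ (⟨s, w⟩, pad A hW fun i => ⟨(v i).1, hv i⟩) := by
          intro h2
          apply h
          have h3 : (fun i => (⟨(v' i).1, hv' i⟩ : Fin W)) = fun i => ⟨(v i).1, hv i⟩ :=
            pad_inj hW (hsA s) (Prod.ext_iff.1 h2).2
          funext i
          have h4 := congrFun h3 i
          exact Fin.ext (Fin.mk.inj_iff.1 h4)
        simp only [Function.update_of_ne h1, h, iff_false, not_not]
    · intro s' w' hne v' hv'
      rw [bit_iff s' w' κ' v' hv', bit_iff s' w' κ v' hv', hκ']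
      have h1 : ((⟨s', w'⟩, pad A hW fun i => ⟨(v' i).1, hv' i⟩) :
          (Σ s : (Σ n, L.Relations n), (Fin s.1 → Win b (2 * rad G + 1))) ×
            (Fin A → Fin W)) ≠ (⟨s, w⟩, pad A hW fun i => ⟨(v i).1, hv i⟩) := by
        intro h2
        exact hne (Prod.ext_iff.1 h2).1
      simp only [Function.update_of_ne h1]

end DnEx

theorem exists_ax0 (L : FirstOrder.Language.{0, 0}) (hf : Finite (Σ n, L.Relations n))
    (b G k A C r m W : ℕ) (hA : ∀ n, A < n → IsEmpty (L.Relations n)) (hm : 2 ≤ m) (hr : 1 ≤ r)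
    (hW : 1 ≤ W) (hWm : W < m ^ (r + 1)) (hcert : m ^ C ≤ 2 ^ (W ^ A))
    (hcard : (W + 1) ^ Nat.card (Win b (2 * rad G + 1)) *
      2 ^ (Nat.card (Σ s : (Σ n, L.Relations n), (Fin s.1 → Win b (2 * rad G + 1))) * W ^ A) ≤
        m ^ (r + 1)) :
    ∃ R : Rc L b G k A C r (Fin (m ^ (r + 1))), R.Ax0 ∧ R.wid = W ∧ Nat.card {x // R.a x} = m := by
  classical
  have := hf
  have hfw : Finite (Win b (2 * rad G + 1)) := finite_adr (2 * rad G + 1)
  have hmN : m < m ^ (r + 1) := by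
    calc m = m ^ 1 := (pow_one m).symm
      _ < m ^ (r + 1) := Nat.pow_lt_pow_right (by omega) (by omega)
  obtain ⟨f⟩ : Nonempty ((Fin C → Fin m) ↪ ((Fin A → Fin W) → Bool)) := by
    apply Function.Embedding.nonempty_of_card_le
    simpa using hcert
  obtain ⟨e⟩ : Nonempty (Fin (m ^ (r + 1)) ≃ (Fin (r + 1) → Fin m)) := by
    apply Fintype.card_eq.1
    simp
  have hcP : Nat.card (DnEx.Pt L b G A W) ≤ m ^ (r + 1) := by
    refine le_trans (le_of_eq ?_) hcard
    unfold DnEx.Pt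
    rw [Nat.card_prod, Nat.card_fun, Nat.card_fun, Nat.card_prod, Nat.card_fun, Nat.card_fin,
      Nat.card_fin, Nat.card_fin]
    simp only [Nat.card_eq_fintype_card, Fintype.card_bool]
  obtain ⟨g, hg⟩ : ∃ g : Fin (m ^ (r + 1)) → DnEx.Pt L b G A W, Function.Surjective g := by
    have hfin : Finite (DnEx.Pt L b G A W) := by
      unfold DnEx.Pt
      infer_instance
    have hne : Nonempty (DnEx.Pt L b G A W) := ⟨(fun _ => 0, fun _ => false)⟩
    have := Fintype.ofFinite (DnEx.Pt L b G A W)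
    obtain ⟨i⟩ : Nonempty (DnEx.Pt L b G A W ↪ Fin (m ^ (r + 1))) := by
      apply Function.Embedding.nonempty_of_card_le
      rw [Fintype.card_fin, ← Nat.card_eq_fintype_card]
      exact hcP
    exact ⟨Function.invFun i, Function.invFun_surjective i.injective⟩
  refine ⟨DnEx.st k C hW f e g, DnEx.ax0 k C hW hA f f.injective e e.bijective g hg hmN hWm,
    ?_, ?_⟩
  · exact DnEx.card_lt _ _ hWm.le
  · exact DnEx.card_lt _ _ hmN.le

end Pool.Agent.Helper72.TX
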