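import Mathlib
import Pool.Agent.Helper72.TX.CfgL
import Pool.Agent.Helper79.TL.Gaif

set_option autoImplicit false

/-!
# TX-4: models of bounded degree and configurations

`cfg_of_model2`: the configuration of `cfg_of_model` (`FromModel.lean`, its proof can be copied: it gives a bijection
`E : M ≃ {x // C.str.D x}` with `C.str.rel n R (fun i => (E (v i)).1) ↔ RelMap R v`). A tuple of a relation of arity `n + 1` with
first entry `x` has all entries in `{x} ∪ N(x)` (Gaifman graph), so there are at most `(d + 1) ^ n ≤ (d + 1) ^ A` of them.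

`od_at`: the windows of a configuration with `OD D` satisfy `ODW G D` (`td_append`).
-/

namespace Pool.Agent.Helper72.TX

open FirstOrder FirstOrder.Language Pool.Agent.Helper79.TL

variable {L : FirstOrder.Language.{0, 0}} {b : ℕ}

private theorem transfer62b (hL : ∀ n, IsEmpty (L.Functions n))
    {N N' : Type} [L.Structure N] (E : N ≃ N') (q : ∀ n, L.Relations n → (Fin n → N') → Prop)
    (hq : ∀ (n : ℕ) (R : L.Relations n) (v : Fin n → N),
      q n R (fun i => E (v i)) ↔ Structure.RelMap R v) (ψ : L.Sentence) :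
    ψ.Realize N ↔ @Sentence.Realize L N' (Pool.Agent.Helper72.WT.istr hL q) ψ := by
  letI := Pool.Agent.Helper72.WT.istr hL q
  let e : N ≃[L] N' :=
    { E with
      map_fun' := fun f _ => ((hL _).false f).elim
      map_rel' := fun R v => hq _ R v }
  exact StrongHomClass.realize_sentence e ψ

/-- Tuples with a given first entry, all whose entries are adjacent to it or equal to it. -/
private theorem ncard_tuples {M : Type} [Finite M] (n A d : ℕ) (hn : n ≤ A) (T : Set M)
    (hT : T.ncard ≤ d + 1) (x : M) {Y : Type} (F : M → Y) (S : Set (Fin (n + 1) → Y))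
    (hS : ∀ u ∈ S, ∃ v : Fin (n + 1) → M, v 0 = x ∧ (∀ j, v j ∈ T) ∧ ∀ j, F (v j) = u j) :
    S.ncard ≤ (d + 1) ^ A := by
  classical
  have hTf : T.Finite := Set.toFinite T
  let G : (Fin n → M) → (Fin (n + 1) → Y) := fun f j => F ((Fin.cons x f : Fin (n + 1) → M) j)
  have hsub : S ⊆ ((Fintype.piFinset fun _ : Fin n => hTf.toFinset).image G : Finset _) := by
    intro u hu
    obtain ⟨v, hv0, hvT, hvF⟩ := hS u hu
    rw [Finset.coe_image]
    refine ⟨fun j => v j.succ, ?_, ?_⟩
    · rw [Finset.mem_coe, Fintype.mem_piFinset]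
      intro j
      rw [Set.Finite.mem_toFinset]
      exact hvT _
    · funext j
      change F ((Fin.cons x (fun j : Fin n => v j.succ) : Fin (n + 1) → M) j) = u j
      rw [← hvF j]
      congr 1
      refine Fin.cases ?_ (fun i => ?_) j
      · rw [Fin.cons_zero, hv0]
      · rw [Fin.cons_succ]
  calc S.ncard ≤ (((Fintype.piFinset fun _ : Fin n => hTf.toFinset).image G : Finset _) :
        Set (Fin (n + 1) → Y)).ncard := Set.ncard_le_ncard hsub (Finset.finite_toSet _)
    _ = ((Fintype.piFinset fun _ : Fin n => hTf.toFinset).image G).card :=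
        Set.ncard_coe_finset _
    _ ≤ (Fintype.piFinset fun _ : Fin n => hTf.toFinset).card := Finset.card_image_le
    _ = hTf.toFinset.card ^ n := by
        rw [Fintype.card_piFinset]
        simp
    _ ≤ (d + 1) ^ n := by
        refine Nat.pow_le_pow_left ?_ n
        rw [← Set.ncard_eq_toFinset_card T hTf]
        exact hT
    _ ≤ (d + 1) ^ A := Nat.pow_le_pow_right (Nat.succ_pos d) hn

theorem cfg_of_model2 (hL : ∀ n, IsEmpty (L.Functions n)) (φ : L.Sentence) (w A d : ℕ)
    (hA : ∀ n, A < n → IsEmpty (L.Relations n)) (M : Type) [L.Structure M] [Finite M]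
    (hM : φ.Realize M) (hT : TreeLayering b w L M)
    (hd : ∀ v : M, {u | (gaifman L M).Adj v u}.ncard ≤ d) :
    ∃ C : Cfg L b, C.Valid w ∧ C.size = Nat.card M ∧ C.str.Models hL φ ∧
      OD ((d + 1) ^ A) C := by
  classical
  obtain ⟨β, hw, hcl, hloc⟩ := hT
  have hfin : ∀ α : Adr b, Finite {x // β x = α} := fun α => inferInstance
  let p : Adr b → ℕ := fun α => Nat.card {x // β x = α}
  let q : ∀ α : Adr b, {x // β x = α} ≃ Fin (p α) := fun α => Finite.equivFin _
  let e : M → Adr b × ℕ := fun x => (β x, (q (β x) ⟨x, rfl⟩).1)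
  let C : Cfg L b :=
    { p := p
      rel := fun n R v => ∃ v' : Fin n → M, (∀ i, e (v' i) = v i) ∧ Structure.RelMap R v' }
  let E : M ≃ {x : Adr b × ℕ // C.str.D x} :=
    { toFun := fun x => ⟨e x, (q (β x) ⟨x, rfl⟩).2⟩
      invFun := fun z => ((q z.1.1).symm ⟨z.1.2, z.2⟩).1
      left_inv := by
        intro x
        have h : (⟨(q (β x) ⟨x, rfl⟩).1, (q (β x) ⟨x, rfl⟩).2⟩ : Fin (p (β x))) =
            q (β x) ⟨x, rfl⟩ := rfl
        change ((q (β x)).symm ⟨(q (β x) ⟨x, rfl⟩).1, (q (β x) ⟨x, rfl⟩).2⟩).1 = x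
        rw [h, Equiv.symm_apply_apply]
      right_inv := by
        rintro ⟨⟨α, i⟩, hi⟩
        have hi' : i < p α := hi
        apply Subtype.ext
        change e ((q α).symm ⟨i, hi'⟩).1 = (α, i)
        obtain ⟨y, hy⟩ : ∃ y, y = (q α).symm ⟨i, hi'⟩ := ⟨_, rfl⟩
        rw [← hy]
        obtain ⟨y, rfl⟩ := y
        have h2 : q (β y) ⟨y, rfl⟩ = ⟨i, hi'⟩ := by rw [hy, Equiv.apply_symm_apply]
        change (β y, (q (β y) ⟨y, rfl⟩).1) = (β y, i)
        rw [h2] }
  have hE : ∀ x, (E x).1 = e x := fun x => rfl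
  have hinj : Function.Injective e := fun x y h => E.injective (Subtype.ext h)
  have hpos : ∀ α, p α ≠ 0 ↔ ∃ x, β x = α := by
    intro α
    change Nat.card {x // β x = α} ≠ 0 ↔ _
    rw [Nat.card_ne_zero]
    constructor
    · rintro ⟨⟨x, hx⟩, -⟩
      exact ⟨x, hx⟩
    · rintro ⟨x, hx⟩
      exact ⟨⟨⟨x, hx⟩⟩, hfin α⟩
  refine ⟨C, ⟨hw, ?_, ?_⟩, ?_, ?_, ?_⟩
  · intro α i h
    obtain ⟨x, hx⟩ := (hpos _).1 h
    exact (hpos _).2 (hcl x α i hx)
  · refine (Set.finite_range β).subset ?_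
    intro α h
    obtain ⟨x, hx⟩ := (hpos _).1 h
    exact ⟨x, hx⟩
  · exact (Nat.card_congr E).symm
  · refine (transfer62b hL E (fun n R v => C.str.rel n R fun i => (v i).1) ?_ φ).1 hM
    intro n R v
    constructor
    · rintro ⟨⟨v', hv', h⟩, -⟩
      have : v' = v := funext fun i => hinj (hv' i)
      rwa [← this]
    · intro h
      refine ⟨⟨v, fun i => rfl, h⟩, fun i j => ?_⟩
      exact td_le_one.2 (hloc n R v h i j)
  · intro n R γ i
    have hn : n ≤ A := by
      by_contra hc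
      exact (hA (n + 1) (by omega)).false R
    rcases Set.eq_empty_or_nonempty {u : Fin (n + 1) → ℕ | u 0 = i ∧ (∀ j, u j < C.p (γ j)) ∧
      C.str.rel (n + 1) R fun j => (γ j, u j)} with h0 | ⟨u0, hu0⟩
    · rw [h0, Set.ncard_empty]
      exact Nat.zero_le _
    · obtain ⟨hu1, -, ⟨v0, hv0, -⟩, -⟩ := hu0
      refine ncard_tuples n A d hn (insert (v0 0) {u | (gaifman L M).Adj (v0 0) u})
        ((Set.ncard_insert_le _ _).trans (Nat.succ_le_succ (hd (v0 0)))) (v0 0)
        (fun x => (e x).2) _ ?_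
      rintro u ⟨hu2, -, ⟨v', hv', hR⟩, -⟩
      have h00 : v' 0 = v0 0 := by
        apply hinj
        rw [hv' 0, hv0 0]
        change (γ 0, u 0) = (γ 0, u0 0)
        rw [hu1, hu2]
      refine ⟨v', h00, fun j => ?_, fun j => ?_⟩
      · by_cases hj : v' j = v0 0
        · rw [hj]
          exact Set.mem_insert _ _
        · refine Set.mem_insert_of_mem _ ?_
          exact ⟨fun hc => hj hc.symm, n + 1, R, v', hR, ⟨0, h00⟩, ⟨j, rfl⟩⟩
      · change (e (v' j)).2 = u j
        rw [hv' j]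

theorem od_at {D : ℕ} {C : Cfg L b} (h : OD D C) (G : ℕ) (γ : Adr b) : ODW G D (C.at γ) := by
  intro n R δ i _
  have h1 := h n R (fun j => γ ++ δ j) i
  have h2 : {u : Fin (n + 1) → ℕ | u 0 = i ∧ (∀ j, u j < (C.at γ).p (δ j)) ∧
      (C.at γ).str.rel (n + 1) R fun j => (δ j, u j)} =
      {u : Fin (n + 1) → ℕ | u 0 = i ∧ (∀ j, u j < C.p (γ ++ δ j)) ∧
      C.str.rel (n + 1) R fun j => (γ ++ δ j, u j)} := by
    ext u
    refine and_congr Iff.rfl (and_congr Iff.rfl (and_congr Iff.rfl ?_))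
    refine forall_congr' fun a => forall_congr' fun c => ?_
    change td (δ a) (δ c) ≤ 1 ↔ td (γ ++ δ a) (γ ++ δ c) ≤ 1
    rw [td_append]
  rw [h2]
  exact h1

end Pool.Agent.Helper72.TX
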