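import Mathlib

set_option autoImplicit false

/-!
# TW-16: the choice of the width

`W` is the least number with `m ^ C ≤ 2 ^ (W ^ A)`; `W ≥ 2` since `m ^ C ≥ 3`, so `W ≤ 2 * (W - 1)`,
`W ^ A ≤ 2 ^ A * (W - 1) ^ A` and `2 ^ (W ^ A) ≤ (2 ^ ((W - 1) ^ A)) ^ (2 ^ A) ≤ (m ^ C) ^ (2 ^ A)`.
-/

namespace Pool.Agent.Helper72.TX

theorem exists_width {A C m : ℕ} (hA : 1 ≤ A) (hC : 1 ≤ C) (hm : 3 ≤ m) :
    ∃ W, 1 ≤ W ∧ m ^ C ≤ 2 ^ (W ^ A) ∧ ∀ B, 2 ^ (B * W ^ A) ≤ m ^ (C * 2 ^ A * B) := by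
  classical
  have hex : ∃ W, m ^ C ≤ 2 ^ (W ^ A) := by
    refine ⟨m ^ C, ?_⟩
    have h1 : m ^ C ≤ (m ^ C) ^ A := Nat.le_self_pow (by omega) _
    exact h1.trans (Nat.lt_two_pow_self).le
  have hspec := Nat.find_spec hex
  have hmin : ∀ V, V < Nat.find hex → 2 ^ (V ^ A) < m ^ C := fun V hV =>
    not_le.1 (Nat.find_min hex hV)
  set W := Nat.find hex with hW
  have h3 : 3 ≤ m ^ C := hm.trans (Nat.le_self_pow (by omega) m)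
  have hW2 : 2 ≤ W := by
    by_contra hlt
    have h4 : W = 0 ∨ W = 1 := by omega
    rcases h4 with h4 | h4
    · rw [h4, Nat.zero_pow (by omega)] at hspec
      omega
    · rw [h4, Nat.one_pow] at hspec
      omega
  have hV := hmin (W - 1) (by omega)
  have h5 : W ^ A ≤ (W - 1) ^ A * 2 ^ A := by
    rw [← Nat.mul_pow]
    exact Nat.pow_le_pow_left (by omega) A
  have h6 : 2 ^ (W ^ A) ≤ (m ^ C) ^ (2 ^ A) := by
    calc 2 ^ (W ^ A) ≤ 2 ^ ((W - 1) ^ A * 2 ^ A) := Nat.pow_le_pow_right (by omega) h5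
      _ = (2 ^ ((W - 1) ^ A)) ^ (2 ^ A) := pow_mul _ _ _
      _ ≤ (m ^ C) ^ (2 ^ A) := Nat.pow_le_pow_left hV.le _
  refine ⟨W, by omega, hspec, fun B => ?_⟩
  calc 2 ^ (B * W ^ A) = (2 ^ (W ^ A)) ^ B := by rw [mul_comm, pow_mul]
    _ ≤ ((m ^ C) ^ (2 ^ A)) ^ B := Nat.pow_le_pow_left h6 B
    _ = m ^ (C * 2 ^ A * B) := by rw [← pow_mul, ← pow_mul, mul_assoc]

end Pool.Agent.Helper72.TX
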