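import Mathlib
import Pool.Agent.Helper72.TX.CodeDefs

set_option autoImplicit false

/-!
# TW-12: ranks in the order of a coded structure

`U` finite. `rank x = Nat.card {y // ltt y x}`. `rank_add`: induction on `rank y` with `add0`, `addS`.
-/

namespace Pool.Agent.Helper72.TX

open FirstOrder FirstOrder.Language

/-- Telescoping along a path. -/
private theorem path_sum : ∀ (n : ℕ) (f : Fin n → ℕ) (g : Fin (n + 1) → ℕ),
    (∀ i : Fin n, g i.succ = g i.castSucc + f i) → g (Fin.last n) = g 0 + ∑ i, f i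
  | 0, _, _, _ => by simp
  | n + 1, f, g, h => by
    have h1 := path_sum n (fun i => f i.castSucc) (fun j => g j.castSucc) (by
      intro i
      have h0 := h i.castSucc
      rw [Fin.succ_castSucc] at h0
      exact h0)
    have h2 := h (Fin.last n)
    rw [Fin.sum_univ_castSucc, ← Fin.succ_last, h2]
    simp only [Fin.castSucc_zero] at h1
    rw [h1, add_assoc]

/-- The path of partial sums. -/
private theorem exists_path (n : ℕ) (c : ℕ) (f : Fin n → ℕ) :
    ∃ g : Fin (n + 1) → ℕ, g 0 = c ∧ (∀ i : Fin n, g i.succ = g i.castSucc + f i) ∧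
      g (Fin.last n) = c + ∑ i, f i ∧ ∀ j, g j ≤ c + ∑ i, f i := by
  have hs : ∑ i ∈ Finset.range n, (fun i => if h : i < n then f ⟨i, h⟩ else 0) i
      = ∑ i, f i := by
    rw [Finset.sum_range]
    refine Finset.sum_congr rfl fun i _ => ?_
    simp
  refine ⟨fun j => c + ∑ i ∈ Finset.range j.1, (if h : i < n then f ⟨i, h⟩ else 0),
    by simp, ?_, ?_, ?_⟩
  · intro i
    simp only [Fin.val_succ, Fin.val_castSucc, Finset.sum_range_succ, i.2, dif_pos, Fin.eta]
    ring
  · simp only [Fin.val_last]
    rw [← hs]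
  · intro j
    simp only
    rw [← hs]
    refine Nat.add_le_add_left (Finset.sum_le_sum_of_subset ?_) c
    exact Finset.range_mono (Nat.lt_succ_iff.1 j.2)

variable {L : FirstOrder.Language.{0, 0}} {b G k A C r : ℕ} {U : Type} [Finite U]
  {R : Rc L b G k A C r U}

private theorem card_le {p q : U → Prop} (h : ∀ x, p x → q x) :
    Nat.card {y // p y} ≤ Nat.card {y // q y} :=
  Nat.card_le_card_of_injective (fun y : {y // p y} => (⟨y.1, h y.1 y.2⟩ : {y // q y}))
    (fun a b hab => Subtype.ext (congrArg (fun z : {y // q y} => z.1) hab))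

private theorem card_lt {p q : U → Prop} (h : ∀ x, p x → q x) (x : U) (hq : q x) (hp : ¬ p x) :
    Nat.card {y // p y} < Nat.card {y // q y} := by
  have h1 : Set.ncard {y | p y} < Set.ncard {y | q y} :=
    Set.ncard_lt_ncard ⟨fun y hy => h y hy, fun hh => hp (hh hq)⟩ (Set.toFinite _)
  exact h1

private theorem ltt_of_not_le (hR : R.AxA) {x y : U} (h : ¬ R.le x y) : R.ltt y x :=
  ⟨(hR.total x y).resolve_left h, fun e => h (e ▸ hR.refl x)⟩

private theorem not_le_of_ltt (hR : R.AxA) {x y : U} (h : R.ltt x y) : ¬ R.le y x :=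
  fun h' => h.2 (hR.antisymm x y h.1 h')

private theorem rank_mono (hR : R.AxA) {x y : U} (h : R.le x y) : R.rank x ≤ R.rank y :=
  card_le fun z hz => ⟨hR.trans z x y hz.1 h, fun e => not_le_of_ltt hR hz (e ▸ h)⟩

theorem rank_lt (hR : R.AxA) {x y : U} : R.ltt x y ↔ R.rank x < R.rank y := by
  constructor
  · intro h
    exact card_lt (fun z hz => ⟨hR.trans z x y hz.1 h.1, fun e => not_le_of_ltt hR hz (e ▸ h.1)⟩)
      x h (fun hx => hx.2 rfl)
  · intro h
    exact ltt_of_not_le hR fun h' => absurd (rank_mono hR h') (not_le.2 h)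

theorem rank_le (hR : R.AxA) {x y : U} : R.le x y ↔ R.rank x ≤ R.rank y := by
  constructor
  · exact rank_mono hR
  · intro h
    by_contra h'
    exact absurd ((rank_lt hR).1 (ltt_of_not_le hR h')) (not_lt.2 h)

theorem rank_inj (hR : R.AxA) {x y : U} (h : R.rank x = R.rank y) : x = y :=
  hR.antisymm x y ((rank_le hR).2 h.le) ((rank_le hR).2 h.ge)

theorem rank_lt_card (hR : R.AxA) (x : U) : R.rank x < Nat.card U := by
  have h := card_lt (p := fun y => R.ltt y x) (q := fun _ => True) (fun _ _ => trivial) x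
    trivial (fun hx => hx.2 rfl)
  rwa [Nat.card_congr (Equiv.subtypeUnivEquiv (fun _ => trivial))] at h

/-- Every number below `|U|` is a rank. -/
theorem exists_rank (hR : R.AxA) {n : ℕ} (hn : n < Nat.card U) : ∃ x, R.rank x = n := by
  have hi : Function.Injective (fun x : U => (⟨R.rank x, rank_lt_card hR x⟩ : Fin (Nat.card U))) :=
    fun x y hxy => rank_inj hR (congrArg Fin.val hxy)
  have hb := hi.bijective_of_nat_card_le (by rw [Nat.card_fin])
  obtain ⟨x, hx⟩ := hb.2 ⟨n, hn⟩
  exact ⟨x, congrArg Fin.val hx⟩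

theorem zero_iff (hR : R.AxA) {x : U} : R.zero x ↔ R.rank x = 0 := by
  constructor
  · intro h
    obtain ⟨y, hy⟩ := exists_rank hR (lt_of_le_of_lt (Nat.zero_le _) (rank_lt_card hR x))
    have := (rank_le hR).1 (h y)
    omega
  · intro h u
    exact (rank_le hR).2 (by omega)

theorem succ_iff (hR : R.AxA) {x y : U} : R.succ x y ↔ R.rank y = R.rank x + 1 := by
  constructor
  · rintro ⟨h1, h2⟩
    have h3 := (rank_lt hR).1 h1
    obtain ⟨u, hu⟩ := exists_rank hR (n := R.rank x + 1)
      (lt_of_le_of_lt h3 (rank_lt_card hR y))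
    have h4 := (rank_le hR).1 (h2 u ((rank_lt hR).2 (by omega)))
    omega
  · intro h
    refine ⟨(rank_lt hR).2 (by omega), fun u hu => (rank_le hR).2 ?_⟩
    have := (rank_lt hR).1 hu
    omega

theorem rank_add (hR : R.AxA) {x y z : U} : R.add x y z ↔ R.rank z = R.rank x + R.rank y := by
  have key : ∀ n : ℕ, ∀ y z : U, R.rank y = n → (R.add x y z ↔ R.rank z = R.rank x + n) := by
    intro n
    induction n with
    | zero =>
      intro y z hy
      rw [hR.add0 x y z ((zero_iff hR).2 hy)]
      exact ⟨fun h => by rw [h]; rfl, fun h => rank_inj hR h.symm⟩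
    | succ n ih =>
      intro y z hy
      obtain ⟨y0, hy0⟩ := exists_rank hR (n := n) (by have := rank_lt_card hR y; omega)
      rw [hR.addS x y0 y z ((succ_iff hR).2 (by omega))]
      constructor
      · rintro ⟨w, h1, h2⟩
        have h3 := (ih y0 w hy0).1 h1
        have h4 := (succ_iff hR).1 h2
        omega
      · intro h
        obtain ⟨w, hw⟩ := exists_rank hR (n := R.rank x + n)
          (by have := rank_lt_card hR z; omega)
        exact ⟨w, (ih y0 w hy0).2 hw, (succ_iff hR).2 (by omega)⟩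
  exact key (R.rank y) y z rfl

theorem wp_iff (hR : R.AxA) {x : U} : R.wp x ↔ R.rank x < R.wid := by
  constructor
  · intro h
    exact card_lt (fun z hz => hR.wp_init x z h hz.1) x h (fun hx => hx.2 rfl)
  · intro h
    by_contra h'
    have : R.wid ≤ R.rank x := card_le fun z hz =>
      ltt_of_not_le hR fun hxz => h' (hR.wp_init z x hz hxz)
    omega

theorem small_iff (hR : R.AxA) {x : U} : R.small x ↔ R.rank x ≤ R.wid := by
  constructor
  · intro h
    exact card_le fun z hz => h z hz
  · intro h u hu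
    exact (wp_iff hR).2 (lt_of_lt_of_le ((rank_lt hR).1 hu) h)

theorem wid_lt_card (hR : R.AxA) : R.wid < Nat.card U := by
  obtain ⟨x, hx⟩ := hR.wp_top
  have h := card_lt (p := R.wp) (q := fun _ => True) (fun _ _ => trivial) x trivial hx
  rwa [Nat.card_congr (Equiv.subtypeUnivEquiv (fun _ => trivial))] at h

theorem top_iff (hR : R.AxA) {x : U} : R.top x ↔ R.rank x = Nat.card {y // R.a y} := by
  have h1 : ∀ x, R.top x → R.rank x = Nat.card {y // R.a y} := fun x h =>
    Nat.card_congr (Equiv.subtypeEquivRight fun y => (h y).symm)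
  refine ⟨h1 x, fun h => ?_⟩
  obtain ⟨σ, hσ⟩ := hR.top_ex
  rw [rank_inj hR (h.trans (h1 σ hσ).symm)]
  exact hσ

/-- `|U| = m ^ (r + 1)` for `m = |a|`. -/
theorem card_eq_pow (hR : R.AxA) : Nat.card U = Nat.card {y // R.a y} ^ (r + 1) := by
  classical
  choose x hx1 hx2 using hR.tup_ex
  have hb : Function.Bijective (fun u : U => fun i : Fin (r + 1) =>
      (⟨x u i, hx1 u i⟩ : {y // R.a y})) := by
    constructor
    · intro u u' h
      have he : x u = x u' := funext fun i => congrArg Subtype.val (congrFun h i)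
      exact hR.tup_inj u u' (x u) (hx2 u) (he ▸ hx2 u')
    · intro f
      obtain ⟨u, hu⟩ := hR.tup_surj (fun i => (f i).1) (fun i => (f i).2)
      refine ⟨u, ?_⟩
      have he := hR.tup_fun u _ _ (hx2 u) hu
      funext i
      exact Subtype.ext (congrFun he i)
  rw [Nat.card_congr (Equiv.ofBijective _ hb), Nat.card_fun, Nat.card_fin]

/-- The certificate. -/
theorem pow_le (hR : R.Ax0) : Nat.card {y // R.a y} ^ C ≤ 2 ^ (R.wid ^ A) := by
  classical
  have hi : Function.Injective (fun (x : Fin C → {y // R.a y}) =>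
      fun (i : Fin A → {y // R.wp y}) => R.cert (fun j => (x j).1) (fun j => (i j).1)) := by
    intro x x' h
    by_contra hne
    obtain ⟨i, hi, hc⟩ := hR.cert (fun j => (x j).1) (fun j => (x' j).1) (fun j => (x j).2)
      (fun j => (x' j).2) (fun he => hne (funext fun j => Subtype.ext (congrFun he j)))
    exact hc (iff_of_eq (congrFun h (fun j => ⟨i j, hi j⟩)))
  have h := Nat.card_le_card_of_injective _ hi
  have e1 : Nat.card (Fin C → {y // R.a y}) = Nat.card {y // R.a y} ^ C := by
    rw [Nat.card_fun, Nat.card_fin]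
  have e2 : Nat.card ((Fin A → {y // R.wp y}) → Prop) = 2 ^ (R.wid ^ A) := by
    rw [Nat.card_fun, Nat.card_fun, Nat.card_fin]
    have : Nat.card Prop = 2 := by simp [Nat.card_eq_fintype_card]
    rw [this]
    rfl
  rwa [e1, e2] at h

/-- The partial sums of a path of additions. -/
theorem sum_iff (hR : R.AxA) (y σ : U) (σ' : Fin b → U) :
    (∃ t : Fin (b + 1) → U, t 0 = y ∧ (∀ i : Fin b, R.add (t i.castSucc) (σ' i) (t i.succ)) ∧
      t (Fin.last b) = σ) ↔ R.rank σ = R.rank y + ∑ i, R.rank (σ' i) := by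
  constructor
  · rintro ⟨t, h0, h1, h2⟩
    have h := path_sum b (fun i => R.rank (σ' i)) (fun j => R.rank (t j))
      (fun i => (rank_add hR).1 (h1 i))
    simp only [h0, h2] at h
    exact h
  · intro h
    obtain ⟨g, hg0, hg1, hg2, hg3⟩ := exists_path b (R.rank y) (fun i => R.rank (σ' i))
    have hlt : ∀ j, g j < Nat.card U := fun j =>
      lt_of_le_of_lt (hg3 j) (h ▸ rank_lt_card hR σ)
    choose t ht using fun j => exists_rank hR (hlt j)
    refine ⟨t, rank_inj hR ((ht 0).trans hg0), fun i => (rank_add hR).2 ?_,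
      rank_inj hR ((ht _).trans (hg2.trans h.symm))⟩
    rw [ht, ht]
    exact hg1 i

end Pool.Agent.Helper72.TX
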