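import Mathlib
import Pool.Agent.Helper72.TX.Lift

set_option autoImplicit false

/-!
# TX: the recursion for the states `(s, K, F)` of configurations with coded windows
-/

namespace Pool.Agent.Helper72.TX

open FirstOrder FirstOrder.Language

variable {L : FirstOrder.Language.{0, 0}} {b : ℕ}

private theorem size_congr_p {C C' : Cfg L b} (h : ∀ α, C.p α = C'.p α) : C.size = C'.size := by
  have hp : C.p = C'.p := funext h
  unfold Cfg.size
  rw [hp]

theorem Cfg.at_nil (C : Cfg L b) : C.at [] = C := rfl

theorem Cfg.sub_at (C : Cfg L b) (i : Fin b) (γ : Adr b) : (C.sub i).at γ = C.at (i :: γ) := rfl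

theorem WinEq.at {H : ℕ} {C C' : Cfg L b} (γ : Adr b) (h : WinEq (γ.length + H) C C') :
    WinEq H (C.at γ) (C'.at γ) := by
  refine ⟨fun α hα => ?_, fun n R v h1 h2 h3 => ?_⟩
  · exact h.1 (γ ++ α) (by rw [List.length_append]; omega)
  · refine h.2 n R (fun j => (γ ++ (v j).1, (v j).2)) (fun i => ?_) h2 (fun i j => ?_)
    · rw [List.length_append]
      have := h1 i
      omega
    · rw [td_append]
      exact h3 i j

theorem AllW.sub {Cod : Cfg L b → Prop} {C : Cfg L b} (h : AllW Cod C) (i : Fin b) :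
    AllW Cod (C.sub i) := fun γ => h (i :: γ)

theorem pc_iff {Cod : Cfg L b → Prop} (G k W s : ℕ) (hCod : CodInv G Cod) (K : Cfg L b)
    (hcK : Cod K) (F : FI L b G k) : PC Cod G k W s K F ↔
    (s = 0 ∧ (∀ α : Adr b, α.length ≤ 2 * rad G + 1 → K.p α = 0) ∧ F = finfo0 L b G k) ∨
    (1 ≤ K.p [] ∧ K.p [] ≤ W ∧ ∃ (K' : Fin b → Cfg L b) (s' : Fin b → ℕ)
      (F' : Fin b → FI L b G k), (∀ i, Cod (K' i)) ∧ (∀ i, PC Cod G k W (s' i) (K' i) (F' i)) ∧
        s = K.p [] + ∑ i, s' i ∧ (∀ i, WinEq (2 * rad G) (K.sub i) (K' i)) ∧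
        F = upd G k (fun i => tinfo G (K' i)) F') := by
  constructor
  · rintro ⟨C, hv, hall', hs, hK, hF⟩
    have h0 : K.p [] = C.p [] := hK.1 [] (by simp)
    rcases Nat.eq_zero_or_pos (C.p []) with hz | hz
    · left
      have hall : ∀ α, C.p α = 0 := fun α => hv.p_eq_zero hz α
      refine ⟨?_, ?_, ?_⟩
      · rw [← hs]
        exact (size_eq_zero hv).2 hall
      · intro α hα
        rw [hK.1 α hα]
        exact hall α
      · rw [← hF]
        exact finfo_of_empty hall
    · right
      refine ⟨?_, ?_, fun i => C.sub i, fun i => (C.sub i).size, fun i => finfo G k (C.sub i),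
        fun i => hall' [i], fun i => ⟨C.sub i, hv.sub i, hall'.sub i, rfl, WinEq.refl _ _, rfl⟩,
        ?_, fun i => hK.sub i, ?_⟩
      · rw [h0]
        exact hz
      · rw [h0]
        exact hv.1 []
      · rw [← hs, h0]
        exact size_eq hv
      · rw [← hF]
        exact finfo_step G k C
  · rintro (⟨hs, hK, hF⟩ | ⟨h1, h2, K', s', F', -, hPP, hs, hKs, hF⟩)
    · let C : Cfg L b := { p := fun _ => 0, rel := K.rel }
      have hall : ∀ α, C.p α = 0 := fun _ => rfl
      have hv : C.Valid W := by
        refine ⟨fun α => Nat.zero_le _, fun α i h => absurd (hall _) h, ?_⟩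
        have he : {α | C.p α ≠ 0} = (∅ : Set (Adr b)) := by
          ext α
          simp [hall α]
        rw [he]
        exact Set.finite_empty
      refine ⟨C, hv, ?_, ?_, ⟨fun α hα => (hK α hα).trans (hall α).symm,
        fun n R v _ _ _ => Iff.rfl⟩, ?_⟩
      · intro γ
        refine hCod K _ ⟨fun α hα => hK α hα, fun n R v h1 h2 _ => ?_⟩ hcK
        cases n with
        | zero =>
          have e : v = fun j => (γ ++ (v j).1, (v j).2) := funext fun j => j.elim0
          show K.rel 0 R v ↔ K.rel 0 R (fun j => (γ ++ (v j).1, (v j).2))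
          rw [← e]
        | succ n =>
          have h3 := h2 0
          rw [hK _ (h1 0)] at h3
          exact absurd h3 (Nat.not_lt_zero _)
      · rw [hs]
        exact (size_eq_zero hv).2 hall
      · rw [hF]
        exact finfo_of_empty hall
    · choose C' hv' hall' hs' hK' hF' using hPP
      have hwin : ∀ i, WinEq (2 * rad G) (K.sub i) (C' i) := fun i =>
        (hKs i).trans ((hK' i).mono (Nat.le_succ _))
      obtain ⟨C, hv, hKC, hsub⟩ := exists_join (2 * rad G) W K C' h1 h2 hv' hwin
      have h0 : K.p [] = C.p [] := hKC.1 [] (by simp)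
      refine ⟨C, hv, ?_, ?_, hKC, ?_⟩
      · intro γ
        cases γ with
        | nil => exact hCod K _ hKC hcK
        | cons i γ =>
          exact hCod _ _ (WinEq.at γ (hsub i _)).symm (hall' i γ)
      · rw [size_eq hv, hs, h0]
        congr 1
        refine Finset.sum_congr rfl fun i _ => ?_
        rw [← hs' i]
        exact size_congr_p fun α => (hsub i α.length).1 α le_rfl
      · rw [finfo_step G k C, hF]
        congr 1
        · funext i
          exact (tinfo_winEq (hsub i _)).trans
            (tinfo_winEq ((hK' i).mono (Nat.le_succ _))).symm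
        · funext i
          rw [finfo_congr (hsub i)]
          exact hF' i

/-- `PC` depends on `K` only up to `WinEq`. -/
theorem pc_congr {Cod : Cfg L b → Prop} {G k W s : ℕ} {K K' : Cfg L b} {F : FI L b G k}
    (hK : WinEq (2 * rad G + 1) K K') (h : PC Cod G k W s K F) : PC Cod G k W s K' F := by
  obtain ⟨C, hv, hc, hs, hw, hf⟩ := h
  exact ⟨C, hv, hc, hs, hK.symm.trans hw, hf⟩

theorem pc_le {Cod : Cfg L b → Prop} {G k W s : ℕ} {K : Cfg L b} {F : FI L b G k}
    (h : PC Cod G k W s K F) (α : Adr b) (hα : α.length ≤ 2 * rad G + 1) : K.p α ≤ W := by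
  obtain ⟨C, hv, -, hs, hw, hf⟩ := h
  rw [hw.1 α hα]
  exact hv.1 α

end Pool.Agent.Helper72.TX
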