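import Mathlib
import Pool.Agent.Helper72.TX.WinConf
import Pool.Agent.Helper72.TX.RecC

set_option autoImplicit false

/-!
# TX: the reachable states are the states of configurations with coded windows
-/

namespace Pool.Agent.Helper72.TX

open FirstOrder FirstOrder.Language

variable {L : FirstOrder.Language.{0, 0}} {b G k A C r : ℕ} {U : Type} [Finite U]
  {R : Rc L b G k A C r U}

omit [Finite U] in
theorem coded_inv (R : Rc L b G k A C r U) : CodInv G R.Coded := by
  rintro C C' h ⟨κ, hκ⟩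
  exact ⟨κ, hκ.trans h⟩

omit [Finite U] in
theorem coded_conf (R : Rc L b G k A C r U) (κ : U) : R.Coded (R.conf κ) :=
  ⟨κ, WinEq.refl _ _⟩

theorem step_QP (hR : R.AxA) (F : FI L b G k) (κ σ : U) :
    R.QP F κ σ ↔ R.Step R.QP F κ σ := by
  unfold Rc.QP
  rw [pc_iff G k R.wid (R.rank σ) (coded_inv R) (R.conf κ) (coded_conf R κ) F]
  constructor
  · rintro (⟨h1, h2, h3⟩ | ⟨h1, h2, K', s', F', hc, hP, hs, hw, hF⟩)
    · refine Or.inl ⟨(zero_iff hR).2 h1, fun α => ?_, h3⟩
      obtain ⟨y, hy, -, -⟩ := hR.sz_ex α κ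
      refine ⟨y, hy, (zero_iff hR).2 ?_⟩
      rw [← conf_p hR α hy]
      exact h2 α.1 α.2
    · obtain ⟨y, hy, -, -⟩ := hR.sz_ex ⟨[], Nat.zero_le _⟩ κ
      have hpy : (R.conf κ).p [] = R.rank y := conf_p hR _ hy
      choose κ' hκ' using hc
      have hσ' : ∀ i, ∃ u, R.rank u = s' i := by
        intro i
        refine exists_rank hR (lt_of_le_of_lt ?_ (rank_lt_card hR σ))
        rw [hs]
        exact (Finset.single_le_sum (f := s') (fun _ _ => Nat.zero_le _)
          (Finset.mem_univ i)).trans (Nat.le_add_left _ _)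
      choose σ' hσ' using hσ'
      obtain ⟨t, ht0, ht, htl⟩ := (sum_iff hR y σ σ').2 (by
        rw [hs, hpy]
        congr 1
        exact Finset.sum_congr rfl fun i _ => (hσ' i).symm)
      refine Or.inr ⟨y, hy, ?_, κ', σ', t, F', fun i => ?_, ht0, ht, htl, fun i => ?_, ?_⟩
      · intro hz
        have := (zero_iff hR).1 hz
        omega
      · show PC R.Coded G k R.wid (R.rank (σ' i)) (R.conf (κ' i)) (F' i)
        rw [hσ' i]
        exact pc_congr (hκ' i).symm (hP i)
      · exact (weq_iff hR i κ (κ' i)).2 ((hw i).trans ((hκ' i).symm.mono (Nat.le_succ _)))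
      · rw [hF]
        congr 1
        funext i
        rw [ti_eq hR]
        exact (tinfo_winEq ((hκ' i).mono (Nat.le_succ _))).symm
  · rintro (⟨h1, h2, h3⟩ | ⟨y, hy, hz, κ', σ', t, F', hQ, ht0, ht, htl, hw, hF⟩)
    · refine Or.inl ⟨(zero_iff hR).1 h1, fun α hα => ?_, h3⟩
      obtain ⟨y, hy, hy0⟩ := h2 ⟨α, hα⟩
      rw [conf_p hR ⟨α, hα⟩ hy]
      exact (zero_iff hR).1 hy0
    · have hpy : (R.conf κ).p [] = R.rank y := conf_p hR _ hy
      refine Or.inr ⟨?_, ?_, fun i => R.conf (κ' i), fun i => R.rank (σ' i), F',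
        fun i => coded_conf R (κ' i), hQ, ?_, fun i => (weq_iff hR i κ (κ' i)).1 (hw i), ?_⟩
      · rw [hpy]
        by_contra hc
        exact hz ((zero_iff hR).2 (by omega))
      · exact conf_p_le hR κ []
      · rw [hpy]
        exact (sum_iff hR y σ σ').1 ⟨t, ht0, ht, htl⟩
      · rw [hF]
        congr 1
        funext i
        exact ti_eq hR (κ' i)

theorem step_unique (hR : R.AxA) {Q Q' : FI L b G k → U → U → Prop}
    (h : ∀ F κ σ, Q F κ σ ↔ R.Step Q F κ σ) (h' : ∀ F κ σ, Q' F κ σ ↔ R.Step Q' F κ σ)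
    (F : FI L b G k) (κ σ : U) : Q F κ σ ↔ Q' F κ σ := by
  have key : ∀ n, ∀ (F : FI L b G k) (κ σ : U), R.rank σ = n → (Q F κ σ ↔ Q' F κ σ) := by
    intro n
    induction n using Nat.strong_induction_on with
    | _ n ih =>
      intro F κ σ hσ
      have aux : ∀ (P P' : FI L b G k → U → U → Prop),
          (∀ (F : FI L b G k) (κ' σ' : U), R.rank σ' < n → (P F κ' σ' → P' F κ' σ')) →
          R.Step P F κ σ → R.Step P' F κ σ := by
        rintro P P' hPP (h1 | ⟨y, hy, hz, κ', σ', t, F', hQ, ht0, ht, htl, hw, hF⟩)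
        · exact Or.inl h1
        · refine Or.inr ⟨y, hy, hz, κ', σ', t, F', fun i => hPP _ _ _ ?_ (hQ i), ht0, ht, htl,
            hw, hF⟩
          have h1 := (sum_iff hR y σ σ').1 ⟨t, ht0, ht, htl⟩
          have h2 : R.rank (σ' i) ≤ ∑ i, R.rank (σ' i) :=
            Finset.single_le_sum (f := fun i => R.rank (σ' i)) (fun _ _ => Nat.zero_le _)
              (Finset.mem_univ i)
          have h3 : R.rank y ≠ 0 := fun h0 => hz ((zero_iff hR).2 h0)
          omega
      rw [h, h']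
      exact ⟨aux Q Q' fun F κ' σ' hlt => (ih _ hlt F κ' σ' rfl).1,
        aux Q' Q fun F κ' σ' hlt => (ih _ hlt F κ' σ' rfl).2⟩
  exact key _ F κ σ rfl

end Pool.Agent.Helper72.TX
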