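import Mathlib
import Pool.Agent.Helper72.TX.StepC
import Pool.Agent.Helper72.TX.Repr
import Pool.Agent.Helper72.TX.Accept
import Pool.Agent.Helper72.TX.FromModel
import Pool.Agent.Helper72.TX.NumT
import Pool.Agent.Helper72.TX.Exist
import Pool.Agent.Helper72.TX.AxU2
import Pool.Agent.Helper72.WT.Barrier
import Pool.Agent.Helper87.AU.Decode

set_option autoImplicit false

/-!
# TX: narrow tree-layerings, dense version
-/

namespace Pool.Agent.Helper72.TX

open FirstOrder FirstOrder.Language Pool.Agent.Helper31.Spectra Pool.Agent.Helper87.AU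

/-- Intersection with a final segment. -/
theorem isSpectrum_ge {S : Set ℕ} (hS : IsSpectrum S) (B : ℕ) : IsSpectrum {n | n ∈ S ∧ B ≤ n} := by
  obtain ⟨L, φ, hL, rfl⟩ := hS
  refine ⟨L, φ ⊓ Sentence.cardGe L B, hL, ?_⟩
  ext n
  constructor
  · rintro ⟨hn, M, sM, hM, hr⟩
    obtain ⟨h1, h2⟩ := Formula.realize_inf.1 hr
    refine ⟨⟨hn, M, sM, hM, h1⟩, ?_⟩
    have hfin : Finite M := Nat.finite_of_card_ne_zero (by omega)
    have h3 : (B : Cardinal) ≤ Cardinal.mk M := (Sentence.realize_cardGe L B).1 h2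
    rw [← hM]
    rw [← Nat.cast_card] at h3
    exact_mod_cast h3
  · rintro ⟨⟨hn, M, sM, hM, hr⟩, hB⟩
    have hfin : Finite M := Nat.finite_of_card_ne_zero (by omega)
    refine ⟨hn, M, sM, hM, Formula.realize_inf.2 ⟨hr, (Sentence.realize_cardGe L B).2 ?_⟩⟩
    rw [← Nat.cast_card, hM]
    exact_mod_cast hB

/-- From a sentence for the numbers `n ^ (r + 1)` to the complement. -/
theorem sandwich_of {LX : FirstOrder.Language.{0, 0}} (hLX : FinVoc LX) (σ : LX.Sentence)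
    (r B : ℕ) : IsSpectrum {n | 0 < n ∧ n ∉ {m | B ≤ m ∧ m ^ (r + 1) ∉ Spec LX σ}} := by
  have hdec := isSpectrum_ge (decode hLX σ r 1 le_rfl) B
  have hsmall : IsSpectrum {n | 0 < n ∧ n < B} :=
    Pool.Agent.Helper72.WT.isSpectrum_finite (fun n hn => hn.1) B (fun n hn => hn.2.le)
  have hunion := hdec.union hsmall
  have heq : {n | 0 < n ∧ n ∉ {m | B ≤ m ∧ m ^ (r + 1) ∉ Spec LX σ}} =
      {n | n ∈ {m | 0 < m ∧ 1 * m ^ (r + 1) ∈ Spec LX σ} ∧ B ≤ n} ∪ {n | 0 < n ∧ n < B} := by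
    ext n
    constructor
    · rintro ⟨h1, h2⟩
      rcases Nat.lt_or_ge n B with h3 | h3
      · exact Or.inr ⟨h1, h3⟩
      · refine Or.inl ⟨⟨h1, ?_⟩, h3⟩
        rw [one_mul]
        by_contra h4
        exact h2 ⟨h3, h4⟩
    · rintro (⟨⟨h1, h2⟩, h3⟩ | ⟨h1, h2⟩)
      · refine ⟨h1, fun h4 => h4.2 ?_⟩
        rw [one_mul] at h2
        exact h2
      · refine ⟨h1, fun h4 => ?_⟩
        have := h4.1
        omega
  rw [heq]
  exact hunion

/-- A record with another relation `reach`. -/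
def Rc.withReach {L : FirstOrder.Language.{0, 0}} {b G k A C r : ℕ} {U : Type}
    (R : Rc L b G k A C r U) (Q : FI L b G k → U → U → Prop) : Rc L b G k A C r U :=
  { R with reach := Q }

theorem Rc.Ax0.withReach {L : FirstOrder.Language.{0, 0}} {b G k A C r : ℕ} {U : Type}
    {R : Rc L b G k A C r U} (hR : R.Ax0) (Q : FI L b G k → U → U → Prop) :
    (R.withReach Q).Ax0 where
  refl := hR.refl
  antisymm := hR.antisymm
  trans := hR.trans
  total := hR.total
  add0 := hR.add0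
  addS := hR.addS
  wp_init := hR.wp_init
  wp_top := hR.wp_top
  cert := hR.cert
  sz_ex := hR.sz_ex
  cl_sz := hR.cl_sz
  cl_bit := hR.cl_bit
  tup_ex := hR.tup_ex
  tup_fun := hR.tup_fun
  tup_inj := hR.tup_inj
  tup_surj := hR.tup_surj
  top_ex := hR.top_ex

/-- The accepting informations. -/
def GoodS {L : FirstOrder.Language.{0, 0}} (hL : ∀ n, IsEmpty (L.Functions n)) (φ : L.Sentence)
    (b G k : ℕ) (θ : TI L b G) (F : FI L b G k) : Prop :=
  ∃ C : Cfg L b, (∃ x : Adr b × ℕ, x.2 < C.p x.1) ∧ C.str.Models hL φ ∧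
    root G k (tinfo G C) (finfo G k C) = root G k θ F

theorem nonempty_of_size {L : FirstOrder.Language.{0, 0}} {b : ℕ} {C : Cfg L b}
    (h : C.size ≠ 0) : ∃ x : Adr b × ℕ, x.2 < C.p x.1 := by
  by_contra hc
  push Not at hc
  apply h
  unfold Cfg.size
  have : IsEmpty {x : Adr b × ℕ // x.2 < C.p x.1} := ⟨fun x => absurd x.2 (not_lt.2 (hc x.1))⟩
  exact Nat.card_of_isEmpty

/-- Soundness: a coded structure of size `m ^ (r + 1)` excludes models of size `m` with coded
windows. -/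
theorem sound {L : FirstOrder.Language.{0, 0}} (hL : ∀ n, IsEmpty (L.Functions n))
    (φ : L.Sentence) {b G k A C r m : ℕ} {U : Type} [Finite U] {R : Rc L b G k A C r U}
    (hR0 : R.AxA) (hR1 : R.AxR (GoodS hL φ b G k)) (hcard : Nat.card {y // R.a y} = m)
    (C0 : Cfg L b) (hV : C0.Valid R.wid) (hcod : AllW R.Coded C0) (hsz : C0.size = m)
    (hm : m ≠ 0) (hmod : C0.str.Models hL φ) : False := by
  obtain ⟨κ, hκ⟩ := hcod []
  obtain ⟨σ₀, hσ₀⟩ := hR0.top_ex
  have hreach : R.reach (finfo G k C0) κ σ₀ := by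
    rw [step_unique hR0 (Q' := R.QP) hR1.reach_rec (step_QP hR0)]
    refine ⟨C0, hV, hcod, ?_, hκ, rfl⟩
    rw [hsz, (top_iff hR0).1 hσ₀, hcard]
  refine hR1.final _ κ σ₀ hσ₀ hreach ⟨C0, ?_, hmod, ?_⟩
  · refine nonempty_of_size ?_
    rw [hsz]
    exact hm
  · rw [ti_eq hR0, tinfo_winEq (hκ.mono (Nat.le_succ _))]
    rfl

/-- Completeness: with `reach = QP` no accepting state is reached if there is no model of
size `m`. -/
theorem complete {L : FirstOrder.Language.{0, 0}} (hL : ∀ n, IsEmpty (L.Functions n))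
    (φ : L.Sentence) {b G k A C r m : ℕ} {U : Type} [Finite U] {R : Rc L b G k A C r U}
    (hacc : ∀ C C' : Cfg L b, (∃ x : Adr b × ℕ, x.2 < C.p x.1) →
      root G k (tinfo G C) (finfo G k C) = root G k (tinfo G C') (finfo G k C') →
      (C.str.Models hL φ ↔ C'.str.Models hL φ))
    (hR0 : R.AxA) (hQ : R.reach = R.QP) (hcard : Nat.card {y // R.a y} = m) (hm : 0 < m)
    (hnot : m ∉ Spec L φ) : R.AxR (GoodS hL φ b G k) := by
  refine ⟨?_, ?_⟩
  · intro F κ σ'
    rw [hQ]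
    exact step_QP hR0 F κ σ'
  · intro F κ σ' hσ' hreach hgood
    rw [hQ] at hreach
    obtain ⟨C', hV, -, hsz, hwin, hfi⟩ : R.QP F κ σ' := hreach
    obtain ⟨C'', hne'', hmod, hroot⟩ := hgood
    have hti : R.ti κ = tinfo G C' := by
      rw [ti_eq hR0]
      exact tinfo_winEq (hwin.mono (Nat.le_succ _))
    rw [hti, ← hfi] at hroot
    have hmod' : C'.str.Models hL φ := (hacc C'' C' hne'' hroot).1 hmod
    obtain ⟨M, sM, hcM, hM⟩ := spec_of_cfg hL φ C' hmod'
    apply hnot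
    refine ⟨hm, M, sM, ?_, hM⟩
    rw [hcM, hsz, (top_iff hR0).1 hσ']
    exact hcard

theorem sandwich_dense {L : FirstOrder.Language.{0, 0}} (hL : ∀ n, IsEmpty (L.Functions n))
    (hf : Finite (Σ n, L.Relations n)) (A : ℕ) (hA1 : 1 ≤ A)
    (hA : ∀ n, A < n → IsEmpty (L.Relations n)) (φ : L.Sentence) (b C : ℕ) :
    ∃ T : Set ℕ, IsSpectrum {n | 0 < n ∧ n ∉ T} ∧ (∀ n ∈ T, n ∈ Spec L φ) ∧
      ∀ (M : Type) [L.Structure M] (w : ℕ), 3 ≤ Nat.card M → φ.Realize M →
        TreeLayering b w L M → 2 ^ (w ^ A) ≤ Nat.card M ^ C → Nat.card M ∈ T := by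
  obtain ⟨G, k, hacc⟩ := accept hL φ b
  -- parameters
  set C₁ := C + 1 with hC₁
  set B₁ := Nat.card (Win b (2 * rad G + 1)) with hB₁
  set B₂ := Nat.card (Σ s : (Σ n, L.Relations n), (Fin s.1 → Win b (2 * rad G + 1))) with hB₂
  set r := C₁ * 2 ^ A * (B₁ + B₂ + 1) with hr
  have hr1 : 1 ≤ r := by
    rw [hr]
    have : 0 < C₁ * 2 ^ A * (B₁ + B₂ + 1) := by positivity
    omega
  obtain ⟨σ, hσ⟩ := ax_sentence hf b G k A C₁ r (GoodS hL φ b G k)
  have hfin := finVoc_LR hf b G k A C₁ r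
  have hLR : FinVoc (LR L b G k A C₁ r) := by
    refine ⟨?_, hfin⟩
    have : IsEmpty (Σ n, (LR L b G k A C₁ r).Functions n) := ⟨fun z => z.2.elim⟩
    infer_instance
  refine ⟨{m | 3 ≤ m ∧ m ^ (r + 1) ∉ Spec (LR L b G k A C₁ r) σ}, sandwich_of hLR σ r 3, ?_, ?_⟩
  · rintro m ⟨hm3, hnotin⟩
    have hmpos : 0 < m := by omega
    by_contra hnot
    apply hnotin
    obtain ⟨W, hW1, hcert, hWB⟩ := exists_width (A := A) (C := C₁) (m := m) hA1
      (by omega) hm3
    have hle : ∀ B', B' ≤ B₁ + B₂ + 1 → 2 ^ (B' * W ^ A) ≤ m ^ r := by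
      intro B' hB'
      refine (Nat.pow_le_pow_right (by norm_num) (Nat.mul_le_mul_right _ hB')).trans ?_
      exact hWB (B₁ + B₂ + 1)
    have hWA : W ≤ W ^ A := by
      calc W = W ^ 1 := (pow_one W).symm
        _ ≤ W ^ A := Nat.pow_le_pow_right hW1 hA1
    have hWlt : W + 1 ≤ 2 ^ (W ^ A) := by
      have h1 : W + 1 ≤ 2 ^ W := Nat.lt_two_pow_self
      exact h1.trans (Nat.pow_le_pow_right (by norm_num) hWA)
    have hmr : m ^ r ≤ m ^ (r + 1) := Nat.pow_le_pow_right hmpos (Nat.le_succ r)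
    obtain ⟨R₀, hR₀, hwid, hcarda⟩ := exists_ax0 L hf b G k A C₁ r m W hA (by omega) hr1 hW1
      (by
        have h1 := hle 1 (by omega)
        rw [one_mul] at h1
        omega) hcert (by
        have h1 := hle (B₁ + B₂) (by omega)
        refine le_trans ?_ (h1.trans hmr)
        rw [add_mul, pow_add]
        refine Nat.mul_le_mul_right _ ?_
        refine (Nat.pow_le_pow_left hWlt _).trans ?_
        rw [← pow_mul, mul_comm])
    set R := R₀.withReach R₀.QP with hRdef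
    have hR0 : R.Ax0 := hR₀.withReach _
    refine ⟨by positivity, Fin (m ^ (r + 1)), ofRc R, by simp, ?_⟩
    rw [hσ, toRc_ofRc]
    exact ⟨hR0, complete hL φ hacc hR0.toAxA rfl hcarda hmpos hnot⟩
  · intro M sM w hcM hM hT hw
    set m := Nat.card M with hmdef
    refine ⟨hcM, ?_⟩
    rintro ⟨hpos, U, sU, hcU, hU⟩
    have hmpos : 0 < m := by omega
    have hfM : Finite M := Nat.finite_of_card_ne_zero (by omega)
    have hfU : Finite U := Nat.finite_of_card_ne_zero (by omega)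
    have hneU : Nonempty U := by
      by_contra hc
      rw [not_nonempty_iff] at hc
      rw [Nat.card_of_isEmpty] at hcU
      omega
    set R := toRc L b G k A C₁ r U with hRdef
    obtain ⟨hR0, hR1⟩ : R.Ax (GoodS hL φ b G k) := (hσ U).1 hU
    have hcard : Nat.card {y // R.a y} = m := by
      have h1 := card_eq_pow hR0.toAxA
      rw [hcU] at h1
      exact (Nat.pow_left_injective (Nat.succ_ne_zero r) h1).symm
    have hww : w ≤ R.wid := by
      have h1 := pow_le hR0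
      rw [hcard] at h1
      have h2 : 2 ^ (w ^ A) ≤ 2 ^ (R.wid ^ A) :=
        hw.trans ((Nat.pow_le_pow_right hmpos (Nat.le_succ C)).trans h1)
      have h3 : w ^ A ≤ R.wid ^ A := (Nat.pow_le_pow_iff_right (by norm_num)).1 h2
      exact (Nat.pow_le_pow_iff_left (by omega)).1 h3
    obtain ⟨C0, hV, hsz, hmod⟩ := cfg_of_model hL φ w M hM hT
    have hV' := hV.mono hww
    refine sound hL φ hR0.toAxA hR1 hcard C0 hV' (fun γ => ?_) hsz (by omega) hmod
    exact exists_code hf hR0 (C0.at γ) (fun α _ => hV'.1 (γ ++ α))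

end Pool.Agent.Helper72.TX
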