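import Mathlib
import Pool.Agent.Helper72.TX.CodeDefs

set_option autoImplicit false

/-!
# TX: coded reachability, sparse version (definitions)

In the sparse version only the windows with at most `D` tuples per first point (for each relation symbol and each
choice of the addresses) are coded. `nb s w j i κ x y`: in the window coded by `κ` the `i`-th entry of the `j`-th tuple
of the relation `s` with addresses `w` and first point `x` is `y` (`y` has rank `W` if there is no such tuple).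
The certificate `cert` (with `A = 2`) is an injection of `m ^ C` into the functions from `W` to `W + 1`.
-/

namespace Pool.Agent.Helper72.TX

open FirstOrder FirstOrder.Language

/-- The relations of a sparse coded reachability structure. -/
structure Sp (L : FirstOrder.Language.{0, 0}) (b G k C r D : ℕ) (U : Type) extends
    Rc L b G k 2 C r U where
  nb : ∀ s : (Σ n, L.Relations n), (Fin s.1 → Win b (2 * rad G + 1)) → Fin D → Fin s.1 →
    U → U → U → Prop

variable {L : FirstOrder.Language.{0, 0}} {b G k C r D : ℕ} {U : Type}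

/-- The indices of the lists of neighbours. -/
abbrev Slot (L : FirstOrder.Language.{0, 0}) (b G D : ℕ) : Type :=
  Σ z : (Σ s : (Σ n, L.Relations n), Fin s.1 → Win b (2 * rad G + 1)), Fin D × Fin z.1.1

/-- The list relation of a slot. -/
def Sp.nbs (R : Sp L b G k C r D U) (c : Slot L b G D) (κ x y : U) : Prop :=
  R.nb c.1.1 c.1.2 c.2.1 c.2.2 κ x y

/-- The nullary relation `P` in the window coded by `κ`. -/
def Sp.nul (R : Sp L b G k C r D U) (P : L.Relations 0) (κ : U) : Prop :=
  R.bit ⟨0, P⟩ (fun i => i.elim0) κ (fun i => i.elim0)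

/-- The axioms of the sparse version, except those for `reach`. -/
structure Sp.Ax1 (R : Sp L b G k C r D U) : Prop extends Rc.AxA R.toRc where
  cert_ex : ∀ x : Fin C → U, (∀ j, R.a (x j)) → ∀ i, R.wp i → ∃ y, R.small y ∧ R.cert x ![i, y]
  cert_fun : ∀ (x : Fin C → U) (i y y' : U), R.cert x ![i, y] → R.cert x ![i, y'] → y = y'
  cert_inj : ∀ x x' : Fin C → U, (∀ j, R.a (x j)) → (∀ j, R.a (x' j)) → x ≠ x' →
    ∃ i y, R.wp i ∧ R.small y ∧ R.cert x ![i, y] ∧ ¬ R.cert x' ![i, y]
  nb_ex : ∀ (c : Slot L b G D) (κ x : U), R.wp x →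
    ∃ y, R.nbs c κ x y ∧ R.small y ∧ ∀ y', R.nbs c κ x y' → y' = y
  link : ∀ (s : Σ n, L.Relations n) (w : Fin s.1 → Win b (2 * rad G + 1)) (κ : U)
    (v : Fin s.1 → U) (h : 0 < s.1), (∀ i, R.wp (v i)) →
      (R.bit s w κ v ↔ ∃ j : Fin D, ∀ i, R.nb s w j i κ (v ⟨0, h⟩) (v i))
  cl_sz : ∀ κ α y, R.small y → ∃ κ', R.sz α κ' y ∧
    (∀ α', α' ≠ α → ∀ z, R.sz α' κ' z ↔ R.sz α' κ z) ∧
    (∀ c x z, R.wp x → (R.nbs c κ' x z ↔ R.nbs c κ x z)) ∧ ∀ P, R.nul P κ' ↔ R.nul P κ
  cl_nb : ∀ κ c x y, R.wp x → R.small y → ∃ κ', (∀ α z, R.sz α κ' z ↔ R.sz α κ z) ∧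
    R.nbs c κ' x y ∧ (∀ x' z, R.wp x' → x' ≠ x → (R.nbs c κ' x' z ↔ R.nbs c κ x' z)) ∧
    (∀ c', c' ≠ c → ∀ x' z, R.wp x' → (R.nbs c' κ' x' z ↔ R.nbs c' κ x' z)) ∧
    ∀ P, R.nul P κ' ↔ R.nul P κ
  cl_nul : ∀ κ P, ∃ κ', (∀ α z, R.sz α κ' z ↔ R.sz α κ z) ∧
    (∀ c x z, R.wp x → (R.nbs c κ' x z ↔ R.nbs c κ x z)) ∧ (R.nul P κ' ↔ ¬ R.nul P κ) ∧
    ∀ P', P' ≠ P → (R.nul P' κ' ↔ R.nul P' κ)

/-! ### The language -/

/-- Relation symbols of the sparse version. -/
inductive RS (L : FirstOrder.Language.{0, 0}) (b G k C r D : ℕ) : ℕ → Type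
  | base {n : ℕ} (P : RR L b G k 2 C r n) : RS L b G k C r D n
  | nb (c : Slot L b G D) : RS L b G k C r D 3

/-- The language of the sparse version. -/
abbrev LS (L : FirstOrder.Language.{0, 0}) (b G k C r D : ℕ) : FirstOrder.Language.{0, 0} :=
  ⟨fun _ => Empty, RS L b G k C r D⟩

/-- The reduct to the base language. -/
@[instance_reducible]
def redS (L : FirstOrder.Language.{0, 0}) (b G k C r D : ℕ) (U : Type)
    [(LS L b G k C r D).Structure U] : (LR L b G k 2 C r).Structure U where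
  funMap := fun f _ => f.elim
  RelMap := fun P v => Structure.RelMap (L := LS L b G k C r D) (RS.base P) v

/-- The relations of an `LS`-structure. -/
def toSp (L : FirstOrder.Language.{0, 0}) (b G k C r D : ℕ) (U : Type)
    [(LS L b G k C r D).Structure U] : Sp L b G k C r D U where
  toRc := @toRc L b G k 2 C r U (redS L b G k C r D U)
  nb := fun s w j i κ x y =>
    Structure.RelMap (L := LS L b G k C r D) (RS.nb ⟨⟨s, w⟩, (j, i)⟩) ![κ, x, y]

/-- The relation of a symbol. -/
def relSp (R : Sp L b G k C r D U) : ∀ {n : ℕ}, RS L b G k C r D n → (Fin n → U) → Prop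
  | _, RS.base P, v => relRc R.toRc P v
  | _, RS.nb c, v => R.nbs c (v 0) (v 1) (v 2)

/-- The structure given by relations. -/
@[instance_reducible]
def ofSp (R : Sp L b G k C r D U) : (LS L b G k C r D).Structure U where
  funMap := fun f _ => f.elim
  RelMap := fun P v => relSp R P v

end Pool.Agent.Helper72.TX
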