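import Mathlib
import Pool.Agent.Helper72.TX.SpDefs
import Pool.Agent.Helper72.TX.Td

set_option autoImplicit false

/-!
# TX-3: existence of sparse coded structures

Compare `Pool/Agent/Helper72/TW/Exist.lean` (the dense version; parts of its proof can be copied).
`U = Fin (m ^ (r + 1))` with the order of the values, `a x ↔ x < m`, `wp x ↔ x < W`, `add x y z ↔ x + y = z` (values). The
certificate comes from an injection `f` of `Fin C → Fin m` into `Fin W → Fin (W + 1)` (`m ^ C ≤ (W + 1) ^ W`):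
`cert x v ↔ (all x j < m) ∧ v 0 < W ∧ v 1 = f x (v 0)`; `tup` comes from a bijection of `Fin (m ^ (r + 1))` with
`Fin (r + 1) → Fin m`. The codes: the type `(Win … → Fin (W + 1)) × (Slot … × Fin W → Fin (W + 1)) × (L.Relations 0 → Bool)` of the
patterns has at most `m ^ (r + 1)` elements, so there is a surjection of `U` onto it. `sz α κ y ↔ y = (value of the
pattern)`, `nb s w j i κ x y ↔ x < W ∧ y = (value at (⟨⟨s, w⟩, (j, i)⟩, x))`, `bit s w κ v ↔` (for `s.1 = 0`: the bit of the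
pattern; for `0 < s.1`: all `v i < W` and `∃ j, ∀ i, nb s w j i κ (v 0) (v i)`). `reach := fun _ _ _ => False`.
-/

namespace Pool.Agent.Helper72.TX

open FirstOrder FirstOrder.Language

namespace SpEx

/-- The patterns coded by the elements. -/
abbrev Pt (L : FirstOrder.Language.{0, 0}) (b G D W : ℕ) : Type :=
  (Win b (2 * rad G + 1) → Fin (W + 1)) × (Slot L b G D × Fin W → Fin (W + 1)) ×
    (L.Relations 0 → Bool)

/-- The values of the certificate. -/
def cval {C m W N : ℕ} (f : (Fin C → Fin m) → Fin W → Fin (W + 1)) (x : Fin C → Fin N)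
    (i : ℕ) : ℕ :=
  if h : (∀ j, (x j).1 < m) ∧ i < W then (f (fun j => ⟨(x j).1, h.1 j⟩) ⟨i, h.2⟩).1 else 0

theorem cval_le {C m W N : ℕ} (f : (Fin C → Fin m) → Fin W → Fin (W + 1)) (x : Fin C → Fin N)
    (i : ℕ) : cval f x i ≤ W := by
  unfold cval
  split_ifs with h
  · exact Nat.le_of_lt_succ (f (fun j => ⟨(x j).1, h.1 j⟩) ⟨i, h.2⟩).2
  · exact Nat.zero_le _

theorem cval_eq {C m W N : ℕ} (f : (Fin C → Fin m) → Fin W → Fin (W + 1)) (x : Fin C → Fin N)
    (hx : ∀ j, (x j).1 < m) (i : Fin W) :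
    cval f x i.1 = (f (fun j => ⟨(x j).1, hx j⟩) i).1 := by
  unfold cval
  rw [dif_pos ⟨hx, i.2⟩]

/-- The structure. -/
def st {L : FirstOrder.Language.{0, 0}} {b G D m W r : ℕ} (k C : ℕ)
    (f : (Fin C → Fin m) → Fin W → Fin (W + 1))
    (e : Fin (m ^ (r + 1)) → Fin (r + 1) → Fin m) (g : Fin (m ^ (r + 1)) → Pt L b G D W) :
    Sp L b G k C r D (Fin (m ^ (r + 1))) where
  a := fun x => x.1 < m
  le := fun x y => x.1 ≤ y.1
  add := fun x y z => x.1 + y.1 = z.1
  wp := fun x => x.1 < W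
  cert := fun x v => (∀ j, (x j).1 < m) ∧ (v 0).1 < W ∧ (v 1).1 = cval f x (v 0).1
  sz := fun α κ y => y.1 = ((g κ).1 α).1
  bit := fun s w κ v => (∃ P : L.Relations 0, s = ⟨0, P⟩ ∧ (g κ).2.2 P = true) ∨
    ∃ h : 0 < s.1, (∀ i, (v i).1 < W) ∧ ∃ j : Fin D, ∀ i, ∃ h' : (v ⟨0, h⟩).1 < W,
      (v i).1 = ((g κ).2.1 (⟨⟨s, w⟩, (j, i)⟩, ⟨(v ⟨0, h⟩).1, h'⟩)).1
  reach := fun _ _ _ => False
  tup := fun u x => ∀ i, (x i).1 = (e u i).1
  nb := fun s w j i κ x y => ∃ h : x.1 < W,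
    y.1 = ((g κ).2.1 (⟨⟨s, w⟩, (j, i)⟩, ⟨x.1, h⟩)).1

section

variable {L : FirstOrder.Language.{0, 0}} {b G D m W r : ℕ} {k C : ℕ}
    {f : (Fin C → Fin m) → Fin W → Fin (W + 1)}
    {e : Fin (m ^ (r + 1)) → Fin (r + 1) → Fin m} {g : Fin (m ^ (r + 1)) → Pt L b G D W}

theorem ltt_iff (x y : Fin (m ^ (r + 1))) : (st k C f e g).toRc.ltt x y ↔ x.1 < y.1 := by
  change (x.1 ≤ y.1 ∧ x ≠ y) ↔ x.1 < y.1
  rw [Ne, Fin.ext_iff]
  omega

theorem zero_iff (h0 : 0 < m ^ (r + 1)) (x : Fin (m ^ (r + 1))) :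
    (st k C f e g).toRc.zero x ↔ x.1 = 0 := by
  constructor
  · intro h
    exact Nat.le_zero.1 (h ⟨0, h0⟩)
  · intro h u
    change x.1 ≤ u.1
    omega

theorem succ_iff (x y : Fin (m ^ (r + 1))) :
    (st k C f e g).toRc.succ x y ↔ y.1 = x.1 + 1 := by
  unfold Rc.succ
  constructor
  · rintro ⟨h1, h2⟩
    rw [ltt_iff] at h1
    by_contra h3
    have h4 : x.1 + 1 < m ^ (r + 1) := lt_of_le_of_lt h1 y.2
    have h5 := h2 ⟨x.1 + 1, h4⟩ ((ltt_iff _ _).2 (Nat.lt_succ_self _))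
    have h6 : y.1 ≤ x.1 + 1 := h5
    omega
  · intro h
    refine ⟨(ltt_iff _ _).2 (by omega), fun u hu => ?_⟩
    have h1 := (ltt_iff (k := k) (C := C) (f := f) (e := e) (g := g) x u).1 hu
    change y.1 ≤ u.1
    omega

theorem small_iff (hWm : W < m ^ (r + 1)) (y : Fin (m ^ (r + 1))) :
    (st k C f e g).toRc.small y ↔ y.1 ≤ W := by
  unfold Rc.small
  constructor
  · intro h
    by_contra h1
    have h2 : (⟨W, hWm⟩ : Fin (m ^ (r + 1))).1 < y.1 := by
      change W < y.1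
      omega
    have h3 : W < W := h ⟨W, hWm⟩ ((ltt_iff _ _).2 h2)
    omega
  · intro h u hu
    have h1 := (ltt_iff (k := k) (C := C) (f := f) (e := e) (g := g) u y).1 hu
    change u.1 < W
    omega

theorem nul_iff (P : L.Relations 0) (κ : Fin (m ^ (r + 1))) :
    (st k C f e g).nul P κ ↔ (g κ).2.2 P = true := by
  constructor
  · rintro (⟨P', h1, h2⟩ | ⟨h, -⟩)
    · have h3 : P = P' := by
        have := (Sigma.mk.inj_iff.1 h1).2
        exact eq_of_heq this
      rw [h3]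
      exact h2
    · exact absurd h (lt_irrefl _)
  · intro h
    exact Or.inl ⟨P, rfl, h⟩

theorem nbs_iff (c : Slot L b G D) (κ x y : Fin (m ^ (r + 1))) (hx : x.1 < W) :
    (st k C f e g).nbs c κ x y ↔ y.1 = ((g κ).2.1 (c, ⟨x.1, hx⟩)).1 := by
  constructor
  · rintro ⟨_, h⟩
    exact h
  · intro h
    exact ⟨hx, h⟩

end

/-- The number of small elements. -/
theorem card_lt (N n : ℕ) (h : n ≤ N) : Nat.card {x : Fin N // x.1 < n} = n := by
  have e : {x : Fin N // x.1 < n} ≃ Fin n :=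
    { toFun := fun x => ⟨x.1.1, x.2⟩
      invFun := fun y => ⟨⟨y.1, lt_of_lt_of_le y.2 h⟩, y.2⟩
      left_inv := fun x => rfl
      right_inv := fun y => rfl }
  rw [Nat.card_congr e, Nat.card_fin]

/-- The axioms of the structure. -/
theorem ax1 {L : FirstOrder.Language.{0, 0}} {b G D m W r : ℕ} (k C : ℕ)
    (f : (Fin C → Fin m) → Fin W → Fin (W + 1)) (hf : Function.Injective f)
    (e : Fin (m ^ (r + 1)) → Fin (r + 1) → Fin m) (he : Function.Bijective e)
    (g : Fin (m ^ (r + 1)) → Pt L b G D W) (hg : Function.Surjective g)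
    (hm : m < m ^ (r + 1)) (hWm : W < m ^ (r + 1)) : (st k C f e g).Ax1 := by
  classical
  have h0 : 0 < m ^ (r + 1) := lt_of_le_of_lt (Nat.zero_le _) hm
  refine
    { refl := fun x => le_refl x.1
      antisymm := fun x y h1 h2 => Fin.ext (le_antisymm h1 h2)
      trans := fun x y z h1 h2 => le_trans h1 h2
      total := fun x y => le_total x.1 y.1
      add0 := ?_
      addS := ?_
      wp_init := fun x y h1 h2 => lt_of_le_of_lt h2 h1
      wp_top := ⟨⟨W, hWm⟩, fun h => absurd h (lt_irrefl W)⟩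
      sz_ex := ?_
      tup_ex := ?_
      tup_fun := ?_
      tup_inj := ?_
      tup_surj := ?_
      top_ex := ?_
      cert_ex := ?_
      cert_fun := ?_
      cert_inj := ?_
      nb_ex := ?_
      link := ?_
      cl_sz := ?_
      cl_nb := ?_
      cl_nul := ?_ }
  · intro x y z hy
    rw [zero_iff h0] at hy
    rw [Fin.ext_iff]
    change x.1 + y.1 = z.1 ↔ x.1 = z.1
    omega
  · intro x y y' z' hy
    rw [succ_iff] at hy
    constructor
    · intro h
      have h1 : x.1 + y'.1 = z'.1 := h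
      have h2 : x.1 + y.1 < m ^ (r + 1) := by
        have := z'.2
        omega
      refine ⟨⟨x.1 + y.1, h2⟩, rfl, (succ_iff _ _).2 ?_⟩
      change z'.1 = x.1 + y.1 + 1
      omega
    · rintro ⟨z, h1, h2⟩
      rw [succ_iff] at h2
      have h3 : x.1 + y.1 = z.1 := h1
      change x.1 + y'.1 = z'.1
      omega
  · intro α κ
    have h1 : ((g κ).1 α).1 ≤ W := Nat.le_of_lt_succ ((g κ).1 α).2
    refine ⟨⟨((g κ).1 α).1, lt_of_le_of_lt h1 hWm⟩, rfl, (small_iff hWm _).2 h1, ?_⟩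
    intro y' hy'
    exact Fin.ext hy'
  · intro u
    exact ⟨fun i => ⟨(e u i).1, lt_trans (e u i).2 hm⟩, fun i => (e u i).2, fun i => rfl⟩
  · intro u x x' h1 h2
    funext i
    exact Fin.ext ((h1 i).trans (h2 i).symm)
  · intro u u' x h1 h2
    apply he.1
    funext i
    exact Fin.ext ((h1 i).symm.trans (h2 i))
  · intro x hx
    obtain ⟨u, hu⟩ := he.2 (fun i => ⟨(x i).1, hx i⟩)
    refine ⟨u, fun i => ?_⟩
    rw [hu]
  · refine ⟨⟨m, hm⟩, fun x => ?_⟩
    rw [ltt_iff]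
    exact Iff.rfl
  · intro x hx i hi
    have h1 : cval f x i.1 ≤ W := cval_le f x i.1
    exact ⟨⟨cval f x i.1, lt_of_le_of_lt h1 hWm⟩, (small_iff hWm _).2 h1, hx, hi, rfl⟩
  · intro x i y y' h1 h2
    exact Fin.ext (h1.2.2.trans h2.2.2.symm)
  · intro x x' hx hx' hne
    have h1 : (fun j => (⟨(x j).1, hx j⟩ : Fin m)) ≠ fun j => ⟨(x' j).1, hx' j⟩ := by
      intro h
      apply hne
      funext j
      have := congrFun h j
      exact Fin.ext (Fin.mk.inj_iff.1 this)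
    have h2 := fun h => h1 (hf h)
    have h3 : ∃ i, f (fun j => (⟨(x j).1, hx j⟩ : Fin m)) i ≠
        f (fun j => ⟨(x' j).1, hx' j⟩) i := by
      by_contra h
      push Not at h
      exact h2 (funext h)
    obtain ⟨i, hi⟩ := h3
    have h4 : cval f x i.1 ≤ W := cval_le f x i.1
    refine ⟨⟨i.1, lt_trans i.2 hWm⟩, ⟨cval f x i.1, lt_of_le_of_lt h4 hWm⟩, i.2,
      (small_iff hWm _).2 h4, ⟨hx, i.2, rfl⟩, ?_⟩
    rintro ⟨-, -, h5⟩
    have h6 : cval f x i.1 = cval f x' i.1 := h5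
    rw [cval_eq f x hx, cval_eq f x' hx'] at h6
    exact hi (Fin.ext h6)
  · intro c κ x hx
    have h1 : ((g κ).2.1 (c, ⟨x.1, hx⟩)).1 ≤ W :=
      Nat.le_of_lt_succ ((g κ).2.1 (c, ⟨x.1, hx⟩)).2
    refine ⟨⟨((g κ).2.1 (c, ⟨x.1, hx⟩)).1, lt_of_le_of_lt h1 hWm⟩, ⟨hx, rfl⟩,
      (small_iff hWm _).2 h1, ?_⟩
    intro y' hy'
    exact Fin.ext ((nbs_iff c κ x y' hx).1 hy')
  · intro s w κ v h hv
    constructor
    · rintro (⟨P, h1, -⟩ | ⟨_, -, j, h3⟩)
      · rw [h1] at h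
        exact absurd h (lt_irrefl _)
      · exact ⟨j, h3⟩
    · rintro ⟨j, h3⟩
      exact Or.inr ⟨h, hv, j, h3⟩
  · intro κ α y hy
    rw [small_iff hWm] at hy
    obtain ⟨κ', hκ'⟩ := hg (Function.update (g κ).1 α ⟨y.1, Nat.lt_succ_of_le hy⟩, (g κ).2)
    refine ⟨κ', ?_, ?_, ?_, ?_⟩
    · change y.1 = ((g κ').1 α).1
      rw [hκ']
      simp
    · intro α' hα z
      change z.1 = ((g κ').1 α').1 ↔ z.1 = ((g κ).1 α').1
      rw [hκ']
      simp only [Function.update_of_ne hα]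
    · intro c x z hx
      rw [nbs_iff c κ' x z hx, nbs_iff c κ x z hx, hκ']
    · intro P
      rw [nul_iff, nul_iff, hκ']
  · intro κ c x y hx hy
    rw [small_iff hWm] at hy
    obtain ⟨κ', hκ'⟩ := hg ((g κ).1, Function.update (g κ).2.1 (c, ⟨x.1, hx⟩)
      ⟨y.1, Nat.lt_succ_of_le hy⟩, (g κ).2.2)
    refine ⟨κ', ?_, ?_, ?_, ?_, ?_⟩
    · intro α z
      change z.1 = ((g κ').1 α).1 ↔ z.1 = ((g κ).1 α).1
      rw [hκ']
    · rw [nbs_iff c κ' x y hx, hκ']
      simp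
    · intro x' z hx' hne
      rw [nbs_iff c κ' x' z hx', nbs_iff c κ x' z hx', hκ']
      have h1 : (c, (⟨x'.1, hx'⟩ : Fin W)) ≠ (c, ⟨x.1, hx⟩) := by
        intro h
        apply hne
        exact Fin.ext (Fin.mk.inj_iff.1 (Prod.ext_iff.1 h).2)
      simp only [Function.update_of_ne h1]
    · intro c' hne x' z hx'
      rw [nbs_iff c' κ' x' z hx', nbs_iff c' κ x' z hx', hκ']
      have h1 : (c', (⟨x'.1, hx'⟩ : Fin W)) ≠ (c, ⟨x.1, hx⟩) := by
        intro h
        exact hne (Prod.ext_iff.1 h).1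
      simp only [Function.update_of_ne h1]
    · intro P
      rw [nul_iff, nul_iff, hκ']
  · intro κ P
    obtain ⟨κ', hκ'⟩ := hg ((g κ).1, (g κ).2.1, Function.update (g κ).2.2 P (!(g κ).2.2 P))
    refine ⟨κ', ?_, ?_, ?_, ?_⟩
    · intro α z
      change z.1 = ((g κ').1 α).1 ↔ z.1 = ((g κ).1 α).1
      rw [hκ']
    · intro c x z hx
      rw [nbs_iff c κ' x z hx, nbs_iff c κ x z hx, hκ']
    · rw [nul_iff, nul_iff, hκ']
      simp
    · intro P' hne
      rw [nul_iff, nul_iff, hκ']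
      simp only [Function.update_of_ne hne]

end SpEx

theorem exists_ax1 (L : FirstOrder.Language.{0, 0}) (hf : Finite (Σ n, L.Relations n))
    (b G k C r D m W : ℕ) (hm : 2 ≤ m) (hr : 1 ≤ r) (hW : 1 ≤ W) (hWm : W < m ^ (r + 1))
    (hcert : m ^ C ≤ (W + 1) ^ W)
    (hcard : (W + 1) ^ Nat.card (Win b (2 * rad G + 1)) *
      (W + 1) ^ (Nat.card (Slot L b G D) * W) * 2 ^ Nat.card (L.Relations 0) ≤ m ^ (r + 1)) :
    ∃ R : Sp L b G k C r D (Fin (m ^ (r + 1))),
      R.Ax1 ∧ R.toRc.wid = W ∧ Nat.card {x // R.a x} = m := by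
  classical
  have := hf
  have hfw : Finite (Win b (2 * rad G + 1)) := finite_adr (2 * rad G + 1)
  have hfs : Finite (Slot L b G D) := by
    unfold Slot
    infer_instance
  have hf0 : Finite (L.Relations 0) :=
    Finite.of_injective (fun P : L.Relations 0 => (⟨0, P⟩ : Σ n, L.Relations n)) fun P P' h =>
      eq_of_heq (Sigma.mk.inj_iff.1 h).2
  have hmN : m < m ^ (r + 1) := by
    calc m = m ^ 1 := (pow_one m).symm
      _ < m ^ (r + 1) := Nat.pow_lt_pow_right (by omega) (by omega)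
  obtain ⟨f⟩ : Nonempty ((Fin C → Fin m) ↪ (Fin W → Fin (W + 1))) := by
    apply Function.Embedding.nonempty_of_card_le
    simpa using hcert
  obtain ⟨e⟩ : Nonempty (Fin (m ^ (r + 1)) ≃ (Fin (r + 1) → Fin m)) := by
    apply Fintype.card_eq.1
    simp
  have hcP : Nat.card (SpEx.Pt L b G D W) ≤ m ^ (r + 1) := by
    refine le_trans (le_of_eq ?_) hcard
    unfold SpEx.Pt
    rw [Nat.card_prod, Nat.card_prod, Nat.card_fun, Nat.card_fun, Nat.card_fun, Nat.card_prod,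
      Nat.card_fin, Nat.card_fin]
    simp only [Nat.card_eq_fintype_card, Fintype.card_bool]
    ring
  obtain ⟨g, hg⟩ : ∃ g : Fin (m ^ (r + 1)) → SpEx.Pt L b G D W, Function.Surjective g := by
    have hfin : Finite (SpEx.Pt L b G D W) := by
      unfold SpEx.Pt
      infer_instance
    have hne : Nonempty (SpEx.Pt L b G D W) := ⟨(fun _ => 0, fun _ => 0, fun _ => false)⟩
    have := Fintype.ofFinite (SpEx.Pt L b G D W)
    obtain ⟨i⟩ : Nonempty (SpEx.Pt L b G D W ↪ Fin (m ^ (r + 1))) := by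
      apply Function.Embedding.nonempty_of_card_le
      rw [Fintype.card_fin, ← Nat.card_eq_fintype_card]
      exact hcP
    exact ⟨Function.invFun i, Function.invFun_surjective i.injective⟩
  refine ⟨SpEx.st k C f e g, SpEx.ax1 k C f f.injective e e.bijective g hg hmN hWm, ?_, ?_⟩
  · exact SpEx.card_lt _ _ hWm.le
  · exact SpEx.card_lt _ _ hmN.le

end Pool.Agent.Helper72.TX
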