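import Mathlib

set_option autoImplicit false

/-!
# TX-5: the choice of the width, sparse version

`exists_widthS`: `W` is the least number with `m ^ C ≤ (W + 1) ^ W`; `W ≥ 2` since `m ^ C ≥ 3`, so
`(W + 1) ^ W ≤ W ^ (2 * W) ≤ W ^ (4 * (W - 1)) ≤ (m ^ C) ^ 4`.

`exists_width2`: `W` is the least number with `m ^ C ≤ 2 ^ (W ^ A)` (`W ≥ 2`, `W ^ A ≤ 2 ^ A * (W - 1) ^ A`).

`tw_num`: from `k ^ k ≤ n ^ C` to the width `w = Q * (k + 1)` of a tree-partition: there is `C'` (depending on `C`, `Q` only) such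
that `Q * (k + 1) ≤ W` whenever `n ^ C' ≤ (W + 1) ^ W`, for all `n ≥ 2`. (Otherwise `W + 1 ≤ Q * (k + 1)` and
`(W + 1) ^ W ≤ (Q * (k + 1)) ^ (Q * (k + 1))`, less than a power of `n` with exponent depending on `C`, `Q`: for `k ≥ 2`,
`(k + 1) ^ (k + 1) ≤ (k ^ k) ^ 4` or so and `Q ^ (Q * (k + 1)) ≤ (k ^ k) ^ (…)`; for `k ≤ 1` it is a constant, `n ≥ 2`.)
-/

namespace Pool.Agent.Helper72.TX

theorem exists_widthS {C m : ℕ} (hC : 1 ≤ C) (hm : 3 ≤ m) :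
    ∃ W, 1 ≤ W ∧ m ^ C ≤ (W + 1) ^ W ∧ (∀ W', m ^ C ≤ (W' + 1) ^ W' → W ≤ W') ∧
      ∀ B, (W + 1) ^ (B * W) ≤ m ^ (C * 4 * B) := by
  classical
  have h3 : 3 ≤ m ^ C := le_trans hm (Nat.le_self_pow (by omega) m)
  have hex : ∃ W, m ^ C ≤ (W + 1) ^ W := by
    refine ⟨m ^ C, ?_⟩
    calc m ^ C ≤ 2 ^ (m ^ C) := Nat.lt_two_pow_self.le
      _ ≤ (m ^ C + 1) ^ (m ^ C) := Nat.pow_le_pow_left (by omega) _
  have hW := Nat.find_spec hex
  have hmin : ∀ W', m ^ C ≤ (W' + 1) ^ W' → Nat.find hex ≤ W' := fun W' h => Nat.find_min' hex h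
  set W := Nat.find hex with hWd
  have h2 : 2 ≤ W := by
    by_contra hlt
    have : W = 0 ∨ W = 1 := by omega
    rcases this with h | h
    · rw [h] at hW
      norm_num at hW
      omega
    · rw [h] at hW
      norm_num at hW
      omega
  have hpred : (W - 1 + 1) ^ (W - 1) < m ^ C := by
    by_contra hge
    have := hmin (W - 1) (not_lt.1 hge)
    omega
  rw [show W - 1 + 1 = W by omega] at hpred
  have hkey : (W + 1) ^ W ≤ (m ^ C) ^ 4 := by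
    calc (W + 1) ^ W ≤ (W ^ 2) ^ W := Nat.pow_le_pow_left (by nlinarith) _
      _ = W ^ (2 * W) := by rw [pow_mul]
      _ ≤ W ^ ((W - 1) * 4) := Nat.pow_le_pow_right (by omega) (by omega)
      _ = (W ^ (W - 1)) ^ 4 := by rw [pow_mul]
      _ ≤ (m ^ C) ^ 4 := Nat.pow_le_pow_left hpred.le _
  refine ⟨W, by omega, hW, hmin, fun B => ?_⟩
  calc (W + 1) ^ (B * W) = ((W + 1) ^ W) ^ B := by rw [mul_comm, pow_mul]
    _ ≤ ((m ^ C) ^ 4) ^ B := Nat.pow_le_pow_left hkey _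
    _ = m ^ (C * 4 * B) := by rw [← pow_mul, ← pow_mul, mul_assoc]

theorem exists_width2 {A C m : ℕ} (hA : 1 ≤ A) (hC : 1 ≤ C) (hm : 3 ≤ m) :
    ∃ W, 1 ≤ W ∧ m ^ C ≤ 2 ^ (W ^ A) ∧ (∀ W', m ^ C ≤ 2 ^ (W' ^ A) → W ≤ W') ∧
      ∀ B, 2 ^ (B * W ^ A) ≤ m ^ (C * 2 ^ A * B) := by
  classical
  have h3 : 3 ≤ m ^ C := le_trans hm (Nat.le_self_pow (by omega) m)
  have hex : ∃ W, m ^ C ≤ 2 ^ (W ^ A) := by
    refine ⟨m ^ C, ?_⟩
    calc m ^ C ≤ 2 ^ (m ^ C) := Nat.lt_two_pow_self.le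
      _ ≤ 2 ^ ((m ^ C) ^ A) :=
        Nat.pow_le_pow_right (by norm_num) (Nat.le_self_pow (by omega) _)
  have hW := Nat.find_spec hex
  have hmin : ∀ W', m ^ C ≤ 2 ^ (W' ^ A) → Nat.find hex ≤ W' := fun W' h => Nat.find_min' hex h
  set W := Nat.find hex with hWd
  have h2 : 2 ≤ W := by
    by_contra hlt
    have : W = 0 ∨ W = 1 := by omega
    rcases this with h | h
    · rw [h, Nat.zero_pow (by omega)] at hW
      norm_num at hW
      omega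
    · rw [h, one_pow] at hW
      norm_num at hW
      omega
  have hpred : 2 ^ ((W - 1) ^ A) < m ^ C := by
    by_contra hge
    have := hmin (W - 1) (not_lt.1 hge)
    omega
  have hWA : W ^ A ≤ (W - 1) ^ A * 2 ^ A := by
    rw [← mul_pow]
    exact Nat.pow_le_pow_left (by omega) _
  refine ⟨W, by omega, hW, hmin, fun B => ?_⟩
  calc 2 ^ (B * W ^ A) ≤ 2 ^ ((W - 1) ^ A * (2 ^ A * B)) := by
        apply Nat.pow_le_pow_right (by norm_num)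
        calc B * W ^ A ≤ B * ((W - 1) ^ A * 2 ^ A) := Nat.mul_le_mul_left _ hWA
          _ = (W - 1) ^ A * (2 ^ A * B) := by ring
    _ = (2 ^ ((W - 1) ^ A)) ^ (2 ^ A * B) := by rw [pow_mul]
    _ ≤ (m ^ C) ^ (2 ^ A * B) := Nat.pow_le_pow_left hpred.le _
    _ = m ^ (C * 2 ^ A * B) := by rw [← pow_mul, mul_assoc]

private theorem tw_num_aux {C Q n j : ℕ} (hn : 2 ≤ n) (hj : 1 ≤ j) (h : j ^ j ≤ n ^ C) : (2 * Q * j) ^ (2 * Q * j) ≤ n ^ ((C + 1) * (4 * Q * Q) + C * (2 * Q)) := by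
  have h2j : 2 ^ j ≤ n ^ (C + 1) := by
    rcases Nat.lt_or_ge j 2 with h1 | h1
    · have : j = 1 := by omega
      rw [this, pow_one]
      exact le_trans hn (Nat.le_self_pow (by omega) n)
    · calc 2 ^ j ≤ j ^ j := Nat.pow_le_pow_left h1 _
        _ ≤ n ^ C := h
        _ ≤ n ^ (C + 1) := Nat.pow_le_pow_right (by omega) (by omega)
  have hq : 2 * Q ≤ 2 ^ (2 * Q) := Nat.lt_two_pow_self.le
  calc (2 * Q * j) ^ (2 * Q * j) = (2 * Q) ^ (2 * Q * j) * (j ^ j) ^ (2 * Q) := by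
        rw [mul_pow, ← pow_mul, mul_comm j (2 * Q)]
    _ ≤ (2 ^ (2 * Q)) ^ (2 * Q * j) * (n ^ C) ^ (2 * Q) :=
        Nat.mul_le_mul (Nat.pow_le_pow_left hq _) (Nat.pow_le_pow_left h _)
    _ = (2 ^ j) ^ (4 * Q * Q) * (n ^ C) ^ (2 * Q) := by
        congr 1
        rw [← pow_mul, ← pow_mul]
        congr 1
        ring
    _ ≤ (n ^ (C + 1)) ^ (4 * Q * Q) * (n ^ C) ^ (2 * Q) :=
        Nat.mul_le_mul_right _ (Nat.pow_le_pow_left h2j _)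
    _ = n ^ ((C + 1) * (4 * Q * Q) + C * (2 * Q)) := by
        rw [← pow_mul, ← pow_mul, ← pow_add]

theorem tw_num (C Q : ℕ) : ∃ C' : ℕ, 1 ≤ C' ∧ ∀ n k W : ℕ, 2 ≤ n → k ^ k ≤ n ^ C →
    n ^ C' ≤ (W + 1) ^ W → Q * (k + 1) ≤ W := by
  refine ⟨(C + 1) * (4 * Q * Q) + C * (2 * Q) + 1, by omega, fun n k W hn hk hW => ?_⟩
  by_contra hlt
  rw [not_le] at hlt
  have hQ : 1 ≤ Q := by
    rcases Nat.eq_zero_or_pos Q with h | h
    · rw [h, zero_mul] at hlt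
      omega
    · exact h
  obtain ⟨j, hj1, hjk, hjj⟩ : ∃ j, 1 ≤ j ∧ k + 1 ≤ 2 * j ∧ j ^ j ≤ n ^ C := by
    rcases Nat.eq_zero_or_pos k with h | h
    · refine ⟨1, le_rfl, by omega, ?_⟩
      rw [one_pow]
      exact Nat.one_le_pow _ _ (by omega)
    · exact ⟨k, h, by omega, hk⟩
  have hWj : W + 1 ≤ 2 * Q * j := by
    calc W + 1 ≤ Q * (k + 1) := hlt
      _ ≤ Q * (2 * j) := Nat.mul_le_mul_left _ hjk
      _ = 2 * Q * j := by ring
  have h1 : (W + 1) ^ W ≤ (2 * Q * j) ^ (2 * Q * j) := by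
    calc (W + 1) ^ W ≤ (2 * Q * j) ^ W := Nat.pow_le_pow_left hWj _
      _ ≤ (2 * Q * j) ^ (2 * Q * j) := Nat.pow_le_pow_right (by omega) (by omega)
  have h2 := tw_num_aux (Q := Q) hn hj1 hjj
  have h3 : n ^ ((C + 1) * (4 * Q * Q) + C * (2 * Q)) <
      n ^ ((C + 1) * (4 * Q * Q) + C * (2 * Q) + 1) := Nat.pow_lt_pow_right (by omega) (by omega)
  exact absurd (lt_of_le_of_lt (le_trans h1 h2) h3) (not_lt.2 hW)

end Pool.Agent.Helper72.TX
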