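import Mathlib
import Pool.Agent.Helper72.TX.Repr
import Pool.Agent.Helper72.TX.SpDefs

set_option autoImplicit false

/-!
# TX-2: every sparse window is coded

Model: `Repr.lean`. `exists_upd` for the index type `Win … ⊕ (Slot … × {x // R.wp x}) ⊕ L.Relations 0` with values `{y // R.small y}`,
`{y // R.small y}`, `Prop`: closure by `cl_sz`, `cl_nb`, `cl_nul`. Given `K` with `ODW G D K`: for each relation symbol of
arity `n + 1`, addresses `w` and first point `x < W` the set of the tuples `u` with `u 0 = x` in `K` has at most `D` elements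
(finite because `K.p ≤ W` at the depths of the window); list them by a function `Fin D → Option (Fin (n + 1) → ℕ)`, the
entries of an empty place are `W` (never the rank of an element of `wp`). Then `link` gives `WinEq`.

`pow_leS`: the functions `{i // R.wp i} → {y // R.small y}` given by `cert`, for the tuples in `a`, are different;
`Nat.card {y // R.small y} = R.wid + 1` (`small_iff`, `wid_lt_card`, `exists_rank`, `rank_inj`).
-/

namespace Pool.Agent.Helper72.TX

open FirstOrder FirstOrder.Language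

variable {L : FirstOrder.Language.{0, 0}} {b G k C r D : ℕ} {U : Type} [Finite U]
  {R : Sp L b G k C r D U}

/-- A list of the elements of a small finite set. -/
private theorem exists_list {X : Type} (S : Set X) (hS : S.Finite) (D : ℕ) (h : S.ncard ≤ D) :
    ∃ g : Fin D → Option X, ∀ u, u ∈ S ↔ ∃ j, g j = some u := by
  classical
  obtain ⟨s, rfl⟩ := hS.exists_finset_coe
  rw [Set.ncard_coe_finset] at h
  refine ⟨fun j => if hj : j.1 < s.card then some (s.equivFin.symm ⟨j.1, hj⟩).1 else none,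
    fun u => ?_⟩
  constructor
  · intro hu
    refine ⟨⟨(s.equivFin ⟨u, hu⟩).1, lt_of_lt_of_le (s.equivFin ⟨u, hu⟩).2 h⟩, ?_⟩
    simp
  · rintro ⟨j, hj⟩
    by_cases h1 : j.1 < s.card
    · simp only [h1, dif_pos, Option.some.injEq] at hj
      rw [← hj]
      exact (s.equivFin.symm ⟨j.1, h1⟩).2
    · simp [h1] at hj

private theorem finite_winS (b H : ℕ) : Finite (Win b H) :=
  (List.finite_length_le (Fin b) H).to_subtype

/-- The places of a window whose content can be prescribed. -/
private abbrev PlS (R : Sp L b G k C r D U) : Type :=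
  Win b (2 * rad G + 1) ⊕ ((Slot L b G D × {x // R.wp x}) ⊕ L.Relations 0)

private theorem finite_plS (hL : Finite (Σ n, L.Relations n)) : Finite (PlS R) := by
  haveI := hL
  haveI := finite_winS b (2 * rad G + 1)
  haveI : Finite (L.Relations 0) :=
    Finite.of_injective (fun P => (⟨0, P⟩ : Σ n, L.Relations n)) (fun P Q h => by simpa using h)
  infer_instance

/-- The values at the places. -/
private abbrev VlS (R : Sp L b G k C r D U) : PlS R → Type
  | Sum.inl _ => {y // R.small y}
  | Sum.inr (Sum.inl _) => {y // R.small y}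
  | Sum.inr (Sum.inr _) => Prop

/-- `κ` codes the values `f`. -/
private def CodesS (R : Sp L b G k C r D U) (f : ∀ i, VlS R i) (κ : U) : Prop :=
  (∀ α, R.sz α κ (f (Sum.inl α)).1) ∧
    (∀ (c : Slot L b G D) (x : {x // R.wp x}), R.nbs c κ x.1 (f (Sum.inr (Sum.inl (c, x)))).1) ∧
    ∀ P, R.nul P κ ↔ f (Sum.inr (Sum.inr P))

private theorem codesS_all (hL : Finite (Σ n, L.Relations n)) (hR : R.Ax1) [Nonempty U]
    (f : ∀ i, VlS R i) : ∃ κ, CodesS R f κ := by
  classical
  haveI := finite_plS (R := R) hL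
  obtain ⟨κ₀⟩ := (inferInstance : Nonempty U)
  have hy : ∀ α, ∃ y : {y // R.small y}, R.sz α κ₀ y.1 := by
    intro α
    obtain ⟨y, h1, h2, -⟩ := hR.sz_ex α κ₀
    exact ⟨⟨y, h2⟩, h1⟩
  choose y₀ hy₀ using hy
  have hz : ∀ q : Slot L b G D × {x // R.wp x}, ∃ y : {y // R.small y},
      R.nbs q.1 κ₀ q.2.1 y.1 := by
    intro q
    obtain ⟨y, h1, h2, -⟩ := hR.nb_ex q.1 κ₀ q.2.1 q.2.2
    exact ⟨⟨y, h2⟩, h1⟩
  choose z₀ hz₀ using hz
  refine exists_upd (V := VlS R) (fun f => ∃ κ, CodesS R f κ)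
    (fun i => match i with
      | Sum.inl α => y₀ α
      | Sum.inr (Sum.inl q) => z₀ q
      | Sum.inr (Sum.inr P) => R.nul P κ₀) ⟨κ₀, ?_, ?_, ?_⟩ ?_ f
  · intro α
    exact hy₀ α
  · intro c x
    exact hz₀ (c, x)
  · intro P
    exact Iff.rfl
  · rintro f i x ⟨κ, h1, h2, h3⟩
    rcases i with α | ⟨c, u⟩ | P
    · -- change of a size
      obtain ⟨κ', g1, g2, g3, g4⟩ := hR.cl_sz κ α x.1 x.2
      refine ⟨κ', ?_, ?_, ?_⟩
      · intro α'
        by_cases hα : α' = α
        · subst hα
          simpa using g1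
        · have hne : (Sum.inl α' : PlS R) ≠ Sum.inl α := fun h => hα (Sum.inl.inj h)
          rw [Function.update_of_ne hne]
          exact (g2 α' hα _).2 (h1 α')
      · intro c v
        have hne : (Sum.inr (Sum.inl (c, v)) : PlS R) ≠ Sum.inl α := by simp
        rw [Function.update_of_ne hne]
        exact (g3 _ _ _ v.2).2 (h2 c v)
      · intro P
        have hne : (Sum.inr (Sum.inr P) : PlS R) ≠ Sum.inl α := by simp
        rw [Function.update_of_ne hne]
        exact (g4 P).trans (h3 P)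
    · -- change of an entry
      obtain ⟨κ', g1, g2, g3, g4, g5⟩ := hR.cl_nb κ c u.1 x.1 u.2 x.2
      refine ⟨κ', ?_, ?_, ?_⟩
      · intro α
        have hne : (Sum.inl α : PlS R) ≠ Sum.inr (Sum.inl (c, u)) := by simp
        rw [Function.update_of_ne hne]
        exact (g1 α _).2 (h1 α)
      · intro c' u'
        by_cases hc : (c', u') = (c, u)
        · obtain ⟨rfl, rfl⟩ := Prod.mk.inj hc
          rw [Function.update_self]
          exact g2
        · have hne : (Sum.inr (Sum.inl (c', u')) : PlS R) ≠ Sum.inr (Sum.inl (c, u)) :=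
            fun h => hc (Sum.inl.inj (Sum.inr.inj h))
          rw [Function.update_of_ne hne]
          by_cases hc' : c' = c
          · subst hc'
            have hu : u'.1 ≠ u.1 := fun h => hc (by rw [Subtype.ext h])
            exact (g3 _ _ u'.2 hu).2 (h2 c' u')
          · exact (g4 c' hc' _ _ u'.2).2 (h2 c' u')
      · intro P
        have hne : (Sum.inr (Sum.inr P) : PlS R) ≠ Sum.inr (Sum.inl (c, u)) := by simp
        rw [Function.update_of_ne hne]
        exact (g5 P).trans (h3 P)
    · -- change of a nullary relation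
      by_cases hx : (R.nul P κ ↔ x)
      · refine ⟨κ, ?_, ?_, ?_⟩
        · intro α
          have hne : (Sum.inl α : PlS R) ≠ Sum.inr (Sum.inr P) := by simp
          rw [Function.update_of_ne hne]
          exact h1 α
        · intro c u
          have hne : (Sum.inr (Sum.inl (c, u)) : PlS R) ≠ Sum.inr (Sum.inr P) := by simp
          rw [Function.update_of_ne hne]
          exact h2 c u
        · intro P'
          by_cases hP : P' = P
          · subst hP
            rw [Function.update_self]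
            exact hx
          · have hne : (Sum.inr (Sum.inr P') : PlS R) ≠ Sum.inr (Sum.inr P) :=
              fun h => hP (Sum.inr.inj (Sum.inr.inj h))
            rw [Function.update_of_ne hne]
            exact h3 P'
      · obtain ⟨κ', g1, g2, g3, g4⟩ := hR.cl_nul κ P
        refine ⟨κ', ?_, ?_, ?_⟩
        · intro α
          have hne : (Sum.inl α : PlS R) ≠ Sum.inr (Sum.inr P) := by simp
          rw [Function.update_of_ne hne]
          exact (g1 α _).2 (h1 α)
        · intro c u
          have hne : (Sum.inr (Sum.inl (c, u)) : PlS R) ≠ Sum.inr (Sum.inr P) := by simp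
          rw [Function.update_of_ne hne]
          exact (g2 _ _ _ u.2).2 (h2 c u)
        · intro P'
          by_cases hP : P' = P
          · subst hP
            rw [Function.update_self, g3]
            constructor
            · intro h7
              by_contra h8
              exact hx ⟨fun h9 => absurd h9 h7, fun h9 => absurd h9 h8⟩
            · intro h7 h8
              exact hx ⟨fun _ => h7, fun _ => h8⟩
          · have hne : (Sum.inr (Sum.inr P') : PlS R) ≠ Sum.inr (Sum.inr P) :=
              fun h => hP (Sum.inr.inj (Sum.inr.inj h))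
            rw [Function.update_of_ne hne]
            exact (g4 P' hP).trans (h3 P')

/-- The tuples of the relation `s` at the addresses `w` with first point `x`. -/
private def tps (K : Cfg L b) (H : ℕ) (s : Σ n, L.Relations n) (w : Fin s.1 → Win b H) (x : ℕ) :
    Set (Fin s.1 → ℕ) :=
  {u | (∀ h : 0 < s.1, u ⟨0, h⟩ = x) ∧ (∀ j, u j < K.p (w j).1) ∧
    K.str.rel s.1 s.2 fun j => ((w j).1, u j)}

private theorem tps_finite (K : Cfg L b) (H : ℕ) (s : Σ n, L.Relations n)
    (w : Fin s.1 → Win b H) (x : ℕ) : (tps K H s w x).Finite := by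
  refine Set.Finite.subset (Set.Finite.pi' (t := fun j => Set.Iio (K.p (w j).1))
    fun j => Set.finite_Iio _) ?_
  rintro u ⟨-, h, -⟩ j
  exact h j

private theorem tps_card {K : Cfg L b} (hD : ODW G D K) (s : Σ n, L.Relations n) (hs : 0 < s.1)
    (w : Fin s.1 → Win b (2 * rad G + 1)) (x : ℕ) :
    (tps K (2 * rad G + 1) s w x).ncard ≤ D := by
  obtain ⟨n, P⟩ := s
  obtain ⟨m, rfl⟩ : ∃ m, n = m + 1 := ⟨n - 1, by simp only at hs; omega⟩
  have h := hD m P (fun j => (w j).1) x (fun j => (w j).2)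
  have he : tps K (2 * rad G + 1) ⟨m + 1, P⟩ w x = {u : Fin (m + 1) → ℕ | u 0 = x ∧
      (∀ j, u j < K.p ((w j).1)) ∧ K.str.rel (m + 1) P fun j => ((w j).1, u j)} := by
    ext u
    constructor
    · rintro ⟨h1, h2, h3⟩
      exact ⟨h1 (Nat.succ_pos m), h2, h3⟩
    · rintro ⟨h1, h2, h3⟩
      exact ⟨fun _ => h1, h2, h3⟩
  rw [he]
  exact h

theorem exists_codeS (hL : Finite (Σ n, L.Relations n)) (hR : R.Ax1) [Nonempty U] (K : Cfg L b)
    (hK : ∀ α : Adr b, α.length ≤ 2 * rad G + 1 → K.p α ≤ R.toRc.wid) (hD : ODW G D K) :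
    R.toRc.Coded K := by
  classical
  have hA := hR.toAxA
  have hel : ∀ n, n ≤ R.toRc.wid → ∃ y : {y // R.small y}, R.toRc.rank y.1 = n := by
    intro n hn
    obtain ⟨y, h1⟩ := exists_rank hA (lt_of_le_of_lt hn (wid_lt_card hA))
    exact ⟨⟨y, (small_iff hA).2 (by rw [h1]; exact hn)⟩, h1⟩
  choose el hel using hel
  have hg : ∀ (s : Σ n, L.Relations n) (w : Fin s.1 → Win b (2 * rad G + 1)) (x : ℕ),
      ∃ g : Fin D → Option (Fin s.1 → ℕ), 0 < s.1 →
        ∀ u, u ∈ tps K (2 * rad G + 1) s w x ↔ ∃ j, g j = some u := by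
    intro s w x
    by_cases hs : 0 < s.1
    · obtain ⟨g, hg⟩ := exists_list _ (tps_finite K (2 * rad G + 1) s w x) D (tps_card hD s hs w x)
      exact ⟨g, fun _ => hg⟩
    · exact ⟨fun _ => none, fun h => absurd h hs⟩
  choose g hg using hg
  have hval : ∀ (c : Slot L b G D) (x : ℕ),
      ((g c.1.1 c.1.2 x c.2.1).map (fun u => u c.2.2)).getD R.toRc.wid ≤ R.toRc.wid := by
    rintro ⟨⟨s, w⟩, j, i⟩ x
    show ((g s w x j).map (fun u => u i)).getD R.toRc.wid ≤ R.toRc.wid
    rcases hgj : g s w x j with _ | u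
    · simp
    · have hs : 0 < s.1 := lt_of_le_of_lt (Nat.zero_le _) i.2
      have hu := (hg s w x hs u).2 ⟨j, hgj⟩
      simp only [Option.map_some, Option.getD_some]
      exact (hu.2.1 i).le.trans (hK _ (w i).2)
  obtain ⟨κ, h1, h2, h3⟩ := codesS_all (R := R) hL hR (fun i => match i with
      | Sum.inl α => el (K.p α.1) (hK α.1 α.2)
      | Sum.inr (Sum.inl q) => el _ (hval q.1 (R.toRc.rank q.2.1))
      | Sum.inr (Sum.inr P) => K.rel 0 P fun i => i.elim0)
  have hp : ∀ α : Adr b, α.length ≤ 2 * rad G + 1 → (R.toRc.conf κ).p α = K.p α := by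
    intro α hα
    have h4 := conf_p hA (κ := κ) ⟨α, hα⟩ (h1 ⟨α, hα⟩)
    exact h4.trans (hel _ _)
  refine ⟨κ, hp, ?_⟩
  intro n P v hv hvp hvt
  have hvw : ∀ i, (v i).2 < R.toRc.wid := by
    intro i
    refine lt_of_lt_of_le (hvp i) ?_
    rw [hp _ (hv i)]
    exact hK _ (hv i)
  have hu : ∀ i, ∃ u : {u // R.wp u}, R.toRc.rank u.1 = (v i).2 := by
    intro i
    obtain ⟨u, h4⟩ := exists_rank hA ((hvw i).trans (wid_lt_card hA))
    exact ⟨⟨u, (wp_iff hA).2 (by rw [h4]; exact hvw i)⟩, h4⟩
  choose u hu using hu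
  have h5 : (R.toRc.conf κ).rel n P v ↔
      R.bit ⟨n, P⟩ (fun i => ⟨(v i).1, hv i⟩) κ (fun i => (u i).1) := by
    constructor
    · rintro ⟨u', h5, ⟨h6, h7⟩, -⟩
      have h8 : u' = fun i => (u i).1 := by
        funext i
        exact rank_inj hA ((h5 i).trans (hu i).symm)
      subst h8
      exact h7
    · intro h5
      exact ⟨fun i => (u i).1, fun i => hu i, ⟨⟨hv, h5⟩, hvt⟩⟩
  rw [h5]
  by_cases hn : 0 < n
  · rw [hR.link ⟨n, P⟩ _ κ _ hn (fun i => (u i).2)]
    have h6 : ∀ (j : Fin D) (i : Fin n),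
        R.nb ⟨n, P⟩ (fun i => ⟨(v i).1, hv i⟩) j i κ (u ⟨0, hn⟩).1 (u i).1 ↔
        (v i).2 = ((g ⟨n, P⟩ (fun i => ⟨(v i).1, hv i⟩) (v ⟨0, hn⟩).2 j).map
          (fun u => u i)).getD R.toRc.wid := by
      intro j i
      have h7 := h2 ⟨⟨⟨n, P⟩, fun i => ⟨(v i).1, hv i⟩⟩, (j, i)⟩ (u ⟨0, hn⟩)
      simp only at h7
      obtain ⟨y, -, -, h8⟩ := hR.nb_ex ⟨⟨⟨n, P⟩, fun i => ⟨(v i).1, hv i⟩⟩, (j, i)⟩ κ
        (u ⟨0, hn⟩).1 (u ⟨0, hn⟩).2
      have h9 := hel _ (hval ⟨⟨⟨n, P⟩, fun i => ⟨(v i).1, hv i⟩⟩, (j, i)⟩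
        (R.toRc.rank (u ⟨0, hn⟩).1))
      simp only [hu ⟨0, hn⟩] at h9
      constructor
      · intro h10
        have h11 := (h8 _ h10).trans (h8 _ h7).symm
        rw [← hu i, h11]
        simp only [hu ⟨0, hn⟩]
        exact h9
      · intro h10
        have h11 : (u i).1 = (el _ (hval ⟨⟨⟨n, P⟩, fun i => ⟨(v i).1, hv i⟩⟩, (j, i)⟩
            (R.toRc.rank (u ⟨0, hn⟩).1))).1 := by
          apply rank_inj hA
          rw [hu i, h10, hel]
          simp only [hu ⟨0, hn⟩]
        rw [h11]
        exact h7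
    have h12 : (∃ j : Fin D, ∀ i : Fin n,
        R.nb ⟨n, P⟩ (fun i => ⟨(v i).1, hv i⟩) j i κ (u ⟨0, hn⟩).1 (u i).1) ↔
        (fun i => (v i).2) ∈ tps K (2 * rad G + 1) ⟨n, P⟩ (fun i => ⟨(v i).1, hv i⟩)
          (v ⟨0, hn⟩).2 := by
      rw [hg ⟨n, P⟩ (fun i => ⟨(v i).1, hv i⟩) (v ⟨0, hn⟩).2 hn]
      constructor
      · rintro ⟨j, hj⟩
        refine ⟨j, ?_⟩
        have hj' := fun i => (h6 j i).1 (hj i)
        rcases hgj : g ⟨n, P⟩ (fun i => ⟨(v i).1, hv i⟩) (v ⟨0, hn⟩).2 j with _ | w
        · have h13 := hj' ⟨0, hn⟩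
          rw [hgj] at h13
          simp only [Option.map_none, Option.getD_none] at h13
          exact absurd h13 (hvw ⟨0, hn⟩).ne
        · congr 1
          funext i
          have h13 := hj' i
          rw [hgj] at h13
          simpa using h13.symm
      · rintro ⟨j, hj⟩
        refine ⟨j, fun i => (h6 j i).2 ?_⟩
        rw [hj]
        simp
    refine h12.trans ?_
    constructor
    · rintro ⟨-, -, h13⟩
      exact h13.1
    · intro h13
      refine ⟨fun _ => rfl, fun j => ?_, h13, hvt⟩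
      have h14 := hvp j
      rw [hp _ (hv j)] at h14
      exact h14
  · have hn0 : n = 0 := by omega
    subst hn0
    have e1 : (fun i : Fin 0 => (⟨(v i).1, hv i⟩ : Win b (2 * rad G + 1))) =
        fun i => i.elim0 := Subsingleton.elim _ _
    have e2 : (fun i : Fin 0 => (u i).1) = fun i => i.elim0 := Subsingleton.elim _ _
    have e3 : v = fun i => i.elim0 := Subsingleton.elim _ _
    have h6 := h3 P
    rw [e1, e2, e3]
    exact h6

theorem pow_leS (hR : R.Ax1) :
    Nat.card {y // R.a y} ^ C ≤ (R.toRc.wid + 1) ^ R.toRc.wid := by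
  classical
  have hA := hR.toAxA
  have hF : ∀ (x : Fin C → {y // R.a y}) (i : {i // R.wp i}), ∃ y : {y // R.small y},
      R.cert (fun j => (x j).1) ![i.1, y.1] := by
    intro x i
    obtain ⟨y, h1, h2⟩ := hR.cert_ex (fun j => (x j).1) (fun j => (x j).2) i.1 i.2
    exact ⟨⟨y, h1⟩, h2⟩
  choose F hF using hF
  have hi : Function.Injective F := by
    intro x x' h
    by_contra hne
    obtain ⟨i, y, h1, h2, h3, h4⟩ := hR.cert_inj (fun j => (x j).1) (fun j => (x' j).1)
      (fun j => (x j).2) (fun j => (x' j).2)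
      (fun he => hne (funext fun j => Subtype.ext (congrFun he j)))
    have h5 := hF x ⟨i, h1⟩
    have h6 := hF x' ⟨i, h1⟩
    rw [← h] at h6
    have h7 := hR.cert_fun _ _ _ _ h3 h5
    rw [← h7] at h6
    exact h4 h6
  have h1 := Nat.card_le_card_of_injective _ hi
  have h2 : Nat.card {y // R.small y} ≤ R.toRc.wid + 1 := by
    have h3 : Function.Injective (fun y : {y // R.small y} =>
        (⟨R.toRc.rank y.1, Nat.lt_succ_of_le ((small_iff hA).1 y.2)⟩ : Fin (R.toRc.wid + 1))) :=
      fun y y' h => Subtype.ext (rank_inj hA (congrArg Fin.val h))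
    have h4 := Nat.card_le_card_of_injective _ h3
    rwa [Nat.card_fin] at h4
  rw [Nat.card_fun, Nat.card_fin, Nat.card_fun] at h1
  refine h1.trans ?_
  exact Nat.pow_le_pow_left h2 _

end Pool.Agent.Helper72.TX
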