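import Mathlib
import Pool.Agent.Helper72.TX.SpDefs
import Pool.Agent.Helper72.TX.AxU2

set_option autoImplicit false

/-!
# TX-1: the axioms of the sparse version are given by a sentence

`udef_lift`: formulas of the base language are formulas of the larger language (`LHom` with `onRelation = RS.base`,
`LHom.onFormula`, `LHom.realize_onFormula`; the reduct of an `LS`-structure along it is `redS`).
-/

namespace Pool.Agent.Helper72.TX

open FirstOrder FirstOrder.Language Pool.Agent.Helper87.AU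

variable (L : FirstOrder.Language.{0, 0}) (b G k C r D : ℕ)

/-- The inclusion of the base language. -/
def spHom : LR L b G k 2 C r →ᴸ LS L b G k C r D where
  onFunction := fun {_} f => f
  onRelation := fun {_} P => RS.base P

theorem udef_lift {α : Type}
    {P : ∀ (M : Type) [(LR L b G k 2 C r).Structure M], (α → M) → Prop}
    (h : UDef (LR L b G k 2 C r) α P) :
    UDef (LS L b G k C r D) α (fun M _ v => @P M (redS L b G k C r D M) v) := by
  obtain ⟨θ, hθ⟩ := h
  refine ⟨(spHom L b G k C r D).onFormula θ, fun M sM v => ?_⟩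
  let _ := redS L b G k C r D M
  have : (spHom L b G k C r D).IsExpansionOn M :=
    ⟨fun f _ => f.elim, fun _ _ => rfl⟩
  exact (LHom.realize_onFormula (spHom L b G k C r D) θ).trans (hθ M v)

theorem axs_nbs (α : Type) (c : Slot L b G D) (κ x y : α) :
    UDef (LS L b G k C r D) α (fun U _ v =>
      (toSp L b G k C r D U).nbs c (v κ) (v x) (v y)) := by
  refine (UDef.rel (L := LS L b G k C r D) (RS.nb c)
    (fun i => Term.var ((![κ, x, y] : Fin 3 → α) i))).congr fun U _ v => ?_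
  have h1 : (fun i => Term.realize v ((fun i => Term.var ((![κ, x, y] : Fin 3 → α) i) :
      Fin 3 → (LS L b G k C r D).Term α) i)) = ![v κ, v x, v y] := by
    funext i
    fin_cases i <;> rfl
  rw [h1]
  rfl

/-- All relation symbols. -/
def spSym : (Σ n, (LR L b G k 2 C r).Relations n) ⊕ Slot L b G D →
    (Σ n, (LS L b G k C r D).Relations n)
  | Sum.inl p => ⟨p.1, RS.base p.2⟩
  | Sum.inr c => ⟨3, RS.nb c⟩

theorem finite_Slot (hf : Finite (Σ n, L.Relations n)) : Finite (Slot L b G D) := by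
  have := hf
  have : Finite (Win b (2 * rad G + 1)) := finite_adr (2 * rad G + 1)
  infer_instance

theorem finVoc_LS (hf : Finite (Σ n, L.Relations n)) :
    Finite (Σ n, (LS L b G k C r D).Relations n) := by
  have := finVoc_LR hf b G k 2 C r
  have := finite_Slot L b G D hf
  refine Finite.of_surjective (spSym L b G k C r D) ?_
  rintro ⟨n, R⟩
  cases R with
  | base P => exact ⟨Sum.inl ⟨n, P⟩, rfl⟩
  | nb c => exact ⟨Sum.inr c, rfl⟩

theorem toSp_ofSp {U : Type} (R : Sp L b G k C r D U) :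
    @toSp L b G k C r D U (ofSp R) = R := by
  obtain ⟨R0, nb⟩ := R
  have h : @toRc L b G k 2 C r U (@redS L b G k C r D U (ofSp ⟨R0, nb⟩)) = R0 :=
    toRc_ofRc R0
  show Sp.mk (@toRc L b G k 2 C r U (@redS L b G k C r D U (ofSp ⟨R0, nb⟩))) nb = Sp.mk R0 nb
  rw [h]

/-! ### The axioms -/

namespace SpU

variable (α : Type)

theorem s_a (x : α) :
    UDef (LS L b G k C r D) α (fun U _ v => (toSp L b G k C r D U).a (v x)) :=
  udef_lift L b G k C r D (P := fun U _ v => (toRc L b G k 2 C r U).a (v x))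
    (axu_a L b G k 2 C r α x)

theorem s_wp (x : α) :
    UDef (LS L b G k C r D) α (fun U _ v => (toSp L b G k C r D U).wp (v x)) :=
  udef_lift L b G k C r D (P := fun U _ v => (toRc L b G k 2 C r U).wp (v x))
    (axu_wp L b G k 2 C r α x)

theorem s_small (x : α) :
    UDef (LS L b G k C r D) α (fun U _ v => (toSp L b G k C r D U).small (v x)) :=
  udef_lift L b G k C r D (P := fun U _ v => (toRc L b G k 2 C r U).small (v x))
    (axu_small L b G k 2 C r α x)

theorem s_sz (γ : Win b (2 * rad G + 1)) (x y : α) :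
    UDef (LS L b G k C r D) α (fun U _ v => (toSp L b G k C r D U).sz γ (v x) (v y)) :=
  udef_lift L b G k C r D (P := fun U _ v => (toRc L b G k 2 C r U).sz γ (v x) (v y))
    (axu_sz L b G k 2 C r α γ x y)

theorem s_bit (s : Σ n, L.Relations n) (w : Fin s.1 → Win b (2 * rad G + 1))
    (x : α) (y : Fin s.1 → α) :
    UDef (LS L b G k C r D) α (fun U _ v =>
      (toSp L b G k C r D U).bit s w (v x) (fun j => v (y j))) :=
  udef_lift L b G k C r D (P := fun U _ v =>
    (toRc L b G k 2 C r U).bit s w (v x) (fun j => v (y j))) (axu_bit L b G k 2 C r α s w x y)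

theorem s_nul (P : L.Relations 0) (x : α) :
    UDef (LS L b G k C r D) α (fun U _ v => (toSp L b G k C r D U).nul P (v x)) := by
  refine (s_bit L b G k C r D α ⟨0, P⟩ (fun i => i.elim0) x (fun i => i.elim0)).congr
    fun U _ v => ?_
  have h : (fun j : Fin 0 => v ((fun i => i.elim0 : Fin 0 → α) j)) = fun i => i.elim0 :=
    funext fun i => i.elim0
  show (toSp L b G k C r D U).bit ⟨0, P⟩ (fun i => i.elim0) (v x)
    (fun j : Fin 0 => v ((fun i => i.elim0 : Fin 0 → α) j)) ↔ _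
  rw [h]
  rfl

theorem s_cert (x : Fin C → α) (i y : α) :
    UDef (LS L b G k C r D) α (fun U _ v =>
      (toSp L b G k C r D U).cert (fun j => v (x j)) ![v i, v y]) := by
  refine (udef_lift L b G k C r D (P := fun U _ v =>
    (toRc L b G k 2 C r U).cert (fun j => v (x j)) (fun j => v ((![i, y] : Fin 2 → α) j)))
    (axu_cert L b G k 2 C r α x ![i, y])).congr fun U _ v => ?_
  have h : (fun j => v ((![i, y] : Fin 2 → α) j)) = ![v i, v y] := by
    funext j
    fin_cases j <;> rfl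
  rw [h]
  rfl

theorem b_sz (γ : Win b (2 * rad G + 1)) (κ' κ : α) :
    UDef (LS L b G k C r D) α (fun U _ v => ∀ z,
      (toSp L b G k C r D U).sz γ (v κ') z ↔ (toSp L b G k C r D U).sz γ (v κ) z) := by
  refine UDef.allu (P := fun U _ v z =>
    (toSp L b G k C r D U).sz γ (v κ') z ↔ (toSp L b G k C r D U).sz γ (v κ) z) ?_
  exact (s_sz L b G k C r D _ γ (Sum.inl κ') (Sum.inr ())).iff
    (s_sz L b G k C r D _ γ (Sum.inl κ) (Sum.inr ()))

theorem b_nb (c : Slot L b G D) (κ' κ : α) :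
    UDef (LS L b G k C r D) α (fun U _ v => ∀ x z, (toSp L b G k C r D U).wp x →
      ((toSp L b G k C r D U).nbs c (v κ') x z ↔ (toSp L b G k C r D U).nbs c (v κ) x z)) := by
  refine UDef.allu (P := fun U _ v x => ∀ z, (toSp L b G k C r D U).wp x →
    ((toSp L b G k C r D U).nbs c (v κ') x z ↔ (toSp L b G k C r D U).nbs c (v κ) x z)) ?_
  refine UDef.allu (P := fun U _ v z => (toSp L b G k C r D U).wp (v (Sum.inr ())) →
    ((toSp L b G k C r D U).nbs c (v (Sum.inl κ')) (v (Sum.inr ())) z ↔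
      (toSp L b G k C r D U).nbs c (v (Sum.inl κ)) (v (Sum.inr ())) z)) ?_
  exact (s_wp L b G k C r D _ (Sum.inl (Sum.inr ()))).imp
    ((axs_nbs L b G k C r D _ c (Sum.inl (Sum.inl κ')) (Sum.inl (Sum.inr ())) (Sum.inr ())).iff
      (axs_nbs L b G k C r D _ c (Sum.inl (Sum.inl κ)) (Sum.inl (Sum.inr ())) (Sum.inr ())))

theorem h_cert_ex : UDef (LS L b G k C r D) Empty (fun U _ _ =>
    ∀ x : Fin C → U, (∀ j, (toSp L b G k C r D U).a (x j)) → ∀ i,
      (toSp L b G k C r D U).wp i → ∃ y, (toSp L b G k C r D U).small y ∧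
        (toSp L b G k C r D U).cert x ![i, y]) := by
  refine UDef.all (β := Fin C) (P := fun U _ _ x =>
    (∀ j, (toSp L b G k C r D U).a (x j)) → ∀ i,
      (toSp L b G k C r D U).wp i → ∃ y, (toSp L b G k C r D U).small y ∧
        (toSp L b G k C r D U).cert x ![i, y]) ?_
  refine UDef.imp (UDef.allFin fun j => s_a L b G k C r D _ (Sum.inr j)) ?_
  refine UDef.allu (P := fun U _ v i => (toSp L b G k C r D U).wp i →
    ∃ y, (toSp L b G k C r D U).small y ∧
        (toSp L b G k C r D U).cert (fun j => v (Sum.inr j)) ![i, y]) ?_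
  refine UDef.imp (s_wp L b G k C r D _ (Sum.inr ())) ?_
  refine UDef.exu (P := fun U _ v y => (toSp L b G k C r D U).small y ∧
        (toSp L b G k C r D U).cert (fun j => v (Sum.inl (Sum.inr j))) ![v (Sum.inr ()), y]) ?_
  exact (s_small L b G k C r D _ (Sum.inr ())).and
    (s_cert L b G k C r D _ (fun j => Sum.inl (Sum.inl (Sum.inr j))) (Sum.inl (Sum.inr ()))
      (Sum.inr ()))

theorem h_cert_fun : UDef (LS L b G k C r D) Empty (fun U _ _ =>
    ∀ (x : Fin C → U) (i y y' : U), (toSp L b G k C r D U).cert x ![i, y] →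
      (toSp L b G k C r D U).cert x ![i, y'] → y = y') := by
  refine UDef.all (β := Fin C) (P := fun U _ _ x => ∀ i y y' : U,
      (toSp L b G k C r D U).cert x ![i, y] →
      (toSp L b G k C r D U).cert x ![i, y'] → y = y') ?_
  refine UDef.allu (P := fun U _ v i => ∀ y y' : U,
      (toSp L b G k C r D U).cert (fun j => v (Sum.inr j)) ![i, y] →
      (toSp L b G k C r D U).cert (fun j => v (Sum.inr j)) ![i, y'] → y = y') ?_
  refine UDef.allu (P := fun U _ v y => ∀ y' : U,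
      (toSp L b G k C r D U).cert (fun j => v (Sum.inl (Sum.inr j))) ![v (Sum.inr ()), y] →
      (toSp L b G k C r D U).cert (fun j => v (Sum.inl (Sum.inr j))) ![v (Sum.inr ()), y'] →
        y = y') ?_
  refine UDef.allu (P := fun U _ v y' =>
      (toSp L b G k C r D U).cert (fun j => v (Sum.inl (Sum.inl (Sum.inr j))))
        ![v (Sum.inl (Sum.inr ())), v (Sum.inr ())] →
      (toSp L b G k C r D U).cert (fun j => v (Sum.inl (Sum.inl (Sum.inr j))))
        ![v (Sum.inl (Sum.inr ())), y'] → v (Sum.inr ()) = y') ?_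
  exact (s_cert L b G k C r D _ (fun j => Sum.inl (Sum.inl (Sum.inl (Sum.inr j))))
      (Sum.inl (Sum.inl (Sum.inr ()))) (Sum.inl (Sum.inr ()))).imp
    ((s_cert L b G k C r D _ (fun j => Sum.inl (Sum.inl (Sum.inl (Sum.inr j))))
      (Sum.inl (Sum.inl (Sum.inr ()))) (Sum.inr ())).imp
        (UDef.varEq (Sum.inl (Sum.inr ())) (Sum.inr ())))

theorem h_cert_inj : UDef (LS L b G k C r D) Empty (fun U _ _ =>
    ∀ x x' : Fin C → U, (∀ j, (toSp L b G k C r D U).a (x j)) →
      (∀ j, (toSp L b G k C r D U).a (x' j)) → x ≠ x' →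
      ∃ i y, (toSp L b G k C r D U).wp i ∧ (toSp L b G k C r D U).small y ∧
        (toSp L b G k C r D U).cert x ![i, y] ∧
        ¬ (toSp L b G k C r D U).cert x' ![i, y]) := by
  refine UDef.all (β := Fin C) (P := fun U _ _ x =>
    ∀ x' : Fin C → U, (∀ j, (toSp L b G k C r D U).a (x j)) →
      (∀ j, (toSp L b G k C r D U).a (x' j)) → x ≠ x' →
      ∃ i y, (toSp L b G k C r D U).wp i ∧ (toSp L b G k C r D U).small y ∧
        (toSp L b G k C r D U).cert x ![i, y] ∧
        ¬ (toSp L b G k C r D U).cert x' ![i, y]) ?_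
  refine UDef.all (β := Fin C) (P := fun U _ v x' =>
    (∀ j, (toSp L b G k C r D U).a (v (Sum.inr j))) →
      (∀ j, (toSp L b G k C r D U).a (x' j)) → (fun j => v (Sum.inr j)) ≠ x' →
      ∃ i y, (toSp L b G k C r D U).wp i ∧ (toSp L b G k C r D U).small y ∧
        (toSp L b G k C r D U).cert (fun j => v (Sum.inr j)) ![i, y] ∧
        ¬ (toSp L b G k C r D U).cert x' ![i, y]) ?_
  refine UDef.imp (UDef.allFin fun j => s_a L b G k C r D _ (Sum.inl (Sum.inr j))) ?_
  refine UDef.imp (UDef.allFin fun j => s_a L b G k C r D _ (Sum.inr j)) ?_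
  refine UDef.imp (AxU0.tupEq (fun j => Sum.inl (Sum.inr j)) (fun j => Sum.inr j)).not ?_
  refine UDef.exu (P := fun U _ v i => ∃ y, (toSp L b G k C r D U).wp i ∧
      (toSp L b G k C r D U).small y ∧
        (toSp L b G k C r D U).cert (fun j => v (Sum.inl (Sum.inr j))) ![i, y] ∧
        ¬ (toSp L b G k C r D U).cert (fun j => v (Sum.inr j)) ![i, y]) ?_
  refine UDef.exu (P := fun U _ v y => (toSp L b G k C r D U).wp (v (Sum.inr ())) ∧
      (toSp L b G k C r D U).small y ∧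
        (toSp L b G k C r D U).cert (fun j => v (Sum.inl (Sum.inl (Sum.inr j))))
          ![v (Sum.inr ()), y] ∧
        ¬ (toSp L b G k C r D U).cert (fun j => v (Sum.inl (Sum.inr j)))
          ![v (Sum.inr ()), y]) ?_
  exact (s_wp L b G k C r D _ (Sum.inl (Sum.inr ()))).and
    ((s_small L b G k C r D _ (Sum.inr ())).and
      ((s_cert L b G k C r D _ (fun j => Sum.inl (Sum.inl (Sum.inl (Sum.inr j))))
        (Sum.inl (Sum.inr ())) (Sum.inr ())).and
      (s_cert L b G k C r D _ (fun j => Sum.inl (Sum.inl (Sum.inr j)))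
        (Sum.inl (Sum.inr ())) (Sum.inr ())).not))

section Fin

variable [hf : Finite (Σ n, L.Relations n)]

theorem h_nb_ex : UDef (LS L b G k C r D) Empty (fun U _ _ =>
    ∀ (c : Slot L b G D) (κ x : U), (toSp L b G k C r D U).wp x →
    ∃ y, (toSp L b G k C r D U).nbs c κ x y ∧ (toSp L b G k C r D U).small y ∧
      ∀ y', (toSp L b G k C r D U).nbs c κ x y' → y' = y) := by
  have := finite_Slot L b G D hf
  refine UDef.allFin fun c => ?_
  refine AxU0.all2 (P := fun U _ κ x => (toSp L b G k C r D U).wp x →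
    ∃ y, (toSp L b G k C r D U).nbs c κ x y ∧ (toSp L b G k C r D U).small y ∧
      ∀ y', (toSp L b G k C r D U).nbs c κ x y' → y' = y) ?_
  refine UDef.imp (s_wp L b G k C r D _ 1) ?_
  refine UDef.exu (P := fun U _ v y => (toSp L b G k C r D U).nbs c (v 0) (v 1) y ∧
      (toSp L b G k C r D U).small y ∧
      ∀ y', (toSp L b G k C r D U).nbs c (v 0) (v 1) y' → y' = y) ?_
  refine (axs_nbs L b G k C r D _ c (Sum.inl 0) (Sum.inl 1) (Sum.inr ())).and
    ((s_small L b G k C r D _ (Sum.inr ())).and ?_)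
  refine UDef.allu (P := fun U _ v y' =>
      (toSp L b G k C r D U).nbs c (v (Sum.inl 0)) (v (Sum.inl 1)) y' →
        y' = v (Sum.inr ())) ?_
  exact (axs_nbs L b G k C r D _ c (Sum.inl (Sum.inl 0)) (Sum.inl (Sum.inl 1))
    (Sum.inr ())).imp (UDef.varEq (Sum.inr ()) (Sum.inl (Sum.inr ())))

theorem h_link : UDef (LS L b G k C r D) Empty (fun U _ _ =>
    ∀ (s : Σ n, L.Relations n) (w : Fin s.1 → Win b (2 * rad G + 1)) (κ : U)
    (v : Fin s.1 → U) (h : 0 < s.1), (∀ i, (toSp L b G k C r D U).wp (v i)) →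
      ((toSp L b G k C r D U).bit s w κ v ↔ ∃ j : Fin D, ∀ i,
        (toSp L b G k C r D U).nb s w j i κ (v ⟨0, h⟩) (v i))) := by
  refine UDef.allFin fun s => UDef.allFin fun w => ?_
  refine UDef.allu (P := fun U _ _ κ => ∀ (v : Fin s.1 → U) (h : 0 < s.1),
    (∀ i, (toSp L b G k C r D U).wp (v i)) →
      ((toSp L b G k C r D U).bit s w κ v ↔ ∃ j : Fin D, ∀ i,
        (toSp L b G k C r D U).nb s w j i κ (v ⟨0, h⟩) (v i))) ?_
  refine UDef.all (β := Fin s.1) (P := fun U _ m v => ∀ (h : 0 < s.1),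
    (∀ i, (toSp L b G k C r D U).wp (v i)) →
      ((toSp L b G k C r D U).bit s w (m (Sum.inr ())) v ↔ ∃ j : Fin D, ∀ i,
        (toSp L b G k C r D U).nb s w j i (m (Sum.inr ())) (v ⟨0, h⟩) (v i))) ?_
  rcases Nat.eq_zero_or_pos s.1 with h0 | h
  · exact (UDef.const True).congr fun U _ m => ⟨fun _ h => absurd h (by omega), fun _ => trivial⟩
  refine UDef.congr (P := fun U _ m =>
    (∀ i, (toSp L b G k C r D U).wp (m (Sum.inr i))) →
      ((toSp L b G k C r D U).bit s w (m (Sum.inl (Sum.inr ()))) (fun i => m (Sum.inr i)) ↔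
        ∃ j : Fin D, ∀ i, (toSp L b G k C r D U).nb s w j i (m (Sum.inl (Sum.inr ())))
          (m (Sum.inr ⟨0, h⟩)) (m (Sum.inr i)))) ?_
    fun U _ m => ⟨fun hh _ => hh, fun hh => hh h⟩
  refine UDef.imp (UDef.allFin fun i => s_wp L b G k C r D _ (Sum.inr i)) (UDef.iff ?_ ?_)
  · exact s_bit L b G k C r D _ s w (Sum.inl (Sum.inr ())) (fun i => Sum.inr i)
  · refine UDef.exFin fun j => UDef.allFin fun i => ?_
    exact axs_nbs L b G k C r D _ ⟨⟨s, w⟩, (j, i)⟩ (Sum.inl (Sum.inr ()))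
      (Sum.inr ⟨0, h⟩) (Sum.inr i)

theorem h_cl_sz : UDef (LS L b G k C r D) Empty (fun U _ _ =>
    ∀ κ α y, (toSp L b G k C r D U).small y → ∃ κ', (toSp L b G k C r D U).sz α κ' y ∧
    (∀ α', α' ≠ α → ∀ z, (toSp L b G k C r D U).sz α' κ' z ↔
      (toSp L b G k C r D U).sz α' κ z) ∧
    (∀ c x z, (toSp L b G k C r D U).wp x → ((toSp L b G k C r D U).nbs c κ' x z ↔
      (toSp L b G k C r D U).nbs c κ x z)) ∧
    ∀ P, (toSp L b G k C r D U).nul P κ' ↔ (toSp L b G k C r D U).nul P κ) := by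
  have := finite_Slot L b G D hf
  have : Finite (L.Relations 0) := Finite.of_injective
    (fun P => (⟨0, P⟩ : Σ n, L.Relations n)) fun P Q h => by simpa using h
  refine UDef.allu (P := fun U _ _ κ =>
    ∀ α y, (toSp L b G k C r D U).small y → ∃ κ', (toSp L b G k C r D U).sz α κ' y ∧
    (∀ α', α' ≠ α → ∀ z, (toSp L b G k C r D U).sz α' κ' z ↔
      (toSp L b G k C r D U).sz α' κ z) ∧
    (∀ c x z, (toSp L b G k C r D U).wp x → ((toSp L b G k C r D U).nbs c κ' x z ↔
      (toSp L b G k C r D U).nbs c κ x z)) ∧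
    ∀ P, (toSp L b G k C r D U).nul P κ' ↔ (toSp L b G k C r D U).nul P κ) ?_
  refine UDef.allFin fun γ => ?_
  refine UDef.allu (P := fun U _ m y =>
    (toSp L b G k C r D U).small y → ∃ κ', (toSp L b G k C r D U).sz γ κ' y ∧
    (∀ α', α' ≠ γ → ∀ z, (toSp L b G k C r D U).sz α' κ' z ↔
      (toSp L b G k C r D U).sz α' (m (Sum.inr ())) z) ∧
    (∀ c x z, (toSp L b G k C r D U).wp x → ((toSp L b G k C r D U).nbs c κ' x z ↔
      (toSp L b G k C r D U).nbs c (m (Sum.inr ())) x z)) ∧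
    ∀ P, (toSp L b G k C r D U).nul P κ' ↔
      (toSp L b G k C r D U).nul P (m (Sum.inr ()))) ?_
  refine UDef.imp (s_small L b G k C r D _ (Sum.inr ())) ?_
  refine UDef.exu (P := fun U _ m κ' =>
    (toSp L b G k C r D U).sz γ κ' (m (Sum.inr ())) ∧
    (∀ α', α' ≠ γ → ∀ z, (toSp L b G k C r D U).sz α' κ' z ↔
      (toSp L b G k C r D U).sz α' (m (Sum.inl (Sum.inr ()))) z) ∧
    (∀ c x z, (toSp L b G k C r D U).wp x → ((toSp L b G k C r D U).nbs c κ' x z ↔
      (toSp L b G k C r D U).nbs c (m (Sum.inl (Sum.inr ()))) x z)) ∧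
    ∀ P, (toSp L b G k C r D U).nul P κ' ↔
      (toSp L b G k C r D U).nul P (m (Sum.inl (Sum.inr ())))) ?_
  refine (s_sz L b G k C r D _ γ (Sum.inr ()) (Sum.inl (Sum.inr ()))).and
    (UDef.and ?_ (UDef.and ?_ ?_))
  · exact UDef.allFin fun γ' => (UDef.const _).imp
      (b_sz L b G k C r D _ γ' (Sum.inr ()) (Sum.inl (Sum.inl (Sum.inr ()))))
  · exact UDef.allFin fun c =>
      b_nb L b G k C r D _ c (Sum.inr ()) (Sum.inl (Sum.inl (Sum.inr ())))
  · exact UDef.allFin fun P => (s_nul L b G k C r D _ P (Sum.inr ())).iff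
      (s_nul L b G k C r D _ P (Sum.inl (Sum.inl (Sum.inr ()))))

theorem h_cl_nb : UDef (LS L b G k C r D) Empty (fun U _ _ =>
    ∀ κ c x y, (toSp L b G k C r D U).wp x → (toSp L b G k C r D U).small y →
    ∃ κ', (∀ α z, (toSp L b G k C r D U).sz α κ' z ↔ (toSp L b G k C r D U).sz α κ z) ∧
    (toSp L b G k C r D U).nbs c κ' x y ∧
    (∀ x' z, (toSp L b G k C r D U).wp x' → x' ≠ x →
      ((toSp L b G k C r D U).nbs c κ' x' z ↔ (toSp L b G k C r D U).nbs c κ x' z)) ∧
    (∀ c', c' ≠ c → ∀ x' z, (toSp L b G k C r D U).wp x' →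
      ((toSp L b G k C r D U).nbs c' κ' x' z ↔ (toSp L b G k C r D U).nbs c' κ x' z)) ∧
    ∀ P, (toSp L b G k C r D U).nul P κ' ↔ (toSp L b G k C r D U).nul P κ) := by
  have := finite_Slot L b G D hf
  have : Finite (L.Relations 0) := Finite.of_injective
    (fun P => (⟨0, P⟩ : Σ n, L.Relations n)) fun P Q h => by simpa using h
  refine UDef.allu (P := fun U _ _ κ =>
    ∀ c x y, (toSp L b G k C r D U).wp x → (toSp L b G k C r D U).small y →
    ∃ κ', (∀ α z, (toSp L b G k C r D U).sz α κ' z ↔ (toSp L b G k C r D U).sz α κ z) ∧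
    (toSp L b G k C r D U).nbs c κ' x y ∧
    (∀ x' z, (toSp L b G k C r D U).wp x' → x' ≠ x →
      ((toSp L b G k C r D U).nbs c κ' x' z ↔ (toSp L b G k C r D U).nbs c κ x' z)) ∧
    (∀ c', c' ≠ c → ∀ x' z, (toSp L b G k C r D U).wp x' →
      ((toSp L b G k C r D U).nbs c' κ' x' z ↔ (toSp L b G k C r D U).nbs c' κ x' z)) ∧
    ∀ P, (toSp L b G k C r D U).nul P κ' ↔ (toSp L b G k C r D U).nul P κ) ?_
  refine UDef.allFin fun c => ?_
  refine UDef.all (β := Fin 2) (P := fun U _ m xy =>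
    (toSp L b G k C r D U).wp (xy 0) → (toSp L b G k C r D U).small (xy 1) →
    ∃ κ', (∀ α z, (toSp L b G k C r D U).sz α κ' z ↔
      (toSp L b G k C r D U).sz α (m (Sum.inr ())) z) ∧
    (toSp L b G k C r D U).nbs c κ' (xy 0) (xy 1) ∧
    (∀ x' z, (toSp L b G k C r D U).wp x' → x' ≠ (xy 0) →
      ((toSp L b G k C r D U).nbs c κ' x' z ↔
        (toSp L b G k C r D U).nbs c (m (Sum.inr ())) x' z)) ∧
    (∀ c', c' ≠ c → ∀ x' z, (toSp L b G k C r D U).wp x' →
      ((toSp L b G k C r D U).nbs c' κ' x' z ↔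
        (toSp L b G k C r D U).nbs c' (m (Sum.inr ())) x' z)) ∧
    ∀ P, (toSp L b G k C r D U).nul P κ' ↔
      (toSp L b G k C r D U).nul P (m (Sum.inr ()))) ?_ |>.congr fun U _ m =>
      ⟨fun h x y => h ![x, y], fun h xy => h (xy 0) (xy 1)⟩
  refine UDef.imp (s_wp L b G k C r D _ (Sum.inr 0)) ?_
  refine UDef.imp (s_small L b G k C r D _ (Sum.inr 1)) ?_
  refine UDef.exu (P := fun U _ m κ' => (∀ α z, (toSp L b G k C r D U).sz α κ' z ↔
      (toSp L b G k C r D U).sz α (m (Sum.inl (Sum.inr ()))) z) ∧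
    (toSp L b G k C r D U).nbs c κ' (m (Sum.inr 0)) (m (Sum.inr 1)) ∧
    (∀ x' z, (toSp L b G k C r D U).wp x' → x' ≠ (m (Sum.inr 0)) →
      ((toSp L b G k C r D U).nbs c κ' x' z ↔
        (toSp L b G k C r D U).nbs c (m (Sum.inl (Sum.inr ()))) x' z)) ∧
    (∀ c', c' ≠ c → ∀ x' z, (toSp L b G k C r D U).wp x' →
      ((toSp L b G k C r D U).nbs c' κ' x' z ↔
        (toSp L b G k C r D U).nbs c' (m (Sum.inl (Sum.inr ()))) x' z)) ∧
    ∀ P, (toSp L b G k C r D U).nul P κ' ↔
      (toSp L b G k C r D U).nul P (m (Sum.inl (Sum.inr ())))) ?_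
  refine UDef.and (UDef.allFin fun γ => b_sz L b G k C r D _ γ (Sum.inr ())
    (Sum.inl (Sum.inl (Sum.inr ())))) (UDef.and ?_ (UDef.and ?_ (UDef.and ?_ ?_)))
  · exact axs_nbs L b G k C r D _ c (Sum.inr ()) (Sum.inl (Sum.inr 0)) (Sum.inl (Sum.inr 1))
  · refine UDef.allu (P := fun U _ m x' => ∀ z, (toSp L b G k C r D U).wp x' →
      x' ≠ (m (Sum.inl (Sum.inr 0))) →
      ((toSp L b G k C r D U).nbs c (m (Sum.inr ())) x' z ↔
        (toSp L b G k C r D U).nbs c (m (Sum.inl (Sum.inl (Sum.inr ())))) x' z)) ?_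
    refine UDef.allu (P := fun U _ m z => (toSp L b G k C r D U).wp (m (Sum.inr ())) →
      (m (Sum.inr ())) ≠ (m (Sum.inl (Sum.inl (Sum.inr 0)))) →
      ((toSp L b G k C r D U).nbs c (m (Sum.inl (Sum.inr ()))) (m (Sum.inr ())) z ↔
        (toSp L b G k C r D U).nbs c (m (Sum.inl (Sum.inl (Sum.inl (Sum.inr ())))))
          (m (Sum.inr ())) z)) ?_
    exact (s_wp L b G k C r D _ (Sum.inl (Sum.inr ()))).imp
      ((UDef.varEq (Sum.inl (Sum.inr ())) (Sum.inl (Sum.inl (Sum.inl (Sum.inr 0))))).not.imp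
        ((axs_nbs L b G k C r D _ c (Sum.inl (Sum.inl (Sum.inr ()))) (Sum.inl (Sum.inr ()))
          (Sum.inr ())).iff
        (axs_nbs L b G k C r D _ c (Sum.inl (Sum.inl (Sum.inl (Sum.inl (Sum.inr ())))))
          (Sum.inl (Sum.inr ())) (Sum.inr ()))))
  · exact UDef.allFin fun c' => (UDef.const _).imp
      (b_nb L b G k C r D _ c' (Sum.inr ()) (Sum.inl (Sum.inl (Sum.inr ()))))
  · exact UDef.allFin fun P => (s_nul L b G k C r D _ P (Sum.inr ())).iff
      (s_nul L b G k C r D _ P (Sum.inl (Sum.inl (Sum.inr ()))))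

theorem h_cl_nul : UDef (LS L b G k C r D) Empty (fun U _ _ =>
    ∀ κ P, ∃ κ', (∀ α z, (toSp L b G k C r D U).sz α κ' z ↔
      (toSp L b G k C r D U).sz α κ z) ∧
    (∀ c x z, (toSp L b G k C r D U).wp x → ((toSp L b G k C r D U).nbs c κ' x z ↔
      (toSp L b G k C r D U).nbs c κ x z)) ∧
    ((toSp L b G k C r D U).nul P κ' ↔ ¬ (toSp L b G k C r D U).nul P κ) ∧
    ∀ P', P' ≠ P → ((toSp L b G k C r D U).nul P' κ' ↔
      (toSp L b G k C r D U).nul P' κ)) := by
  have := finite_Slot L b G D hf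
  have : Finite (L.Relations 0) := Finite.of_injective
    (fun P => (⟨0, P⟩ : Σ n, L.Relations n)) fun P Q h => by simpa using h
  refine UDef.allu (P := fun U _ _ κ =>
    ∀ P, ∃ κ', (∀ α z, (toSp L b G k C r D U).sz α κ' z ↔
      (toSp L b G k C r D U).sz α κ z) ∧
    (∀ c x z, (toSp L b G k C r D U).wp x → ((toSp L b G k C r D U).nbs c κ' x z ↔
      (toSp L b G k C r D U).nbs c κ x z)) ∧
    ((toSp L b G k C r D U).nul P κ' ↔ ¬ (toSp L b G k C r D U).nul P κ) ∧
    ∀ P', P' ≠ P → ((toSp L b G k C r D U).nul P' κ' ↔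
      (toSp L b G k C r D U).nul P' κ)) ?_
  refine UDef.allFin fun P => ?_
  refine UDef.exu (P := fun U _ m κ' => (∀ α z, (toSp L b G k C r D U).sz α κ' z ↔
      (toSp L b G k C r D U).sz α (m (Sum.inr ())) z) ∧
    (∀ c x z, (toSp L b G k C r D U).wp x → ((toSp L b G k C r D U).nbs c κ' x z ↔
      (toSp L b G k C r D U).nbs c (m (Sum.inr ())) x z)) ∧
    ((toSp L b G k C r D U).nul P κ' ↔ ¬ (toSp L b G k C r D U).nul P (m (Sum.inr ()))) ∧
    ∀ P', P' ≠ P → ((toSp L b G k C r D U).nul P' κ' ↔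
      (toSp L b G k C r D U).nul P' (m (Sum.inr ())))) ?_
  refine UDef.and (UDef.allFin fun γ => b_sz L b G k C r D _ γ (Sum.inr ())
    (Sum.inl (Sum.inr ()))) (UDef.and (UDef.allFin fun c => b_nb L b G k C r D _ c (Sum.inr ())
      (Sum.inl (Sum.inr ()))) (UDef.and ?_ ?_))
  · exact (s_nul L b G k C r D _ P (Sum.inr ())).iff
      (s_nul L b G k C r D _ P (Sum.inl (Sum.inr ()))).not
  · exact UDef.allFin fun P' => (UDef.const _).imp
      ((s_nul L b G k C r D _ P' (Sum.inr ())).iff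
        (s_nul L b G k C r D _ P' (Sum.inl (Sum.inr ()))))

end Fin

end SpU

open SpU in
theorem udef_ax1 (hf : Finite (Σ n, L.Relations n)) :
    UDef (LS L b G k C r D) Empty (fun U _ _ => (toSp L b G k C r D U).Ax1) := by
  refine ((udef_lift L b G k C r D (P := fun U _ _ => (toRc L b G k 2 C r U).AxA)
    (udef_axA L b G k 2 C r)).and <| (h_cert_ex L b G k C r D).and <|
    (h_cert_fun L b G k C r D).and <| (h_cert_inj L b G k C r D).and <|
    (h_nb_ex L b G k C r D).and <| (h_link L b G k C r D).and <|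
    (h_cl_sz L b G k C r D).and <| (h_cl_nb L b G k C r D).and
    (h_cl_nul L b G k C r D)).congr fun M _ v => ?_
  constructor
  · rintro ⟨h0, h1, h2, h3, h4, h5, h6, h7, h8⟩
    exact ⟨h0, h1, h2, h3, h4, h5, h6, h7, h8⟩
  · intro h
    exact ⟨h.toAxA, h.cert_ex, h.cert_fun, h.cert_inj, h.nb_ex, h.link, h.cl_sz, h.cl_nb,
      h.cl_nul⟩

theorem ax_sentenceS (hf : Finite (Σ n, L.Relations n)) (Good : TI L b G → FI L b G k → Prop) :
    ∃ σ : (LS L b G k C r D).Sentence, ∀ (U : Type) [(LS L b G k C r D).Structure U],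
      σ.Realize U ↔ (toSp L b G k C r D U).Ax1 ∧ (toSp L b G k C r D U).toRc.AxR Good := by
  obtain ⟨σ, hσ⟩ := ((udef_ax1 L b G k C r D hf).and
    (udef_lift L b G k C r D (P := fun U _ _ => (toRc L b G k 2 C r U).AxR Good)
      (udef_axR hf b G k 2 C r Good))).exists_sentence
  exact ⟨σ, fun U _ => hσ U⟩

end Pool.Agent.Helper72.TX
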