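import Mathlib
import Pool.Agent.Helper72.TX.MainD
import Pool.Agent.Helper72.TX.FromModel2
import Pool.Agent.Helper72.TX.SpU
import Pool.Agent.Helper72.TX.SpRepr
import Pool.Agent.Helper72.TX.SpExist
import Pool.Agent.Helper72.TX.SpNum

set_option autoImplicit false

/-!
# TX: narrow tree-layerings of models of bounded degree, sparse version
-/

namespace Pool.Agent.Helper72.TX

open FirstOrder FirstOrder.Language Pool.Agent.Helper31.Spectra Pool.Agent.Helper87.AU
open Pool.Agent.Helper79.TL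

/-- A record with another relation `reach`. -/
def Sp.withReach {L : FirstOrder.Language.{0, 0}} {b G k C r D : ℕ} {U : Type}
    (R : Sp L b G k C r D U) (Q : FI L b G k → U → U → Prop) : Sp L b G k C r D U :=
  { R with reach := Q }

theorem Sp.Ax1.withReach {L : FirstOrder.Language.{0, 0}} {b G k C r D : ℕ} {U : Type}
    {R : Sp L b G k C r D U} (hR : R.Ax1) (Q : FI L b G k → U → U → Prop) :
    (R.withReach Q).Ax1 where
  refl := hR.refl
  antisymm := hR.antisymm
  trans := hR.trans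
  total := hR.total
  add0 := hR.add0
  addS := hR.addS
  wp_init := hR.wp_init
  wp_top := hR.wp_top
  sz_ex := hR.sz_ex
  tup_ex := hR.tup_ex
  tup_fun := hR.tup_fun
  tup_inj := hR.tup_inj
  tup_surj := hR.tup_surj
  top_ex := hR.top_ex
  cert_ex := hR.cert_ex
  cert_fun := hR.cert_fun
  cert_inj := hR.cert_inj
  nb_ex := hR.nb_ex
  link := hR.link
  cl_sz := hR.cl_sz
  cl_nb := hR.cl_nb
  cl_nul := hR.cl_nul

theorem sandwich_sparse {L : FirstOrder.Language.{0, 0}} (hL : ∀ n, IsEmpty (L.Functions n))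
    (hf : Finite (Σ n, L.Relations n)) (A : ℕ)
    (hA : ∀ n, A < n → IsEmpty (L.Relations n)) (φ : L.Sentence) (b d C : ℕ) (hC : 1 ≤ C) :
    ∃ T : Set ℕ, IsSpectrum {n | 0 < n ∧ n ∉ T} ∧ (∀ n ∈ T, n ∈ Spec L φ) ∧
      ∀ (M : Type) [L.Structure M] (w : ℕ), 3 ≤ Nat.card M → φ.Realize M →
        TreeLayering b w L M → (∀ v : M, {u | (gaifman L M).Adj v u}.ncard ≤ d) →
        (∀ W, Nat.card M ^ C ≤ (W + 1) ^ W → w ≤ W) → Nat.card M ∈ T := by
  obtain ⟨G, k, hacc⟩ := accept hL φ b
  -- parameters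
  set D := (d + 1) ^ A with hD
  set B₀ := Nat.card (L.Relations 0) with hB₀
  set B₁ := Nat.card (Win b (2 * rad G + 1)) with hB₁
  set B₃ := Nat.card (Slot L b G D) with hB₃
  set r := C * 4 * (B₀ + B₁ + B₃ + 1) with hr
  have hr1 : 1 ≤ r := by
    rw [hr]
    have : 0 < C * 4 * (B₀ + B₁ + B₃ + 1) := by positivity
    omega
  obtain ⟨σ, hσ⟩ := ax_sentenceS L b G k C r D hf (GoodS hL φ b G k)
  have hfin := finVoc_LS L b G k C r D hf
  have hLS : FinVoc (LS L b G k C r D) := by
    refine ⟨?_, hfin⟩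
    have : IsEmpty (Σ n, (LS L b G k C r D).Functions n) := ⟨fun z => z.2.elim⟩
    infer_instance
  refine ⟨{m | 3 ≤ m ∧ m ^ (r + 1) ∉ Spec (LS L b G k C r D) σ}, sandwich_of hLS σ r 3, ?_, ?_⟩
  · rintro m ⟨hm3, hnotin⟩
    have hmpos : 0 < m := by omega
    by_contra hnot
    apply hnotin
    obtain ⟨W, hW1, hcert, -, hWB⟩ := exists_widthS (C := C) (m := m) hC hm3
    have hle : ∀ B', B' ≤ B₀ + B₁ + B₃ + 1 → (W + 1) ^ (B' * W) ≤ m ^ r := by
      intro B' hB'
      refine (Nat.pow_le_pow_right (by omega) (Nat.mul_le_mul_right _ hB')).trans ?_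
      exact hWB (B₀ + B₁ + B₃ + 1)
    have hmr : m ^ r ≤ m ^ (r + 1) := Nat.pow_le_pow_right hmpos (Nat.le_succ r)
    have hself : ∀ n, n ≤ n * W := fun n => Nat.le_mul_of_pos_right n hW1
    obtain ⟨R₀, hR₀, hwid, hcarda⟩ := exists_ax1 L hf b G k C r D m W (by omega) hr1 hW1
      (by
        have h1 := hle 1 (by omega)
        have h2 : (W + 1) ^ 1 ≤ (W + 1) ^ (1 * W) :=
          Nat.pow_le_pow_right (by omega) (hself 1)
        rw [pow_one] at h2
        omega) hcert (by
        have h1 := hle (B₀ + B₁ + B₃) (by omega)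
        refine le_trans ?_ (h1.trans hmr)
        have h2 : (W + 1) ^ B₁ ≤ (W + 1) ^ (B₁ * W) :=
          Nat.pow_le_pow_right (by omega) (hself B₁)
        have h3 : 2 ^ B₀ ≤ (W + 1) ^ (B₀ * W) :=
          (Nat.pow_le_pow_left (by omega) _).trans
            (Nat.pow_le_pow_right (by omega) (hself B₀))
        calc (W + 1) ^ B₁ * (W + 1) ^ (B₃ * W) * 2 ^ B₀
            ≤ (W + 1) ^ (B₁ * W) * (W + 1) ^ (B₃ * W) * (W + 1) ^ (B₀ * W) :=
              Nat.mul_le_mul (Nat.mul_le_mul_right _ h2) h3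
          _ = (W + 1) ^ ((B₀ + B₁ + B₃) * W) := by
              rw [← pow_add, ← pow_add]
              congr 1
              ring)
    set R := R₀.withReach R₀.toRc.QP with hRdef
    have hR0 : R.Ax1 := hR₀.withReach _
    refine ⟨by positivity, Fin (m ^ (r + 1)), ofSp R, by simp, ?_⟩
    rw [hσ, toSp_ofSp]
    exact ⟨hR0, complete hL φ hacc hR0.toAxA rfl hcarda hmpos hnot⟩
  · intro M sM w hcM hM hT hdeg hw
    set m := Nat.card M with hmdef
    refine ⟨hcM, ?_⟩
    rintro ⟨hpos, U, sU, hcU, hU⟩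
    have hmpos : 0 < m := by omega
    have hfM : Finite M := Nat.finite_of_card_ne_zero (by omega)
    have hfU : Finite U := Nat.finite_of_card_ne_zero (by omega)
    have hneU : Nonempty U := by
      by_contra hc
      rw [not_nonempty_iff] at hc
      rw [Nat.card_of_isEmpty] at hcU
      omega
    set R := toSp L b G k C r D U with hRdef
    obtain ⟨hR0, hR1⟩ : R.Ax1 ∧ R.toRc.AxR (GoodS hL φ b G k) := (hσ U).1 hU
    have hcard : Nat.card {y // R.a y} = m := by
      have h1 := card_eq_pow hR0.toAxA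
      rw [hcU] at h1
      exact (Nat.pow_left_injective (Nat.succ_ne_zero r) h1).symm
    have hww : w ≤ R.toRc.wid := by
      have h1 := pow_leS hR0
      rw [hcard] at h1
      exact hw _ h1
    obtain ⟨C0, hV, hsz, hmod, hOD⟩ := cfg_of_model2 hL φ w A d hA M hM hT hdeg
    have hV' := hV.mono hww
    refine sound hL φ hR0.toAxA hR1 hcard C0 hV' (fun γ => ?_) hsz (by omega) hmod
    exact exists_codeS hf hR0 (C0.at γ) (fun α _ => hV'.1 (γ ++ α)) (od_at hOD G γ)

end Pool.Agent.Helper72.TX
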