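import Mathlib
import Pool.Agent.Helper72.TX.MainS
import Pool.Agent.Helper72.TX.Part
import Pool.Agent.Helper72.TX.Inter

set_option autoImplicit false

/-!
# TX: sentences with narrow models
-/

namespace Pool.Agent.Helper72.TX

open FirstOrder FirstOrder.Language Pool.Agent.Helper31.Spectra
open Pool.Agent.Helper79.TL

/-- All degrees in the Gaifman graph are at most `d`. -/
def DegLE (d : ℕ) (L : FirstOrder.Language.{0, 0}) (M : Type) [L.Structure M] : Prop :=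
  ∀ v : M, {u | (gaifman L M).Adj v u}.ncard ≤ d

/-- `M` is narrow. -/
def Narrow (A b d C : ℕ) (L : FirstOrder.Language.{0, 0}) (M : Type) [L.Structure M] : Prop :=
  (∃ w, TreeLayering b w L M ∧ 2 ^ (w ^ A) ≤ Nat.card M ^ C) ∨
  (DegLE d L M ∧ ∃ w, TreeLayering b w L M ∧ w ^ w ≤ Nat.card M ^ C) ∨
  (DegLE d L M ∧ ∃ k, TreeWidthLE k (gaifman L M) ∧ k ^ k ≤ Nat.card M ^ C)

theorem layering_of_tw {L : FirstOrder.Language.{0, 0}} {M : Type} [L.Structure M] [Finite M]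
    {k d : ℕ} (hd : 1 ≤ d) (hk : TreeWidthLE k (gaifman L M)) (hdeg : DegLE d L M) :
    TreeLayering (6 * d) (18 * (k + 1) * d) L M := by
  classical
  have := Fintype.ofFinite M
  obtain ⟨β, h1, h2, h3⟩ := tree_partition hd hk hdeg
  refine ⟨β, h1, h2, fun n R v hR i j => ?_⟩
  by_cases hij : v i = v j
  · exact Or.inl (congrArg β hij)
  · exact h3 _ _ ⟨hij, n, R, v, hR, ⟨i, rfl⟩, ⟨j, rfl⟩⟩

theorem main_mix {L : FirstOrder.Language.{0, 0}} (hL : ∀ n, IsEmpty (L.Functions n))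
    (hf : Finite (Σ n, L.Relations n)) (A : ℕ) (hA1 : 1 ≤ A)
    (hA : ∀ n, A < n → IsEmpty (L.Relations n)) (φ : L.Sentence) (b d C B : ℕ)
    (h : ∀ n ∈ Spec L φ, B ≤ n → ∃ (M : Type) (_ : L.Structure M),
      Nat.card M = n ∧ φ.Realize M ∧ Narrow A b d C L M) :
    IsSpectrum {n | 0 < n ∧ n ∉ Spec L φ} := by
  obtain ⟨C', hC', hnum⟩ := tw_num C (18 * (d + 1))
  obtain ⟨T₁, h1, h1', h1''⟩ := sandwich_dense hL hf A hA1 hA φ b C
  obtain ⟨T₂, h2, h2', h2''⟩ := sandwich_sparse hL hf A hA φ b d (C + 1) (by omega)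
  obtain ⟨T₃, h3, h3', h3''⟩ := sandwich_sparse hL hf A hA φ (6 * (d + 1)) (d + 1) C' hC'
  have hlarge := isSpectrum_ge (isSpectrum_inter h1 (isSpectrum_inter h2 h3)) (max B 3)
  have hsmall : IsSpectrum {n | 0 < n ∧ n < max B 3 ∧ n ∉ Spec L φ} :=
    Pool.Agent.Helper72.WT.isSpectrum_finite (fun n hn => hn.1) (max B 3) (fun n hn => hn.2.1.le)
  have hunion := hlarge.union hsmall
  have heq : {n | 0 < n ∧ n ∉ Spec L φ} =
      {n | n ∈ {n | 0 < n ∧ n ∉ T₁} ∩ ({n | 0 < n ∧ n ∉ T₂} ∩ {n | 0 < n ∧ n ∉ T₃}) ∧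
        max B 3 ≤ n} ∪ {n | 0 < n ∧ n < max B 3 ∧ n ∉ Spec L φ} := by
    ext n
    constructor
    · rintro ⟨hn, hns⟩
      rcases Nat.lt_or_ge n (max B 3) with h4 | h4
      · exact Or.inr ⟨hn, h4, hns⟩
      · exact Or.inl ⟨⟨⟨hn, fun h5 => hns (h1' n h5)⟩, ⟨hn, fun h5 => hns (h2' n h5)⟩,
          ⟨hn, fun h5 => hns (h3' n h5)⟩⟩, h4⟩
    · rintro (⟨⟨⟨hn, ht1⟩, ⟨-, ht2⟩, ⟨-, ht3⟩⟩, h4⟩ | ⟨hn, -, hns⟩)
      · refine ⟨hn, fun hns => ?_⟩
        obtain ⟨M, sM, hcM, hM, hnar⟩ := h n hns ((le_max_left _ _).trans h4)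
        have h3n : 3 ≤ Nat.card M := by
          rw [hcM]
          exact (le_max_right _ _).trans h4
        have hfM : Finite M := Nat.finite_of_card_ne_zero (by omega)
        rcases hnar with ⟨w, hT, hw⟩ | ⟨hdeg, w, hT, hw⟩ | ⟨hdeg, k, hk, hw⟩
        · exact ht1 (hcM ▸ h1'' M w h3n hM hT hw)
        · refine ht2 (hcM ▸ h2'' M w h3n hM hT hdeg fun W hW => ?_)
          by_contra hlt
          push Not at hlt
          have h5 : (W + 1) ^ W ≤ w ^ w :=
            (Nat.pow_le_pow_left hlt W).trans (Nat.pow_le_pow_right (by omega) hlt.le)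
          have h6 : Nat.card M ^ C < Nat.card M ^ (C + 1) :=
            Nat.pow_lt_pow_right (by omega) (Nat.lt_succ_self C)
          omega
        · have hdeg' : DegLE (d + 1) L M := fun v => (hdeg v).trans (Nat.le_succ d)
          have hT := layering_of_tw (Nat.le_add_left 1 d) hk hdeg'
          refine ht3 (hcM ▸ h3'' M _ h3n hM hT hdeg' fun W hW => ?_)
          have h5 := hnum (Nat.card M) k W (by omega) hw hW
          calc 18 * (k + 1) * (d + 1) = 18 * (d + 1) * (k + 1) := by ring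
            _ ≤ W := h5
      · exact ⟨hn, hns⟩
  rw [heq]
  exact hunion

end Pool.Agent.Helper72.TX
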